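import Pool.Agent.K9h77.RL.Trans2
import Pool.Agent.W863.AllK

/-! Random lines with superlinear levels. -/

set_option autoImplicit false

namespace Pool.Agent.K9h77.RL

open Finset MeasureTheory Filter Pool.Agent.H189R2.Lev Pool.Agent.H189R2.Iid
open KLev.Levels (height kLevel IsVertex complexity vertices_finite complexity_le)
open Pool.Agent.Results.MP_a08d0a_co.IidLevel
open Pool.Agent.W863.AllK (HasEv)
open scoped ENNReal Topology

theorem key_real {L u : ℝ} (hu : 8 ≤ u) (hL : L = Real.exp (u ^ 2)) :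
    16 * Real.exp 6400 * Real.exp (L * Real.exp (-4 * u)) ≤
      Real.exp (L / 3 * Real.exp (-3 * u)) := by
  have h16 : (16 : ℝ) ≤ Real.exp 3 := by
    have h1 : (2.7 : ℝ) < Real.exp 1 := by
      have := Real.exp_one_gt_d9
      linarith
    have h2 : Real.exp 3 = Real.exp 1 ^ 3 := by
      rw [← Real.exp_nat_mul]; norm_num
    rw [h2]
    calc (16 : ℝ) ≤ 2.7 ^ 3 := by norm_num
      _ ≤ _ := pow_le_pow_left₀ (by norm_num) h1.le 3
  obtain ⟨W, hW⟩ : ∃ W, W = Real.exp (u ^ 2 - 4 * u) := ⟨_, rfl⟩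
  have e1 : L * Real.exp (-4 * u) = W := by
    rw [hL, hW, ← Real.exp_add]; congr 1; ring
  have e2 : L / 3 * Real.exp (-3 * u) = W * Real.exp u / 3 := by
    have : Real.exp (-3 * u) = Real.exp (-4 * u) * Real.exp u := by
      rw [← Real.exp_add]; congr 1; ring
    rw [this, ← e1]; ring
  have h3 : (6561 : ℝ) ≤ W := by
    have h4 : (9 : ℝ) ≤ Real.exp 8 := by
      have := Real.add_one_le_exp (8 : ℝ)
      linarith
    have h5 : Real.exp 32 = Real.exp 8 ^ 4 := by
      rw [← Real.exp_nat_mul]; norm_num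
    have h6 : Real.exp 32 ≤ W := by
      rw [hW]; apply Real.exp_le_exp.mpr; nlinarith
    refine le_trans ?_ h6
    rw [h5]
    calc (6561 : ℝ) = 9 ^ 4 := by norm_num
      _ ≤ _ := pow_le_pow_left₀ (by norm_num) h4 4
  have h7 : (9 : ℝ) ≤ Real.exp u := by
    have := Real.add_one_le_exp u
    linarith
  rw [e1, e2]
  calc 16 * Real.exp 6400 * Real.exp W ≤ Real.exp 3 * Real.exp 6400 * Real.exp W := by
        gcongr
    _ = Real.exp (6403 + W) := by
        rw [← Real.exp_add, ← Real.exp_add]; congr 1; ring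
    _ ≤ _ := by
        apply Real.exp_le_exp.mpr
        nlinarith

/-- the exponent for the square root -/
theorem key_sqrt {k κ : ℕ} (h3 : 3 ≤ κ) (h1 : κ ≤ k) (h2 : k ≤ κ ^ 2 + 2 * κ)
    (hu : 8 ≤ √(Real.log (Real.log k))) :
    16 * Real.exp 6400 * (k : ℝ) ^ Real.exp (-4 * √(Real.log (Real.log k))) ≤
      (κ : ℝ) ^ Real.exp (-3 * √(Real.log (Real.log κ))) := by
  obtain ⟨u, hu'⟩ : ∃ u, u = √(Real.log (Real.log k)) := ⟨_, rfl⟩
  rw [← hu'] at hu ⊢
  have hκR : (3 : ℝ) ≤ κ := by exact_mod_cast h3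
  have hkR : (κ : ℝ) ≤ k := by exact_mod_cast h1
  have hk0 : (0 : ℝ) < k := by linarith
  have hκ0 : (0 : ℝ) < κ := by linarith
  have hlogκ : 0 < Real.log κ := Real.log_pos (by linarith)
  have hlogk : 0 < Real.log k := Real.log_pos (by linarith)
  have hlk : Real.log κ ≤ Real.log k := Real.log_le_log hκ0 hkR
  have hpos : 0 ≤ Real.log (Real.log k) := by
    by_contra hneg
    push Not at hneg
    rw [Real.sqrt_eq_zero_of_nonpos hneg.le] at hu'
    linarith
  have hL : Real.log k = Real.exp (u ^ 2) := by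
    rw [hu', Real.sq_sqrt hpos, Real.exp_log hlogk]
  have hκu : √(Real.log (Real.log κ)) ≤ u := by
    rw [hu']
    exact Real.sqrt_le_sqrt (Real.log_le_log hlogκ hlk)
  have h13 : Real.log k / 3 ≤ Real.log κ := by
    have h4 : (k : ℝ) ≤ (κ : ℝ) ^ 3 := by
      have : (k : ℝ) ≤ (κ : ℝ) ^ 2 + 2 * κ := by exact_mod_cast h2
      nlinarith [mul_pos hκ0 hκ0]
    have h5 := Real.log_le_log hk0 h4
    rw [Real.log_pow] at h5
    push_cast at h5
    linarith
  have hA : (k : ℝ) ^ Real.exp (-4 * u) = Real.exp (Real.log k * Real.exp (-4 * u)) := by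
    rw [Real.rpow_def_of_pos hk0]
  have hB : Real.exp (Real.log k / 3 * Real.exp (-3 * u)) ≤
      (κ : ℝ) ^ Real.exp (-3 * √(Real.log (Real.log κ))) := by
    rw [Real.rpow_def_of_pos hκ0]
    apply Real.exp_le_exp.mpr
    have : Real.exp (-3 * u) ≤ Real.exp (-3 * √(Real.log (Real.log κ))) :=
      Real.exp_le_exp.mpr (by linarith)
    exact mul_le_mul h13 this (Real.exp_pos _).le hlogκ.le
  rw [hA]
  exact (key_real hu hL).trans hB

/-- the side condition -/
theorem side {k κ κ' N n r : ℝ} (hkR : 6401 ≤ k) (hκR : 80 ≤ κ) (hκ1 : κ * κ ≤ k)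
    (hκ2 : k ≤ (κ + 1) * (κ + 1)) (hN1 : N * k ≤ κ * n) (hN2 : κ * n ≤ (N + 1) * k)
    (hN3 : 2 * κ ≤ N) (hkn : 2 * k ≤ n) (hr0 : 0 ≤ r) (hr2 : r * r = k - 1)
    (h1 : κ - 1 ≤ κ') (h2 : κ' ≤ κ) (hNn : N ≤ n - 2) :
    |κ' / N - (k - 1) / (n - 2)| + 2 / N ≤ 40 * r / (n - 2) := by
  have hN0 : 0 < N := by linarith
  have hk0 : 0 < k := by linarith
  have hn0 : 0 < n := by linarith
  have hden : 0 < n - 2 := by linarith
  have hrp : 0 < r := by
    rcases hr0.lt_or_eq with h | h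
    · exact h
    · rw [← h] at hr2; linarith
  have hκr : κ ≤ r + 1 := by
    by_contra hcon
    push Not at hcon
    have : (r + 1) * (r + 1) ≤ κ * κ := mul_self_le_mul_self (by linarith) hcon.le
    linarith
  have e1 : |κ' / N - κ / N| ≤ 1 / N := by
    rw [← sub_div, abs_div, abs_of_pos hN0]
    apply div_le_div_of_nonneg_right _ hN0.le
    rw [abs_le]; constructor <;> linarith
  have e2 : |κ / N - k / n| ≤ 1 / N := by
    have e : κ / N - k / n = (κ * n - k * N) / (n * N) := by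
      field_simp
    have f0 : 0 ≤ κ * n - k * N := by linarith
    have f1 : κ * n - k * N ≤ n := by linarith
    rw [e, abs_div, abs_of_pos (mul_pos hn0 hN0), abs_of_nonneg f0,
      div_le_div_iff₀ (mul_pos hn0 hN0) hN0, one_mul]
    exact mul_le_mul_of_nonneg_right f1 hN0.le
  have e3 : |k / n - (k - 1) / (n - 2)| ≤ 1 / N := by
    have e : k / n - (k - 1) / (n - 2) = (n - 2 * k) / (n * (n - 2)) := by
      field_simp
      ring
    have f0 : 0 ≤ n - 2 * k := by linarith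
    rw [e, abs_div, abs_of_pos (mul_pos hn0 hden), abs_of_nonneg f0,
      div_le_div_iff₀ (mul_pos hn0 hden) hN0, one_mul]
    calc (n - 2 * k) * N ≤ n * (n - 2) := mul_le_mul (by linarith) hNn hN0.le hn0.le
      _ = _ := rfl
  have e4 : |κ' / N - (k - 1) / (n - 2)| ≤ 3 / N := by
    have f1 := abs_le.mp e1
    have f2 := abs_le.mp e2
    have f3 := abs_le.mp e3
    have f4 : 3 / N = 1 / N + 1 / N + 1 / N := by ring
    rw [abs_le]
    constructor <;> linarith [f1.1, f1.2, f2.1, f2.2, f3.1, f3.2]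
  have e5 : 5 / N ≤ 40 * r / (n - 2) := by
    rw [div_le_div_iff₀ hN0 hden]
    have f1 : κ * n ≤ 2 * (N * k) := by
      have : k ≤ N * k := le_mul_of_one_le_left hk0.le (by linarith)
      linarith
    have f2 : k ≤ 2 * (κ * r) := by
      have g1 : κ * (κ - 1) ≤ κ * r := mul_le_mul_of_nonneg_left (by linarith) (by linarith)
      have g2 : 80 * κ ≤ κ * κ := mul_le_mul_of_nonneg_right hκR (by linarith)
      linarith
    have f3 : 5 * (n - 2) * k ≤ 40 * r * N * k := by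
      calc 5 * (n - 2) * k ≤ 5 * n * k := by
            apply mul_le_mul_of_nonneg_right _ hk0.le
            linarith
        _ ≤ 5 * n * (2 * (κ * r)) := by
            apply mul_le_mul_of_nonneg_left f2; positivity
        _ = 10 * r * (κ * n) := by ring
        _ ≤ 10 * r * (2 * (N * k)) := by
            apply mul_le_mul_of_nonneg_left f1; positivity
        _ ≤ 40 * r * N * k := by
            have : 0 ≤ r * N * k := by positivity
            linarith
    exact le_of_mul_le_mul_right f3 hk0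
  have e6 : 5 / N = 3 / N + 2 / N := by ring
  linarith

/-- the final count -/
theorem fin_count {k κ N n r Y E : ℝ} (hkR : 6401 ≤ k) (hκ1 : κ * κ ≤ k)
    (hN1 : N * k ≤ κ * n) (hN0 : 0 < N) (hkn : 2 * k ≤ n) (hr0 : 0 ≤ r) (hr2 : r * r = k - 1)
    (hY0 : 0 ≤ Y) (hE : N * Y / 2 ≤ E) :
    n * (Real.exp (-6400) * Y / 16) ≤
      (n * n - n) * (Real.exp (-6400) / (4 * r) * (E * (1 / N) ^ 2)) := by
  have hk0 : 0 < k := by linarith
  have hn0 : 0 < n := by linarith
  have hr1 : 1 ≤ r := by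
    by_contra hcon
    push Not at hcon
    have : r * r ≤ 1 * 1 := mul_self_le_mul_self hr0 hcon.le
    linarith
  have hexp0 := Real.exp_pos (-6400 : ℝ)
  have h9 : n * r * N ≤ 2 * (n * n - n) := by
    have f1 : N * k * r ≤ κ * n * r := mul_le_mul_of_nonneg_right hN1 hr0
    have f2 : κ * r ≤ k := by
      have := mul_self_nonneg (κ - r)
      linarith
    have f2' : κ * r * n ≤ k * n := mul_le_mul_of_nonneg_right f2 hn0.le
    have f3 : N * r * k ≤ n * k := by linarith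
    have f4 : N * r ≤ n := le_of_mul_le_mul_right f3 hk0
    have f5 : N * r * n ≤ n * n := mul_le_mul_of_nonneg_right f4 hn0.le
    have f6 : 2 * n ≤ n * n := mul_le_mul_of_nonneg_right (by linarith) hn0.le
    linarith
  have h10 : 0 ≤ n * n - n := by
    have f6 : 1 * n ≤ n * n := mul_le_mul_of_nonneg_right (by linarith) hn0.le
    linarith
  have hr0' : 0 < r := by linarith
  calc n * (Real.exp (-6400) * Y / 16) =
        (n * r * N) * (Real.exp (-6400) / (16 * r) * (N * Y * (1 / N) ^ 2)) := by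
        field_simp
    _ ≤ (2 * (n * n - n)) * (Real.exp (-6400) / (16 * r) * (N * Y * (1 / N) ^ 2)) := by
        apply mul_le_mul_of_nonneg_right h9
        positivity
    _ = (n * n - n) * (Real.exp (-6400) / (4 * r) * ((N * Y / 2) * (1 / N) ^ 2)) := by
        ring
    _ ≤ _ := by
        apply mul_le_mul_of_nonneg_left _ h10
        gcongr

/-- **All low levels**: a law of random lines with a superlinear expected `k`-level. -/
theorem big_levels : ∃ k₀ : ℕ, ∀ n k : ℕ, k₀ ≤ k → 2 * k ≤ n →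
    ∃ μ : Measure (ℝ × ℝ), IsProbabilityMeasure μ ∧ LN μ ∧
      ENNReal.ofReal (Real.exp (-6400) / 16 *
        (√k * KLev.Levels.e (Nat.sqrt k) (Nat.sqrt k * n / k))) ≤ expPsi μ n k ∧
      ENNReal.ofReal (n * (k : ℝ) ^ Real.exp (-4 * √(Real.log (Real.log k)))) ≤
        expPsi μ n k := by
  obtain ⟨a, ha⟩ := Pool.Agent.W863.AllK.main
  have hlim : Tendsto (fun k : ℕ => √(Real.log (Real.log (k : ℝ)))) atTop atTop :=
    Real.tendsto_sqrt_atTop.comp (Real.tendsto_log_atTop.comp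
      (Real.tendsto_log_atTop.comp tendsto_natCast_atTop_atTop))
  obtain ⟨b, hb⟩ := (hlim.eventually_ge_atTop 8).exists_forall_of_atTop
  refine ⟨max b (max 6401 ((a + 3) * (a + 3))), fun n k hk hkn => ?_⟩
  have hkb : b ≤ k := (le_max_left _ _).trans hk
  have hk1 : 6401 ≤ k := ((le_max_left _ _).trans (le_max_right _ _)).trans hk
  have hka : (a + 3) * (a + 3) ≤ k := ((le_max_right _ _).trans (le_max_right _ _)).trans hk
  obtain ⟨κ, hκ⟩ : ∃ κ, κ = Nat.sqrt k := ⟨_, rfl⟩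
  have hκa : a + 3 ≤ κ := by rw [hκ]; exact Nat.le_sqrt.mpr hka
  have hκ80 : 80 ≤ κ := by rw [hκ]; exact Nat.le_sqrt.mpr (by omega)
  have hκ1 : κ * κ ≤ k := by rw [hκ]; exact Nat.sqrt_le k
  have hκ2 : k < (κ + 1) * (κ + 1) := by rw [hκ]; exact Nat.lt_succ_sqrt k
  obtain ⟨N, hN⟩ : ∃ N, N = κ * n / k := ⟨_, rfl⟩
  have hk0 : 0 < k := by omega
  have hN1 : N * k ≤ κ * n := by rw [hN]; exact Nat.div_mul_le_self _ _
  have hN2 : κ * n < (N + 1) * k := by
    rw [hN, mul_comm (κ * n / k + 1) k]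
    exact Nat.lt_mul_div_succ (κ * n) hk0
  have hN3 : 2 * κ ≤ N := by
    rw [hN, Nat.le_div_iff_mul_le hk0]
    calc 2 * κ * k = κ * (2 * k) := by ring
      _ ≤ κ * n := Nat.mul_le_mul_left _ hkn
  have hmin : min κ (N - κ) = κ := by omega
  have h1 := ha N κ (by omega) (by omega)
  rw [hmin] at h1
  have h2 := key_sqrt (k := k) (κ := κ) (by omega) (le_trans (Nat.le_mul_self κ) hκ1)
    (by
      have : (κ + 1) * (κ + 1) = κ ^ 2 + 2 * κ + 1 := by ring
      omega) (hb k hkb)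
  obtain ⟨Γ, g1, g2⟩ := e_attained κ N
  obtain ⟨κ', E, h3, h4, h5⟩ := exists_hasEv Γ κ
  rw [g1] at h5
  rw [g2] at h4
  have hkR : (6401 : ℝ) ≤ k := by exact_mod_cast hk1
  have hκR : (80 : ℝ) ≤ κ := by exact_mod_cast hκ80
  have hκ1R : (κ : ℝ) * κ ≤ k := by exact_mod_cast hκ1
  have hκ2R : (k : ℝ) ≤ (κ + 1) * (κ + 1) := by exact_mod_cast hκ2.le
  have hN1R : (N : ℝ) * k ≤ κ * n := by exact_mod_cast hN1
  have hN2R : (κ : ℝ) * n ≤ (N + 1) * k := by exact_mod_cast hN2.le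
  have hN3R : 2 * (κ : ℝ) ≤ N := by exact_mod_cast hN3
  have hknR : 2 * (k : ℝ) ≤ n := by exact_mod_cast hkn
  have hN0 : (0 : ℝ) < N := by linarith
  have hk0R : (0 : ℝ) < k := by linarith
  have hn0 : (0 : ℝ) < n := by linarith
  have hcast : ((k - 1 : ℕ) : ℝ) = (k : ℝ) - 1 := by
    rw [Nat.cast_sub (by omega)]; push_cast; rfl
  have hcast2 : ((n - 2 : ℕ) : ℝ) = (n : ℝ) - 2 := by
    rw [Nat.cast_sub (by omega)]; push_cast; rfl
  obtain ⟨r, hr⟩ : ∃ r, r = Real.sqrt ((k : ℝ) - 1) := ⟨_, rfl⟩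
  have hr0 : 0 ≤ r := by rw [hr]; exact Real.sqrt_nonneg _
  have hr2 : r * r = k - 1 := by rw [hr]; exact Real.mul_self_sqrt (by linarith)
  have hNn : (N : ℝ) ≤ n - 2 := by
    have f0 : (80 : ℝ) * κ ≤ κ * κ := mul_le_mul_of_nonneg_right hκR (by linarith)
    have f1 : (N : ℝ) * 80 * k ≤ n * k := by
      have f2 : (κ : ℝ) * 80 * n ≤ k * n := mul_le_mul_of_nonneg_right (by linarith) hn0.le
      linarith
    have f3 : (N : ℝ) * 80 ≤ n := le_of_mul_le_mul_right f1 hk0R
    linarith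
  have hκ'R : (κ : ℝ) - 1 ≤ κ' ∧ (κ' : ℝ) ≤ κ := by
    rcases h3 with h | h
    · rw [h]; constructor <;> linarith
    · have : (κ' : ℝ) + 1 = κ := by exact_mod_cast h
      constructor <;> linarith
  have hside := side hkR hκR hκ1R hκ2R hN1R hN2R hN3R hknR hr0 hr2 hκ'R.1 hκ'R.2 hNn
  obtain ⟨μ, q1, q2, q3⟩ := law_exists (κ := κ') h5 (by omega : 1 ≤ N) (n := n)
    (m := k - 1) (by omega) (by omega) (t := 40) (by rw [hcast]; linarith) (by
      rw [hcast, hcast2, ← hr]
      exact hside)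
  rw [Nat.sub_add_cancel (by omega : 1 ≤ k), hcast, ← hr] at q3
  have hx : (-(4 * (40 : ℝ) ^ 2)) = -6400 := by norm_num
  rw [hx] at q3
  have he0 : (0 : ℝ) ≤ KLev.Levels.e κ N := Nat.cast_nonneg _
  have hE2 : (KLev.Levels.e κ N : ℝ) ≤ 2 * E := by exact_mod_cast h4
  have hfin := fin_count hkR hκ1R hN1R hN0 hknR hr0 hr2
    (Y := (KLev.Levels.e κ N : ℝ) / N) (E := E) (by positivity) (by
      have : (N : ℝ) * ((KLev.Levels.e κ N : ℝ) / N) = KLev.Levels.e κ N := by
        field_simp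
      rw [this]
      linarith)
  have hexp0 := Real.exp_pos (-6400 : ℝ)
  refine ⟨μ, q1, q2, le_trans (ENNReal.ofReal_le_ofReal (le_trans ?_ hfin)) q3,
    le_trans (ENNReal.ofReal_le_ofReal (le_trans ?_ hfin)) q3⟩
  · rw [← hκ, ← hN]
    have f1 : √(k : ℝ) * N ≤ n := by
      have f2 : (κ : ℝ) ≤ √k := Real.le_sqrt_of_sq_le (by rw [sq]; exact hκ1R)
      have f3 : √(k : ℝ) * √k = k := Real.mul_self_sqrt hk0R.le
      have f4 : 0 < √(k : ℝ) := Real.sqrt_pos.mpr hk0R
      have f5 : √(k : ℝ) * N * √k ≤ n * √k := by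
        calc √(k : ℝ) * N * √k = N * (√k * √k) := by ring
          _ = N * k := by rw [f3]
          _ ≤ κ * n := hN1R
          _ ≤ √k * n := mul_le_mul_of_nonneg_right f2 hn0.le
          _ = n * √k := mul_comm _ _
      exact le_of_mul_le_mul_right f5 f4
    have f6 : √(k : ℝ) * KLev.Levels.e κ N ≤ n * ((KLev.Levels.e κ N : ℝ) / N) := by
      rw [← mul_div_assoc, le_div_iff₀ hN0]
      calc √(k : ℝ) * KLev.Levels.e κ N * N = (√k * N) * KLev.Levels.e κ N := by ring
        _ ≤ n * KLev.Levels.e κ N := mul_le_mul_of_nonneg_right f1 he0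
    calc Real.exp (-6400) / 16 * (√(k : ℝ) * KLev.Levels.e κ N) ≤
          Real.exp (-6400) / 16 * (n * ((KLev.Levels.e κ N : ℝ) / N)) :=
          mul_le_mul_of_nonneg_left f6 (by positivity)
      _ = _ := by ring
  · have hexp : Real.exp (-6400 : ℝ) * Real.exp 6400 = 1 := by
      rw [← Real.exp_add]; norm_num
    have g0 : (κ : ℝ) ^ Real.exp (-3 * √(Real.log (Real.log κ))) ≤
        (KLev.Levels.e κ N : ℝ) / N := by
      rw [le_div_iff₀ hN0, mul_comm]
      exact h1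
    obtain ⟨Z, hZ⟩ : ∃ Z, Z = (k : ℝ) ^ Real.exp (-4 * √(Real.log (Real.log k))) := ⟨_, rfl⟩
    rw [← hZ] at h2 ⊢
    have g1 : 16 * Z ≤ Real.exp (-6400) * ((KLev.Levels.e κ N : ℝ) / N) := by
      calc 16 * Z = Real.exp (-6400) * (16 * Real.exp 6400 * Z) := by
            linear_combination (-16 * Z) * hexp
        _ ≤ _ := mul_le_mul_of_nonneg_left (h2.trans g0) hexp0.le
    apply mul_le_mul_of_nonneg_left _ hn0.le
    linarith

end Pool.Agent.K9h77.RL
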