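import Pool.Agent.H189R2.Iid.Final

/-! Lower bounds for binomial probabilities near the mean. -/

set_option autoImplicit false

namespace Pool.Agent.K9h77.RL

open Finset Pool.Agent.H189R2.Iid

/-- the central term -/
theorem central_ge {N k : ℕ} (hk : 1 ≤ k) (hN : 2 * k ≤ N) :
    1 / (4 * Real.sqrt k) ≤
      (N.choose k : ℝ) * (((k : ℝ) / N) ^ k * (1 - (k : ℝ) / N) ^ (N - k)) := by
  have hN0 : (0 : ℝ) < N := by exact_mod_cast (by omega : 0 < N)
  have hk0 : (0 : ℝ) < k := by exact_mod_cast hk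
  have hkN : k ≤ N := by omega
  have hNk : ((N - k : ℕ) : ℝ) = N - k := Nat.cast_sub hkN
  have hNk2 : (0 : ℝ) < N - k := by
    have : (2 * k : ℝ) ≤ N := by exact_mod_cast hN
    linarith
  set e := Real.exp 1 with he
  have he0 : 0 < e := Real.exp_pos 1
  have h1 : (N.choose k : ℝ) * k.factorial * (N - k).factorial = N.factorial := by
    exact_mod_cast Nat.choose_mul_factorial_mul_factorial hkN
  have h2 := fact_le (n := k) hk
  have h3 := fact_le (n := N - k) (by omega)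
  have h4 := Stirling.le_factorial_stirling N
  rw [hNk] at h3
  have s1 : 2 * Real.sqrt N ≤ Real.sqrt (2 * Real.pi * N) := by
    have : 2 * Real.sqrt N = Real.sqrt (4 * N) := by
      rw [Real.sqrt_mul (by norm_num : (0 : ℝ) ≤ 4)]
      congr 1
      rw [show (4 : ℝ) = 2 ^ 2 by norm_num, Real.sqrt_sq (by norm_num)]
    rw [this]
    apply Real.sqrt_le_sqrt
    nlinarith [Real.pi_gt_three]
  have s2 : Real.sqrt (N - k) ≤ Real.sqrt N := by
    apply Real.sqrt_le_sqrt
    linarith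
  set A : ℝ := ((k : ℝ) / e) ^ k with hA
  set B : ℝ := (((N : ℝ) - k) / e) ^ (N - k) with hB
  set D : ℝ := ((N : ℝ) / e) ^ N with hD
  have hA0 : 0 < A := by positivity
  have hB0 : 0 < B := by rw [hB]; positivity
  have hD0 : 0 < D := by positivity
  have hCh : (0 : ℝ) ≤ N.choose k := Nat.cast_nonneg _
  have h5 : 2 * Real.sqrt N * D ≤
      (N.choose k : ℝ) * (e * Real.sqrt k * A) * (e * Real.sqrt N * B) := by
    have t0 : 2 * Real.sqrt N * D ≤ N.factorial :=
      (mul_le_mul_of_nonneg_right s1 hD0.le).trans h4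
    refine t0.trans ?_
    rw [← h1]
    have t2 : ((N - k).factorial : ℝ) ≤ e * Real.sqrt N * B := by
      refine h3.trans ?_
      gcongr
    gcongr
  have hAB : A * B = ((k : ℝ) / N) ^ k * (1 - (k : ℝ) / N) ^ (N - k) * D := by
    have e1 : D = ((N : ℝ) / e) ^ k * ((N : ℝ) / e) ^ (N - k) := by
      rw [hD, ← pow_add]
      congr 1
      omega
    have e2 : (k : ℝ) / e = k / N * (N / e) := by field_simp
    have e3 : ((N : ℝ) - k) / e = (1 - k / N) * (N / e) := by field_simp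
    rw [hA, hB, e1, e2, e3, mul_pow, mul_pow]
    ring
  set G := (N.choose k : ℝ) * (((k : ℝ) / N) ^ k * (1 - (k : ℝ) / N) ^ (N - k)) with hG
  have hsN : 0 < Real.sqrt N := Real.sqrt_pos.mpr hN0
  have hsk : 0 < Real.sqrt k := Real.sqrt_pos.mpr hk0
  have h6 : 2 * (Real.sqrt N * D) ≤ (e ^ 2 * (G * Real.sqrt k)) * (Real.sqrt N * D) := by
    calc 2 * (Real.sqrt N * D) = 2 * Real.sqrt N * D := by ring
      _ ≤ _ := h5
      _ = (e ^ 2 * Real.sqrt k) * (N.choose k : ℝ) * Real.sqrt N * (A * B) := by ring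
      _ = _ := by rw [hAB, hG]; ring
  have h7 : 2 ≤ e ^ 2 * (G * Real.sqrt k) := le_of_mul_le_mul_right h6 (by positivity)
  have h8 : e ^ 2 ≤ 8 := by
    have := Real.exp_one_lt_d9
    have h9 : e < 2.7182818286 := by rw [he]; exact this
    nlinarith
  have hG0 : 0 ≤ G * Real.sqrt k := by
    by_contra h
    push Not at h
    have : e ^ 2 * (G * Real.sqrt k) < 0 := mul_neg_of_pos_of_neg (by positivity) h
    linarith
  rw [div_le_iff₀ (by positivity)]
  nlinarith

theorem log_ge {x : ℝ} (hx : -(1 / 2) ≤ x) : x - 2 * x ^ 2 ≤ Real.log (1 + x) := by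
  have h0 : 0 < 1 + x := by linarith
  have h1 := Real.one_sub_inv_le_log_of_pos h0
  refine le_trans ?_ h1
  have h2 : 1 - (1 + x)⁻¹ = x / (1 + x) := by
    field_simp
    ring
  rw [h2, le_div_iff₀ h0]
  nlinarith [mul_nonneg (sq_nonneg x) (by linarith : (0 : ℝ) ≤ 1 + 2 * x)]

/-- binomial probabilities within `A` standard deviations of the mean -/
theorem weight_ge {N k : ℕ} (hk : 1 ≤ k) (hN : 2 * k ≤ N) {A : ℝ}
    (hAk : 4 * A ^ 2 ≤ k) {f : ℝ} (hf : |f - k / N| ≤ A * Real.sqrt k / N) :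
    Real.exp (-(4 * A ^ 2)) / (4 * Real.sqrt k) ≤
      (N.choose k : ℝ) * (f ^ k * (1 - f) ^ (N - k)) := by
  have hN0 : (0 : ℝ) < N := by exact_mod_cast (by omega : 0 < N)
  have hk0 : (0 : ℝ) < k := by exact_mod_cast hk
  have hkN : (2 * k : ℝ) ≤ N := by exact_mod_cast hN
  have hsk : 0 < Real.sqrt k := Real.sqrt_pos.mpr hk0
  have hsk2 : Real.sqrt k ^ 2 = k := Real.sq_sqrt hk0.le
  set α : ℝ := (k : ℝ) / N with hα
  have hα0 : 0 < α := by positivity
  have hα2 : α ≤ 1 / 2 := by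
    rw [hα, div_le_iff₀ hN0]; linarith
  have hkα : (k : ℝ) = N * α := by rw [hα]; field_simp
  have hAs : 2 * A ≤ Real.sqrt k := by
    apply Real.le_sqrt_of_sq_le
    linarith [hAk, (by ring : (2 * A) ^ 2 = 4 * A ^ 2)]
  set d : ℝ := f - α with hd
  have hdabs := abs_le.mp hf
  -- `|d| ≤ α / 2`
  have hdα : |d| ≤ α / 2 := by
    refine hf.trans ?_
    rw [hα, div_div, div_le_div_iff₀ hN0 (by positivity)]
    have : A * Real.sqrt k * 2 ≤ k := by
      calc A * Real.sqrt k * 2 = (2 * A) * Real.sqrt k := by ring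
        _ ≤ Real.sqrt k * Real.sqrt k := by gcongr
        _ = k := by rw [← sq, hsk2]
    nlinarith
  have hdα' := abs_le.mp hdα
  have hd2 : d ^ 2 * N ≤ A ^ 2 * α := by
    have h1 : d ^ 2 ≤ (A * Real.sqrt k / N) ^ 2 := by
      rw [← sq_abs d]
      exact pow_le_pow_left₀ (abs_nonneg _) hf 2
    have h2 : (A * Real.sqrt k / N) ^ 2 * N = A ^ 2 * α := by
      rw [div_pow, mul_pow, hsk2, hα]
      field_simp
    rw [← h2]
    gcongr
  have hx := log_ge (x := d / α) (by
    rw [le_div_iff₀ hα0]; linarith)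
  have hy := log_ge (x := -d / (1 - α)) (by
    rw [le_div_iff₀ (by linarith)]; linarith)
  have e1 : 1 + d / α = f / α := by rw [hd]; field_simp; ring
  have e2 : 1 + -d / (1 - α) = (1 - f) / (1 - α) := by
    have : 1 - α ≠ 0 := by linarith
    rw [hd]; field_simp; ring
  rw [e1] at hx
  rw [e2] at hy
  have hf0 : 0 < f := by linarith
  have hf1 : 0 < 1 - f := by linarith
  have ha1 : 0 < 1 - α := by linarith
  have hb1 : Real.exp (d / α - 2 * (d / α) ^ 2) ≤ f / α := by
    rw [← Real.le_log_iff_exp_le (by positivity)]; exact hx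
  have hb2 : Real.exp (-d / (1 - α) - 2 * (-d / (1 - α)) ^ 2) ≤ (1 - f) / (1 - α) := by
    rw [← Real.le_log_iff_exp_le (by positivity)]; exact hy
  have key : α ^ k * (1 - α) ^ (N - k) * Real.exp (-(4 * A ^ 2)) ≤ f ^ k * (1 - f) ^ (N - k) := by
    have g1 : f ^ k = α ^ k * (f / α) ^ k := by
      rw [← mul_pow, mul_div_cancel₀ f hα0.ne']
    have g2 : (1 - f) ^ (N - k) = (1 - α) ^ (N - k) * ((1 - f) / (1 - α)) ^ (N - k) := by
      rw [← mul_pow, mul_div_cancel₀ (1 - f) ha1.ne']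
    rw [g1, g2]
    have g3 : Real.exp (-(4 * A ^ 2)) ≤ (f / α) ^ k * ((1 - f) / (1 - α)) ^ (N - k) := by
      refine le_trans ?_ (mul_le_mul (pow_le_pow_left₀ (Real.exp_pos _).le hb1 k)
        (pow_le_pow_left₀ (Real.exp_pos _).le hb2 (N - k)) (by positivity) (by positivity))
      rw [← Real.exp_nat_mul, ← Real.exp_nat_mul, ← Real.exp_add]
      apply Real.exp_le_exp.mpr
      rw [Nat.cast_sub (by omega)]
      have g4 : (k : ℝ) * (d / α - 2 * (d / α) ^ 2) = N * d - 2 * (N * d ^ 2) / α := by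
        rw [hkα]; field_simp
      have g5 : ((N : ℝ) - k) * (-d / (1 - α) - 2 * (-d / (1 - α)) ^ 2) =
          -(N * d) - 2 * (N * d ^ 2) / (1 - α) := by
        have : 1 - α ≠ 0 := ha1.ne'
        rw [hkα]; field_simp
      rw [g4, g5]
      have g6 : N * d ^ 2 ≤ A ^ 2 * α := by linarith
      have g7 : 2 * (N * d ^ 2) / α ≤ 2 * A ^ 2 := by
        rw [div_le_iff₀ hα0]; linarith
      have g8 : 2 * (N * d ^ 2) / (1 - α) ≤ 2 * A ^ 2 := by
        rw [div_le_iff₀ ha1]
        nlinarith [sq_nonneg A]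
      linarith
    calc α ^ k * (1 - α) ^ (N - k) * Real.exp (-(4 * A ^ 2)) ≤
          α ^ k * (1 - α) ^ (N - k) * ((f / α) ^ k * ((1 - f) / (1 - α)) ^ (N - k)) := by
          gcongr
      _ = _ := by ring
  have hc := central_ge hk hN
  rw [← hα] at hc
  calc Real.exp (-(4 * A ^ 2)) / (4 * Real.sqrt k) =
        1 / (4 * Real.sqrt k) * Real.exp (-(4 * A ^ 2)) := by ring
    _ ≤ (N.choose k : ℝ) * (α ^ k * (1 - α) ^ (N - k)) * Real.exp (-(4 * A ^ 2)) := by gcongr
    _ = (N.choose k : ℝ) * (α ^ k * (1 - α) ^ (N - k) * Real.exp (-(4 * A ^ 2))) := by ring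
    _ ≤ _ := mul_le_mul_of_nonneg_left key (Nat.cast_nonneg _)

end Pool.Agent.K9h77.RL
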