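import Pool.Agent.K9h77.RL.Exp
import Pool.Agent.W863.AllK

/-! Random lines near the lines of an arrangement. -/

set_option autoImplicit false

namespace Pool.Agent.K9h77.RL

open Finset MeasureTheory Filter Pool.Agent.H189R2.Lev Pool.Agent.H189R2.Iid
open Pool.Agent.Results.MP_a08d0a_co.IidLevel
open scoped ENNReal Topology

/-- lines are null sets for the area -/
theorem LN_volume : LN (volume : Measure (ℝ × ℝ)) := by
  intro a b c hab
  have hm : MeasurableSet {y : ℝ × ℝ | a * y.1 + b * y.2 = c} :=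
    measurableSet_eq_fun ((measurable_fst.const_mul a).add (measurable_snd.const_mul b))
      measurable_const
  rw [Measure.volume_eq_prod, Measure.measure_prod_null hm]
  by_cases hb : b = 0
  · have ha : a ≠ 0 := by
      rcases hab with h | h
      · exact h
      · exact absurd hb h
    have h1 : ∀ᵐ x : ℝ, x ≠ c / a := by
      rw [ae_iff]
      simp
    filter_upwards [h1] with x hx
    have : Prod.mk x ⁻¹' {y : ℝ × ℝ | a * y.1 + b * y.2 = c} = ∅ := by
      ext z
      constructor
      · intro hz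
        have hz' : a * x + b * z = c := hz
        rw [hb] at hz'
        exfalso
        apply hx
        rw [eq_div_iff ha]
        linarith
      · intro h; exact absurd h (Set.notMem_empty _)
    rw [this]
    simp
  · refine Eventually.of_forall (fun x => ?_)
    have : Prod.mk x ⁻¹' {y : ℝ × ℝ | a * y.1 + b * y.2 = c} ⊆ {(c - a * x) / b} := by
      intro z hz
      have hz' : a * x + b * z = c := hz
      rw [Set.mem_singleton_iff, eq_div_iff hb]
      linarith
    exact measure_mono_null this (by simp)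

theorem vol_ball (p : ℝ × ℝ) {r : ℝ} (hr : 0 < r) :
    volume (Metric.closedBall p r) = ENNReal.ofReal (2 * r) * ENNReal.ofReal (2 * r) := by
  rw [← closedBall_prod_same (x := p.1) (y := p.2), Measure.volume_eq_prod, Measure.prod_prod,
    Real.volume_closedBall, Real.volume_closedBall]

variable {A R : Type} [Fintype A] [Fintype R] {k P : ℕ}

open KLev

/-- the point of the plane which represents the line `c` -/
def pt (S : Ev A R k P) (c : A) : ℝ × ℝ := (S.s c, S.t c)

/-- lines near the lines of the arrangement -/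
def Near (S : Ev A R k P) (ρ : ℝ) (F : A → ℝ × ℝ) : Prop :=
  ∀ r, (F (S.b r)).1 < (F (S.a r)).1 ∧
    |X2 (F (S.a r)) (F (S.b r)) - S.X r| < ρ ∧
    |Y2 (F (S.a r)) (F (S.b r)) - (S.s (S.a r) * S.X r + S.t (S.a r))| < ρ ∧
    ∀ c, c ≠ S.a r → c ≠ S.b r →
      (F c ∈ low (F (S.a r)) (F (S.b r)) ↔
        S.s c * S.X r + S.t c < S.s (S.a r) * S.X r + S.t (S.a r))

theorem ev_near (S : Ev A R k P) {ρ : ℝ} (hρ : 0 < ρ) :
    ∀ᶠ F in 𝓝 (pt S), Near S ρ F := by
  unfold Near
  rw [eventually_all]
  intro r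
  have c1 : ∀ c, ContinuousAt (fun F : A → ℝ × ℝ => (F c).1) (pt S) := by
    intro c
    exact (continuous_fst.comp (continuous_apply c)).continuousAt
  have c2 : ∀ c, ContinuousAt (fun F : A → ℝ × ℝ => (F c).2) (pt S) := by
    intro c
    exact (continuous_snd.comp (continuous_apply c)).continuousAt
  have hs := S.hs r
  have hd : S.s (S.a r) - S.s (S.b r) ≠ 0 := by linarith
  have cX : ContinuousAt (fun F : A → ℝ × ℝ => X2 (F (S.a r)) (F (S.b r))) (pt S) := by
    unfold X2
    exact ((c2 _).sub (c2 _)).div ((c1 _).sub (c1 _)) hd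
  have cY : ContinuousAt (fun F : A → ℝ × ℝ => Y2 (F (S.a r)) (F (S.b r))) (pt S) := by
    unfold Y2
    exact ((c1 _).mul cX).add (c2 _)
  have eX : X2 (pt S (S.a r)) (pt S (S.b r)) = S.X r := by
    unfold X2 pt
    rw [div_eq_iff hd]
    have := S.tie r
    simp only
    linarith
  have eY : Y2 (pt S (S.a r)) (pt S (S.b r)) = S.s (S.a r) * S.X r + S.t (S.a r) := by
    unfold Y2
    rw [eX]
    rfl
  have h1 : ∀ᶠ F in 𝓝 (pt S), (F (S.b r)).1 < (F (S.a r)).1 := (c1 _).eventually_lt (c1 _) hs
  have h2 : ∀ᶠ F in 𝓝 (pt S), |X2 (F (S.a r)) (F (S.b r)) - S.X r| < ρ := by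
    have : ContinuousAt (fun F : A → ℝ × ℝ => |X2 (F (S.a r)) (F (S.b r)) - S.X r|) (pt S) :=
      (cX.sub continuousAt_const).abs
    apply this.eventually_lt continuousAt_const
    rw [eX]; simpa using hρ
  have h3 : ∀ᶠ F in 𝓝 (pt S),
      |Y2 (F (S.a r)) (F (S.b r)) - (S.s (S.a r) * S.X r + S.t (S.a r))| < ρ := by
    have : ContinuousAt (fun F : A → ℝ × ℝ =>
        |Y2 (F (S.a r)) (F (S.b r)) - (S.s (S.a r) * S.X r + S.t (S.a r))|) (pt S) :=
      (cY.sub continuousAt_const).abs
    apply this.eventually_lt continuousAt_const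
    rw [eY]; simpa using hρ
  have h4 : ∀ᶠ F in 𝓝 (pt S), ∀ c, c ≠ S.a r → c ≠ S.b r →
      (F c ∈ low (F (S.a r)) (F (S.b r)) ↔
        S.s c * S.X r + S.t c < S.s (S.a r) * S.X r + S.t (S.a r)) := by
    rw [eventually_all]
    intro c
    by_cases hca : c = S.a r
    · exact Eventually.of_forall (fun _ h => absurd hca h)
    by_cases hcb : c = S.b r
    · exact Eventually.of_forall (fun _ _ h => absurd hcb h)
    have cL : ContinuousAt (fun F : A → ℝ × ℝ =>
        (F c).1 * X2 (F (S.a r)) (F (S.b r)) + (F c).2) (pt S) := ((c1 c).mul cX).add (c2 c)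
    have eL : (pt S c).1 * X2 (pt S (S.a r)) (pt S (S.b r)) + (pt S c).2 =
        S.s c * S.X r + S.t c := by rw [eX]; rfl
    rcases lt_or_gt_of_ne (S.hne r c hca hcb) with h | h
    · filter_upwards [cL.eventually_lt cY (by rw [eL, eY]; exact h)] with F hF _ _
      exact iff_of_true hF h
    · filter_upwards [cY.eventually_lt cL (by rw [eL, eY]; exact h)] with F hF _ _
      refine iff_of_false (fun h' => ?_) (not_lt.mpr h.le)
      have h'' : (F c).1 * X2 (F (S.a r)) (F (S.b r)) + (F c).2 <
        Y2 (F (S.a r)) (F (S.b r)) := h'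
      exact lt_asymm h'' hF
  filter_upwards [h1, h2, h3, h4] with F g1 g2 g3 g4
  exact ⟨g1, g2, g3, g4⟩

theorem hab (S : Ev A R k P) (r : R) : S.a r ≠ S.b r := by
  intro h
  have := S.hs r
  rw [h] at this
  exact lt_irrefl _ this

/-- different events have different pairs of lines -/
theorem ev_inj (S : Ev A R k P) {r r' : R} (h1 : S.a r = S.a r') (h2 : S.b r = S.b r') :
    r = r' := by
  apply S.hX
  have e1 := S.tie r
  have e2 := S.tie r'
  rw [← h1, ← h2] at e2
  have hs := S.hs r
  have h3 : (S.s (S.a r) - S.s (S.b r)) * (S.X r - S.X r') = 0 := by linarith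
  rcases mul_eq_zero.mp h3 with h | h
  · linarith
  · linarith

/-- **Random lines near the lines of an arrangement.** -/
theorem bundle (S : Ev A R k P) (hinj : Function.Injective S.s) (hA : 0 < Fintype.card A)
    {ρ : ℝ} (hρ : 0 < ρ) : ∃ (ν : Measure (ℝ × ℝ)) (U : A → Set (ℝ × ℝ)),
      IsProbabilityMeasure ν ∧ LN ν ∧ (∀ c, MeasurableSet (U c)) ∧
      (∀ c, ν (U c) = (Fintype.card A : ℝ≥0∞)⁻¹) ∧ (∀ c d, c ≠ d → Disjoint (U c) (U d)) ∧
      (∀ c, ∀ u ∈ U c, |u.1 - S.s c| ≤ ρ ∧ |u.2 - S.t c| ≤ ρ) ∧ ν (⋃ c, U c)ᶜ = 0 ∧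
      ∀ r, ∀ u ∈ U (S.a r), ∀ v ∈ U (S.b r), v.1 < u.1 ∧ |X2 u v - S.X r| ≤ ρ ∧
        |Y2 u v - (S.s (S.a r) * S.X r + S.t (S.a r))| ≤ ρ ∧
        (k : ℝ≥0∞) * (Fintype.card A : ℝ≥0∞)⁻¹ ≤ ν (low u v) ∧
        ν (low u v) ≤ ((k + 2 : ℕ) : ℝ≥0∞) * (Fintype.card A : ℝ≥0∞)⁻¹ := by
  classical
  haveI : Nonempty A := Fintype.card_pos_iff.mp hA
  have h1 := ev_near S hρ
  -- the points are distinct
  have hpt : Function.Injective (pt S) := fun c d h => hinj (congrArg Prod.fst h)
  have h2 : ∃ δ : ℝ, 0 < δ ∧ ∀ c d, c ≠ d → 2 * δ < dist (pt S c) (pt S d) := by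
    have : ∀ᶠ δ : ℝ in 𝓝[>] 0, ∀ c d, c ≠ d → 2 * δ < dist (pt S c) (pt S d) := by
      rw [eventually_all]; intro c
      rw [eventually_all]; intro d
      by_cases hcd : c = d
      · exact Eventually.of_forall (fun _ h => absurd hcd h)
      have hpos : 0 < dist (pt S c) (pt S d) := dist_pos.mpr (fun h => hcd (hpt h))
      have ht : Tendsto (fun δ : ℝ => 2 * δ) (𝓝[>] 0) (𝓝 0) := by
        have : Tendsto (fun δ : ℝ => 2 * δ) (𝓝 0) (𝓝 (2 * 0)) := by
          apply Continuous.tendsto; fun_prop
        rw [mul_zero] at this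
        exact this.mono_left nhdsWithin_le_nhds
      filter_upwards [ht.eventually (gt_mem_nhds hpos)] with δ hδ _
      exact hδ
    obtain ⟨δ, h3, h4⟩ := (this.and self_mem_nhdsWithin).exists
    exact ⟨δ, h4, h3⟩
  obtain ⟨δ, hδ0, hδ⟩ := h2
  obtain ⟨ε, hε0, hε⟩ := Metric.eventually_nhds_iff.mp h1
  set η : ℝ := min δ (min (ε / 2) ρ) with hη
  have hη0 : 0 < η := lt_min hδ0 (lt_min (by linarith) hρ)
  have hηδ : η ≤ δ := min_le_left _ _
  have hηε : η < ε := lt_of_le_of_lt ((min_le_right _ _).trans (min_le_left _ _)) (by linarith)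
  have hηρ : η ≤ ρ := (min_le_right _ _).trans (min_le_right _ _)
  set U : A → Set (ℝ × ℝ) := fun c => Metric.closedBall (pt S c) η with hU
  have hUm : ∀ c, MeasurableSet (U c) := fun c => Metric.isClosed_closedBall.measurableSet
  have hUd : ∀ c d, c ≠ d → Disjoint (U c) (U d) := by
    intro c d hcd
    rw [Set.disjoint_left]
    intro u h3 h4
    have h5 := hδ c d hcd
    have h6 : dist u (pt S c) ≤ η := h3
    have h7 : dist u (pt S d) ≤ η := h4
    have h8 := dist_triangle_left (pt S c) (pt S d) u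
    linarith
  set V : ℝ≥0∞ := ENNReal.ofReal (2 * η) * ENNReal.ofReal (2 * η) with hV
  have hV0 : V ≠ 0 := by
    rw [hV]
    apply mul_ne_zero <;> simpa using hη0
  have hVt : V ≠ ⊤ := ENNReal.mul_ne_top ENNReal.ofReal_ne_top ENNReal.ofReal_ne_top
  have hUV : ∀ c, volume (U c) = V := fun c => vol_ball _ hη0
  have hdisj : Pairwise (Function.onFun Disjoint U) := fun c d h => hUd c d h
  set W : Set (ℝ × ℝ) := ⋃ c, U c with hW
  have hWm : MeasurableSet W := MeasurableSet.iUnion hUm
  have hWV : volume W = Fintype.card A * V := by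
    rw [hW, measure_iUnion hdisj hUm, tsum_fintype]
    rw [sum_congr rfl (fun c _ => hUV c), sum_const, card_univ, nsmul_eq_mul]
  have hN0 : (Fintype.card A : ℝ≥0∞) ≠ 0 := by exact_mod_cast hA.ne'
  have hNt : (Fintype.card A : ℝ≥0∞) ≠ ⊤ := ENNReal.natCast_ne_top _
  have hW0 : volume W ≠ 0 := by rw [hWV]; exact mul_ne_zero hN0 hV0
  have hWt : volume W ≠ ⊤ := by rw [hWV]; exact ENNReal.mul_ne_top hNt hVt
  set ν : Measure (ℝ × ℝ) := (volume W)⁻¹ • volume.restrict W with hν
  have hνa : ∀ s, MeasurableSet s → ν s = (volume W)⁻¹ * volume (s ∩ W) := by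
    intro s hs
    rw [hν, Measure.smul_apply, Measure.restrict_apply hs, smul_eq_mul]
  have hνU : ∀ c, ν (U c) = (Fintype.card A : ℝ≥0∞)⁻¹ := by
    intro c
    have h3 : U c ∩ W = U c := Set.inter_eq_left.mpr (Set.subset_iUnion U c)
    rw [hνa _ (hUm c), h3, hUV, hWV, ENNReal.mul_inv (Or.inl hN0) (Or.inl hNt), mul_assoc,
      ENNReal.inv_mul_cancel hV0 hVt, mul_one]
  have hprob : IsProbabilityMeasure ν := by
    constructor
    rw [hνa _ MeasurableSet.univ, Set.univ_inter, ENNReal.inv_mul_cancel hW0 hWt]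
  have hLN : LN ν := by
    intro a b c hab'
    have h3 := LN_volume a b c hab'
    have hm : MeasurableSet {y : ℝ × ℝ | a * y.1 + b * y.2 = c} :=
      measurableSet_eq_fun ((measurable_fst.const_mul a).add (measurable_snd.const_mul b))
        measurable_const
    rw [hνa _ hm, measure_mono_null Set.inter_subset_left h3, mul_zero]
  have hWc : ν Wᶜ = 0 := by
    rw [hνa _ hWm.compl, Set.compl_inter_self, measure_empty, mul_zero]
  have hlowm : ∀ u v, MeasurableSet (low u v) := fun u v =>
    meas_low measurable_const measurable_const measurable_id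
  refine ⟨ν, U, hprob, hLN, hUm, hνU, hUd, ?_, hWc, ?_⟩
  · intro c u hu
    have h3 : dist u (pt S c) ≤ η := hu
    rw [Prod.dist_eq, max_le_iff, Real.dist_eq, Real.dist_eq] at h3
    exact ⟨h3.1.trans hηρ, h3.2.trans hηρ⟩
  · intro r u hu v hv
    have hab' := hab S r
    -- families
    have hfam : ∀ (c : A) (w : ℝ × ℝ), c ≠ S.a r → c ≠ S.b r → w ∈ U c →
        ∃ F : A → ℝ × ℝ, Near S ρ F ∧ F (S.a r) = u ∧ F (S.b r) = v ∧ F c = w := by
      intro c w hca hcb hw
      refine ⟨Function.update (Function.update (Function.update (pt S) (S.a r) u) (S.b r) v) c w,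
        ?_, ?_, ?_, ?_⟩
      · apply hε
        refine lt_of_le_of_lt ?_ hηε
        rw [dist_pi_le_iff hη0.le]
        intro d
        by_cases h3 : d = c
        · subst h3; rw [Function.update_self]; exact hw
        rw [Function.update_of_ne h3]
        by_cases h4 : d = S.b r
        · rw [h4, Function.update_self]; exact hv
        rw [Function.update_of_ne h4]
        by_cases h5 : d = S.a r
        · rw [h5, Function.update_self]; exact hu
        rw [Function.update_of_ne h5, dist_self]
        exact hη0.le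
      · rw [Function.update_of_ne (Ne.symm hca), Function.update_of_ne hab', Function.update_self]
      · rw [Function.update_of_ne (Ne.symm hcb), Function.update_self]
      · rw [Function.update_self]
    have hfam0 : ∃ F : A → ℝ × ℝ, Near S ρ F ∧ F (S.a r) = u ∧ F (S.b r) = v := by
      refine ⟨Function.update (Function.update (pt S) (S.a r) u) (S.b r) v,
        ?_, ?_, ?_⟩
      · apply hε
        refine lt_of_le_of_lt ?_ hηε
        rw [dist_pi_le_iff hη0.le]
        intro d
        by_cases h4 : d = S.b r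
        · rw [h4, Function.update_self]; exact hv
        rw [Function.update_of_ne h4]
        by_cases h5 : d = S.a r
        · rw [h5, Function.update_self]; exact hu
        rw [Function.update_of_ne h5, dist_self]
        exact hη0.le
      · rw [Function.update_of_ne hab', Function.update_self]
      · rw [Function.update_self]
    obtain ⟨F0, hF0, hF0a, hF0b⟩ := hfam0
    obtain ⟨g1, g2, g3, -⟩ := hF0 r
    rw [hF0a, hF0b] at g1 g2 g3
    refine ⟨g1, g2.le, g3.le, ?_, ?_⟩
    · -- many lines below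
      set B : Finset A := univ.filter (fun c =>
        S.s c * S.X r + S.t c < S.s (S.a r) * S.X r + S.t (S.a r)) with hB
      have hBc : B.card = k := by
        rw [hB, card_filter]; convert S.hcard r
      have hBa : ∀ c ∈ B, c ≠ S.a r ∧ c ≠ S.b r := by
        intro c hc
        rw [hB, mem_filter] at hc
        constructor
        · intro h; rw [h] at hc; exact lt_irrefl _ hc.2
        · intro h; rw [h, ← S.tie r] at hc; exact lt_irrefl _ hc.2
      have hsub : (⋃ c ∈ B, U c) ⊆ low u v := by
        intro w hw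
        obtain ⟨c, hc, hwc⟩ := Set.mem_iUnion₂.mp hw
        obtain ⟨hca, hcb⟩ := hBa c hc
        obtain ⟨F, hF, hFa, hFb, hFc⟩ := hfam c w hca hcb hwc
        have h3 := (hF r).2.2.2 c hca hcb
        rw [hFa, hFb, hFc] at h3
        rw [hB, mem_filter] at hc
        exact h3.mpr hc.2
      calc (k : ℝ≥0∞) * (Fintype.card A : ℝ≥0∞)⁻¹ = ∑ c ∈ B, ν (U c) := by
            rw [sum_congr rfl (fun c _ => hνU c), sum_const, hBc, nsmul_eq_mul]
        _ = ν (⋃ c ∈ B, U c) := by
            rw [measure_biUnion_finset (fun c _ d _ h => hUd c d h) (fun c _ => hUm c)]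
        _ ≤ ν (low u v) := measure_mono hsub
    · set B : Finset A := univ.filter (fun c =>
        S.s c * S.X r + S.t c < S.s (S.a r) * S.X r + S.t (S.a r)) with hB
      have hBc : B.card = k := by
        rw [hB, card_filter]; convert S.hcard r
      have hsub : low u v ⊆ (⋃ c ∈ insert (S.a r) (insert (S.b r) B), U c) ∪ Wᶜ := by
        intro w hw
        by_cases hwW : w ∈ W
        swap
        · exact Or.inr hwW
        left
        obtain ⟨c, hc⟩ := Set.mem_iUnion.mp hwW
        refine Set.mem_iUnion₂.mpr ⟨c, ?_, hc⟩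
        rw [mem_insert, mem_insert]
        by_cases hca : c = S.a r
        · exact Or.inl hca
        by_cases hcb : c = S.b r
        · exact Or.inr (Or.inl hcb)
        right; right
        obtain ⟨F, hF, hFa, hFb, hFc⟩ := hfam c w hca hcb hc
        have h3 := (hF r).2.2.2 c hca hcb
        rw [hFa, hFb, hFc] at h3
        rw [hB, mem_filter]
        exact ⟨mem_univ _, h3.mp hw⟩
      calc ν (low u v) ≤ ν (⋃ c ∈ insert (S.a r) (insert (S.b r) B), U c) + ν Wᶜ :=
            (measure_mono hsub).trans (measure_union_le _ _)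
        _ ≤ ∑ c ∈ insert (S.a r) (insert (S.b r) B), ν (U c) := by
            rw [hWc, add_zero]
            exact measure_biUnion_finset_le _ _
        _ = (insert (S.a r) (insert (S.b r) B)).card * (Fintype.card A : ℝ≥0∞)⁻¹ := by
            rw [sum_congr rfl (fun c _ => hνU c), sum_const, nsmul_eq_mul]
        _ ≤ _ := by
            gcongr
            calc (insert (S.a r) (insert (S.b r) B)).card ≤ (insert (S.b r) B).card + 1 :=
                  card_insert_le _ _
              _ ≤ B.card + 1 + 1 := by gcongr; exact card_insert_le _ _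
              _ = k + 2 := by rw [hBc]

end Pool.Agent.K9h77.RL
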