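import Pool.Agent.K9h77.RL.Norm

/-! Laws of random lines near a normalised arrangement. -/

set_option autoImplicit false

namespace Pool.Agent.K9h77.RL

open Finset MeasureTheory Filter Pool.Agent.H189R2.Lev Pool.Agent.H189R2.Iid
open Pool.Agent.Results.MP_a08d0a_co.IidLevel KLev
open Pool.Agent.W863.AllK (HasEv)
open scoped ENNReal Topology

/-- a law of random lines near a normalised arrangement of `N` lines with `E` events at the
point `(i, 0)` -/
def Comp (i N E κ : ℕ) (ν : Measure (ℝ × ℝ)) : Prop :=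
  IsProbabilityMeasure ν ∧ LN ν ∧ (∀ᵐ w : ℝ × ℝ ∂ν, 1 ≤ |w.1| ∧ |w.2 + w.1 * i| ≤ (1 : ℝ) / 5) ∧
    ν {w | 0 < w.1} = 2⁻¹ ∧ ν {w | w.1 < 0} = 2⁻¹ ∧
    ∃ (A R : Type) (_ : Fintype A) (_ : Fintype R) (P : ℕ) (S : Ev A R κ P)
      (U : A → Set (ℝ × ℝ)), Fintype.card R = E ∧ (∀ c, MeasurableSet (U c)) ∧
      (∀ c, ν (U c) = (N : ℝ≥0∞)⁻¹) ∧ (∀ c d, c ≠ d → Disjoint (U c) (U d)) ∧
      ∀ r, ∀ u ∈ U (S.a r), ∀ v ∈ U (S.b r), v.1 < u.1 ∧ |X2 u v - i| ≤ 1 / 5 ∧
        |Y2 u v| ≤ 1 / 5 ∧ |FF ν u v - κ / N| ≤ 2 / N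

theorem half_of {a b : ℝ≥0∞} (ha : 2⁻¹ ≤ a) (hb : 2⁻¹ ≤ b) (hab : a + b ≤ 1) : a = 2⁻¹ := by
  apply le_antisymm _ ha
  have hb' : b ≠ ⊤ := by
    intro h
    rw [h] at hab
    simp at hab
  calc a ≤ 1 - b := ENNReal.le_sub_of_add_le_right hb' hab
    _ ≤ 1 - 2⁻¹ := tsub_le_tsub_left hb 1
    _ = 2⁻¹ := ENNReal.one_sub_inv_two

theorem half_count {ν : Measure (ℝ × ℝ)} {A : Type} [Fintype A] {U : A → Set (ℝ × ℝ)} {h : ℕ}
    (hh : 1 ≤ h) (hU : ∀ c, MeasurableSet (U c)) (hd : ∀ c d, c ≠ d → Disjoint (U c) (U d))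
    (hν : ∀ c, ν (U c) = ((2 * h : ℕ) : ℝ≥0∞)⁻¹) (B : Finset A) (hB : B.card = h)
    {W : Set (ℝ × ℝ)} (hW : ∀ c ∈ B, U c ⊆ W) : 2⁻¹ ≤ ν W := by
  classical
  calc (2 : ℝ≥0∞)⁻¹ = h * ((2 * h : ℕ) : ℝ≥0∞)⁻¹ := by
        have h0 : (h : ℝ≥0∞) ≠ 0 := by exact_mod_cast (by omega : h ≠ 0)
        have ht : (h : ℝ≥0∞) ≠ ⊤ := ENNReal.natCast_ne_top _
        push_cast
        rw [ENNReal.mul_inv (Or.inl (by norm_num)) (Or.inl (by norm_num)), mul_comm, mul_assoc,
          ENNReal.inv_mul_cancel h0 ht, mul_one]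
    _ = ∑ c ∈ B, ν (U c) := by
        rw [sum_congr rfl (fun c _ => hν c), sum_const, hB, nsmul_eq_mul]
    _ = ν (⋃ c ∈ B, U c) := by
        rw [measure_biUnion_finset (fun c _ d _ h => hd c d h) (fun c _ => hU c)]
    _ ≤ ν W := measure_mono (Set.iUnion₂_subset hW)

theorem comp_exists {h N E κ : ℕ} (i : ℕ) (hev : HasEv N E κ) (hN : N = 2 * h) (hh : 1 ≤ h) :
    ∃ ν, Comp i N E κ ν := by
  classical
  obtain ⟨A, R, _, _, P, S, hinj, hcA, hcR⟩ := hev
  obtain ⟨S', h1, h2, h3, h4, h5, h6⟩ := normalise S hinj (h := h) (by omega) i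
  obtain ⟨ρ, hρ⟩ : ∃ ρ : ℝ, ρ = 1 / (20 * (i + 1)) := ⟨_, rfl⟩
  have hi0 : (0 : ℝ) ≤ i := Nat.cast_nonneg i
  have hρ0 : 0 < ρ := by rw [hρ]; positivity
  have hρ1 : ρ * (i + 1) = 1 / 20 := by rw [hρ]; field_simp
  have hρ2 : ρ ≤ 1 / 20 := by
    have : 0 ≤ ρ * i := by positivity
    linarith
  obtain ⟨ν, U, g1, g2, g3, g4, g5, g6, g7, g8⟩ := bundle S' h1 (by omega) hρ0
  have g4' : ∀ c, ν (U c) = ((2 * h : ℕ) : ℝ≥0∞)⁻¹ := by
    intro c; rw [g4, hcA, hN]
  have hpos : ∀ c, 0 < S'.s c → U c ⊆ {w | 0 < w.1} := by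
    intro c hc w hw
    have e1 := abs_le.mp (g6 c w hw).1
    have e2 := h2 c
    rw [abs_of_pos hc] at e2
    show 0 < w.1
    linarith [e1.1]
  have hneg : ∀ c, S'.s c < 0 → U c ⊆ {w | w.1 < 0} := by
    intro c hc w hw
    have e1 := abs_le.mp (g6 c w hw).1
    have e2 := h2 c
    rw [abs_of_neg hc] at e2
    show w.1 < 0
    linarith [e1.2]
  have hne : ∀ c, S'.s c ≠ 0 := by
    intro c h0
    have := h2 c
    rw [h0, abs_zero] at this
    linarith
  have hcneg : (univ.filter (fun c => S'.s c < 0)).card = h := by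
    have e1 := Finset.card_filter_add_card_filter_not (s := (univ : Finset A))
      (fun c => 0 < S'.s c)
    have e2 : univ.filter (fun c => ¬ 0 < S'.s c) = univ.filter (fun c => S'.s c < 0) := by
      ext c
      simp only [mem_filter, mem_univ, true_and, not_lt]
      exact ⟨fun h => lt_of_le_of_ne h (hne c), le_of_lt⟩
    rw [e2, h6, card_univ, hcA, hN] at e1
    omega
  have hb1 : 2⁻¹ ≤ ν {w | 0 < w.1} := by
    apply half_count hh g3 g5 g4' _ h6
    intro c hc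
    exact hpos c (mem_filter.mp hc).2
  have hb2 : 2⁻¹ ≤ ν {w | w.1 < 0} := by
    apply half_count hh g3 g5 g4' _ hcneg
    intro c hc
    exact hneg c (mem_filter.mp hc).2
  have hb3 : ν {w | 0 < w.1} + ν {w | w.1 < 0} ≤ 1 := by
    rw [← measure_union]
    · exact prob_le_one
    · rw [Set.disjoint_left]
      intro w hw1 hw2
      have e1 : 0 < w.1 := hw1
      have e2 : w.1 < 0 := hw2
      exact lt_asymm e1 e2
    · exact measurableSet_lt measurable_fst measurable_const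
  refine ⟨ν, g1, g2, ?_, half_of hb1 hb2 hb3, half_of hb2 hb1 (by rw [add_comm]; exact hb3),
    A, R, inferInstance, inferInstance, P, S', U, hcR, g3, fun c => by rw [g4, hcA], g5, ?_⟩
  · have hae : ∀ᵐ w ∂ν, w ∈ ⋃ c, U c := by
      rw [ae_iff]
      exact g7
    filter_upwards [hae] with w hw
    obtain ⟨c, hc⟩ := Set.mem_iUnion.mp hw
    obtain ⟨e1, e2⟩ := g6 c w hc
    have e3 := h2 c
    have e4 := h3 c
    constructor
    · have := abs_sub_abs_le_abs_sub (S'.s c) w.1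
      rw [abs_sub_comm] at this
      linarith
    · have e5 : w.2 + w.1 * i = (w.2 - S'.t c) + (w.1 - S'.s c) * i + (S'.t c + S'.s c * i) := by
        ring
      rw [e5]
      have e6 : |(w.1 - S'.s c) * i| ≤ ρ * i := by
        rw [abs_mul, abs_of_nonneg hi0]
        exact mul_le_mul_of_nonneg_right e1 hi0
      have e7 := abs_add_le ((w.2 - S'.t c) + (w.1 - S'.s c) * i) (S'.t c + S'.s c * i)
      have e8 := abs_add_le (w.2 - S'.t c) ((w.1 - S'.s c) * i)
      linarith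
  · intro r u hu v hv
    obtain ⟨q1, q2, q3, q4, q5⟩ := g8 r u hu v hv
    refine ⟨q1, ?_, ?_, ?_⟩
    · have e1 := h4 r
      have e2 := abs_sub_le (X2 u v) (S'.X r) i
      linarith
    · have e1 := h5 r
      have e2 := abs_sub_abs_le_abs_sub (Y2 u v) (S'.s (S'.a r) * S'.X r + S'.t (S'.a r))
      linarith
    · have hN0 : (0 : ℝ) < N := by exact_mod_cast (by omega : 0 < N)
      have hNinv : (Fintype.card A : ℝ≥0∞)⁻¹ = ENNReal.ofReal (1 / N) := by
        rw [hcA, one_div, ENNReal.ofReal_inv_of_pos hN0, ENNReal.ofReal_natCast]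
      rw [hNinv, ← ENNReal.ofReal_natCast, ← ENNReal.ofReal_mul (Nat.cast_nonneg _)] at q4 q5
      have g3 : (κ : ℝ) * (1 / N) ≤ FF ν u v := by
        have := ENNReal.toReal_mono (measure_ne_top ν _) q4
        rwa [ENNReal.toReal_ofReal (by positivity)] at this
      have g4 : FF ν u v ≤ (κ + 2) * (1 / N) := by
        have := ENNReal.toReal_mono ENNReal.ofReal_ne_top q5
        rw [ENNReal.toReal_ofReal (by positivity)] at this
        push_cast at this
        exact this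
      have e1 : (κ : ℝ) * (1 / N) = κ / N := by ring
      have e2 : ((κ : ℝ) + 2) * (1 / N) = κ / N + 2 / N := by ring
      rw [e1] at g3
      rw [e2] at g4
      have e3 : (0 : ℝ) ≤ 2 / N := by positivity
      rw [abs_le]
      constructor <;> linarith

/-- the mass below a relevant point of another component is one half -/
theorem comp_low {i N E κ : ℕ} {ν : Measure (ℝ × ℝ)} (hν : Comp i N E κ ν) {j : ℕ} (hij : i ≠ j)
    {u v : ℝ × ℝ} (hx : |X2 u v - j| ≤ 1 / 5) (hy : |Y2 u v| ≤ 1 / 5) :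
    ν (low u v) = 2⁻¹ := by
  obtain ⟨-, -, h1, h2, h3, -⟩ := hν
  obtain ⟨x1, x2⟩ := abs_le.mp hx
  obtain ⟨y1, y2⟩ := abs_le.mp hy
  rcases lt_or_gt_of_ne hij with h | h
  · -- i < j : the lines of negative slope are below
    have hR : (i : ℝ) + 1 ≤ j := by exact_mod_cast h
    rw [← h3]
    apply measure_congr
    filter_upwards [h1] with w hw
    obtain ⟨w1, w2⟩ := hw
    obtain ⟨w3, w4⟩ := abs_le.mp w2
    have hd : 4 / 5 ≤ X2 u v - i := by linarith
    apply propext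
    show w.1 * X2 u v + w.2 < Y2 u v ↔ w.1 < 0
    have e : w.1 * X2 u v + w.2 = w.1 * (X2 u v - i) + (w.2 + w.1 * i) := by ring
    rw [e]
    constructor
    · intro h4
      by_contra h5
      push Not at h5
      rw [abs_of_nonneg h5] at w1
      have : 1 * (4 / 5) ≤ w.1 * (X2 u v - i) := mul_le_mul w1 hd (by norm_num) h5
      linarith
    · intro h4
      rw [abs_of_neg h4] at w1
      have : 1 * (4 / 5) ≤ (-w.1) * (X2 u v - i) := mul_le_mul w1 hd (by norm_num) (by linarith)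
      linarith
  · have hR : (j : ℝ) + 1 ≤ i := by exact_mod_cast h
    rw [← h2]
    apply measure_congr
    filter_upwards [h1] with w hw
    obtain ⟨w1, w2⟩ := hw
    obtain ⟨w3, w4⟩ := abs_le.mp w2
    have hd : 4 / 5 ≤ i - X2 u v := by linarith
    apply propext
    show w.1 * X2 u v + w.2 < Y2 u v ↔ 0 < w.1
    have e : w.1 * X2 u v + w.2 = -(w.1 * (i - X2 u v)) + (w.2 + w.1 * i) := by ring
    rw [e]
    constructor
    · intro h4
      by_contra h5
      push Not at h5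
      rw [abs_of_nonpos h5] at w1
      have : 1 * (4 / 5) ≤ (-w.1) * (i - X2 u v) := mul_le_mul w1 hd (by norm_num) (by linarith)
      linarith
    · intro h4
      rw [abs_of_pos h4] at w1
      have : 1 * (4 / 5) ≤ w.1 * (i - X2 u v) := mul_le_mul w1 hd (by norm_num) h4.le
      linarith

end Pool.Agent.K9h77.RL
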