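import Pool.Agent.K9h77.RL.Psi
import Pool.Agent.K9h77.RL.Bin

/-! A lower bound for the expected complexity of a level of independent random lines. -/

set_option autoImplicit false

namespace Pool.Agent.K9h77.RL

open Finset MeasureTheory Filter Pool.Agent.H189R2.Lev Pool.Agent.H189R2.Iid
open Pool.Agent.Results.MP_a08d0a_co.IidLevel
open scoped ENNReal Topology

/-- the expected complexity of the `k`-level of `n` independent random lines with the law `μ` -/
noncomputable def expPsi (μ : Measure (ℝ × ℝ)) (n k : ℕ) : ℝ≥0∞ :=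
  ∫⁻ P, (psi (sl P) (ic P) k : ℝ≥0∞) ∂Measure.pi (fun _ : Fin n => μ)

variable {μ : Measure (ℝ × ℝ)}

theorem pi_rect [IsProbabilityMeasure μ] {n : ℕ} {i j : Fin n} (hij : i ≠ j)
    {A B : Set (ℝ × ℝ)} (hA : MeasurableSet A) (hB : MeasurableSet B) :
    Measure.pi (fun _ : Fin n => μ) {P | P i ∈ A ∧ P j ∈ B} = μ A * μ B := by
  have hm : MeasurableSet {P : Fin 2 → ℝ × ℝ | P 0 ∈ A ∧ P 1 ∈ B} :=
    (measurable_pi_apply 0 hA).inter (measurable_pi_apply 1 hB)
  have h := measure_comp μ (g := ![i, j]) (by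
    intro a b h
    fin_cases a <;> fin_cases b <;> simp at h ⊢
    · exact hij h
    · exact hij h.symm) hm
  have e1 : {P : Fin n → ℝ × ℝ | P ∘ ![i, j] ∈ {P : Fin 2 → ℝ × ℝ | P 0 ∈ A ∧ P 1 ∈ B}} =
      {P | P i ∈ A ∧ P j ∈ B} := rfl
  rw [e1] at h
  rw [h]
  have e2 : {P : Fin 2 → ℝ × ℝ | P 0 ∈ A ∧ P 1 ∈ B} = Set.univ.pi ![A, B] := by
    ext P
    simp only [Set.mem_univ_pi, Fin.forall_fin_two]
    rfl
  rw [e2, Measure.pi_pi]
  simp

theorem meas_FFij [IsProbabilityMeasure μ] {n : ℕ} (i j : Fin n) :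
    Measurable (fun P : Fin n → ℝ × ℝ => FF μ (P i) (P j)) := by
  unfold FF
  have h : MeasurableSet {w : (Fin n → ℝ × ℝ) × (ℝ × ℝ) | w.2 ∈ low (w.1 i) (w.1 j)} :=
    meas_low ((measurable_pi_apply i).comp measurable_fst)
      ((measurable_pi_apply j).comp measurable_fst) measurable_snd
  exact (measurable_measure_prodMk_left h).ennreal_toReal

theorem meas_bin [IsProbabilityMeasure μ] {n : ℕ} (i j : Fin n) (m : ℕ) :
    Measurable (fun P : Fin n → ℝ × ℝ => ENNReal.ofReal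
      (FF μ (P i) (P j) ^ m * (1 - FF μ (P i) (P j)) ^ (n - 2 - m))) := by
  have hmF := meas_FFij (μ := μ) i j
  exact ((hmF.pow_const m).mul ((measurable_const.sub hmF).pow_const (n - 2 - m))).ennreal_ofReal

/-- **Lower bound.** `A r × B r` are disjoint sets of pairs of lines, the crossing points of which
have the right mass below. -/
theorem expPsi_ge [IsProbabilityMeasure μ] (hμ : LN μ) {n k m : ℕ} (hk : m + 1 = k)
    {R : Type} [Fintype R] (A B : R → Set (ℝ × ℝ)) (hA : ∀ r, MeasurableSet (A r))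
    (hB : ∀ r, MeasurableSet (B r))
    (hdisj : ∀ r r', r ≠ r' → ∀ u v, u ∈ A r → v ∈ B r → u ∈ A r' → v ∈ B r' → False)
    (hlt : ∀ r, ∀ u ∈ A r, ∀ v ∈ B r, v.1 < u.1) {c : ℝ}
    (hF : ∀ r, ∀ u ∈ A r, ∀ v ∈ B r,
      c ≤ (n - 2).choose m * (FF μ u v ^ m * (1 - FF μ u v) ^ (n - 2 - m))) :
    ((n * n - n : ℕ) : ℝ≥0∞) * (ENNReal.ofReal c * ∑ r, μ (A r) * μ (B r)) ≤ expPsi μ n k := by
  classical
  set π := Measure.pi (fun _ : Fin n => μ) with hπ
  have h1 : ∫⁻ P, (((T P).filter (fun q => lev P q = m)).card : ℝ≥0∞) ∂π ≤ expPsi μ n k := by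
    unfold expPsi
    apply lintegral_mono_ae
    filter_upwards [ae_GP hμ n] with P hP
    have h2 := count_le_psi hP (k := k) (c := m) (Or.inr hk)
    have h3 : ((((T P).filter (fun q => lev P q = m)).card : ℕ∞) : ℝ≥0∞) ≤
        (psi (sl P) (ic P) k : ℝ≥0∞) := by exact_mod_cast h2
    rw [ENat.toENNReal_coe] at h3
    exact h3
  refine le_trans ?_ h1
  rw [E_lev m]
  have h4 : ((n * n - n : ℕ) : ℝ≥0∞) * (ENNReal.ofReal c * ∑ r, μ (A r) * μ (B r)) =
      ∑ q ∈ (univ : Finset (Fin n)).offDiag, (ENNReal.ofReal c * ∑ r, μ (A r) * μ (B r)) := by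
    rw [sum_const, offDiag_card, nsmul_eq_mul, card_univ, Fintype.card_fin]
  rw [h4]
  apply sum_le_sum
  rintro ⟨i, j⟩ hq
  rw [mem_offDiag] at hq
  have hij : i ≠ j := hq.2.2
  rw [lev_prob hij m]
  set S : R → Set (Fin n → ℝ × ℝ) := fun r => {P | P i ∈ A r ∧ P j ∈ B r} with hS
  have hSm : ∀ r, MeasurableSet (S r) := fun r =>
    (measurable_pi_apply i (hA r)).inter (measurable_pi_apply j (hB r))
  have hSU : MeasurableSet (⋃ r, S r) := MeasurableSet.iUnion hSm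
  have hSd : Pairwise (Function.onFun Disjoint S) := by
    intro r r' hr
    rw [Function.onFun, Set.disjoint_left]
    rintro P ⟨h5, h6⟩ ⟨h7, h8⟩
    exact hdisj r r' hr _ _ h5 h6 h7 h8
  have hSsub : (⋃ r, S r) ⊆ Ev2 Set.univ i j := by
    intro P hP
    obtain ⟨r, hr⟩ := Set.mem_iUnion.mp hP
    exact ⟨hlt r _ hr.1 _ hr.2, trivial⟩
  calc ENNReal.ofReal c * ∑ r, μ (A r) * μ (B r) = ENNReal.ofReal c * π (⋃ r, S r) := by
        congr 1
        rw [measure_iUnion hSd hSm, tsum_fintype]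
        exact sum_congr rfl (fun r _ => (pi_rect hij (hA r) (hB r)).symm)
    _ = ∫⁻ _ in ⋃ r, S r, ENNReal.ofReal c ∂π := by
        rw [lintegral_const, Measure.restrict_apply MeasurableSet.univ, Set.univ_inter]
    _ ≤ ∫⁻ P in ⋃ r, S r, ((n - 2).choose m : ℝ≥0∞) * ENNReal.ofReal
        (FF μ (P i) (P j) ^ m * (1 - FF μ (P i) (P j)) ^ (n - 2 - m)) ∂π := by
        apply setLIntegral_mono_ae' hSU
        refine Eventually.of_forall (fun P hP => ?_)
        obtain ⟨r, hr⟩ := Set.mem_iUnion.mp hP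
        have h5 := hF r _ hr.1 _ hr.2
        rw [← ENNReal.ofReal_natCast, ← ENNReal.ofReal_mul (Nat.cast_nonneg _)]
        exact ENNReal.ofReal_le_ofReal h5
    _ ≤ ∫⁻ P in Ev2 Set.univ i j, ((n - 2).choose m : ℝ≥0∞) * ENNReal.ofReal
        (FF μ (P i) (P j) ^ m * (1 - FF μ (P i) (P j)) ^ (n - 2 - m)) ∂π :=
        lintegral_mono_set hSsub
    _ = _ := by
        rw [lintegral_const_mul _ (meas_bin i j m)]

end Pool.Agent.K9h77.RL
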