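import Pool.Agent.K9h77.RL.Bundle

/-! Expected complexity for random lines near the lines of an arrangement. -/

set_option autoImplicit false

namespace Pool.Agent.K9h77.RL

open Finset MeasureTheory Filter Pool.Agent.H189R2.Lev Pool.Agent.H189R2.Iid
open Pool.Agent.Results.MP_a08d0a_co.IidLevel KLev
open scoped ENNReal Topology

variable {A R : Type} [Fintype A] [Fintype R] {κ P : ℕ} {μ : Measure (ℝ × ℝ)}

theorem expPsi_ge_events [IsProbabilityMeasure μ] (hμ : LN μ) (S : Ev A R κ P) {n m : ℕ}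
    (hm1 : 1 ≤ m) (hmn : 2 * m + 2 ≤ n) {U : A → Set (ℝ × ℝ)} (hU : ∀ c, MeasurableSet (U c))
    (hd : ∀ c d, c ≠ d → Disjoint (U c) (U d)) {w : ℝ} (hw0 : 0 ≤ w)
    (hw : ∀ c, ENNReal.ofReal w ≤ μ (U c))
    (hlt : ∀ r, ∀ u ∈ U (S.a r), ∀ v ∈ U (S.b r), v.1 < u.1) {t : ℝ} (ht : 4 * t ^ 2 ≤ m)
    (hF : ∀ r, ∀ u ∈ U (S.a r), ∀ v ∈ U (S.b r),
      |FF μ u v - m / (n - 2 : ℕ)| ≤ t * Real.sqrt m / (n - 2 : ℕ)) :
    ENNReal.ofReal (((n : ℝ) * n - n) * (Real.exp (-(4 * t ^ 2)) / (4 * Real.sqrt m) *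
      (Fintype.card R * w ^ 2))) ≤ expPsi μ n (m + 1) := by
  have h := expPsi_ge hμ (n := n) (k := m + 1) (m := m) rfl (fun r => U (S.a r))
    (fun r => U (S.b r)) (fun r => hU _) (fun r => hU _) (by
      intro r r' hr u v h1 h2 h3 h4
      apply hr
      apply ev_inj S
      · by_contra hne
        exact Set.disjoint_left.mp (hd _ _ hne) h1 h3
      · by_contra hne
        exact Set.disjoint_left.mp (hd _ _ hne) h2 h4) hlt
    (c := Real.exp (-(4 * t ^ 2)) / (4 * Real.sqrt m)) (fun r u hu v hv =>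
      weight_ge hm1 (by omega) ht (hF r u hu v hv))
  refine le_trans ?_ h
  have e1 : ENNReal.ofReal (Fintype.card R * w ^ 2) ≤
      ∑ r, μ (U (S.a r)) * μ (U (S.b r)) := by
    calc ENNReal.ofReal (Fintype.card R * w ^ 2) =
          ∑ _r : R, ENNReal.ofReal w * ENNReal.ofReal w := by
          rw [sum_const, card_univ, nsmul_eq_mul, ← ENNReal.ofReal_mul hw0,
            ← ENNReal.ofReal_natCast, ← ENNReal.ofReal_mul (Nat.cast_nonneg _), sq]
      _ ≤ _ := sum_le_sum (fun r _ => mul_le_mul' (hw _) (hw _))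
  have hnn : (n : ℝ) ≤ n * n := by exact_mod_cast Nat.le_mul_self n
  have hc : 0 ≤ Real.exp (-(4 * t ^ 2)) / (4 * Real.sqrt m) := by positivity
  rw [ENNReal.ofReal_mul (by linarith), ENNReal.ofReal_mul hc]
  apply mul_le_mul'
  · rw [← ENNReal.ofReal_natCast, Nat.cast_sub (Nat.le_mul_self n)]
    push_cast
    exact le_rfl
  · exact mul_le_mul' le_rfl e1

/-- **The basic lower bound**: an arrangement of `N` lines with distinct slopes and `E` crossings
which have exactly `κ` lines below gives a law of random lines. -/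
theorem law_exists {N E : ℕ} (hev : Pool.Agent.W863.AllK.HasEv N E κ) (hN : 1 ≤ N) {n m : ℕ}
    (hm1 : 1 ≤ m) (hmn : 2 * m + 2 ≤ n) {t : ℝ} (ht : 4 * t ^ 2 ≤ m)
    (hκ : |(κ : ℝ) / N - m / (n - 2 : ℕ)| + 2 / N ≤ t * Real.sqrt m / (n - 2 : ℕ)) :
    ∃ μ : Measure (ℝ × ℝ), IsProbabilityMeasure μ ∧ LN μ ∧
      ENNReal.ofReal (((n : ℝ) * n - n) * (Real.exp (-(4 * t ^ 2)) / (4 * Real.sqrt m) *
        (E * (1 / N) ^ 2))) ≤ expPsi μ n (m + 1) := by
  obtain ⟨A, R, _, _, P, S, hinj, hcA, hcR⟩ := hev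
  obtain ⟨ν, U, h1, h2, h3, h4, h5, -, -, h8⟩ := bundle S hinj (by omega) one_pos
  refine ⟨ν, h1, h2, ?_⟩
  have hN0 : (0 : ℝ) < N := by exact_mod_cast hN
  have hNinv : (Fintype.card A : ℝ≥0∞)⁻¹ = ENNReal.ofReal (1 / N) := by
    rw [hcA, one_div, ENNReal.ofReal_inv_of_pos hN0, ENNReal.ofReal_natCast]
  have h := expPsi_ge_events h2 S hm1 hmn h3 h5 (w := 1 / N) (by positivity)
    (fun c => by rw [h4, hNinv]) (fun r u hu v hv => (h8 r u hu v hv).1) ht (by
      intro r u hu v hv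
      obtain ⟨-, -, -, g1, g2⟩ := h8 r u hu v hv
      rw [hNinv, ← ENNReal.ofReal_natCast, ← ENNReal.ofReal_mul (Nat.cast_nonneg _)] at g1 g2
      have g3 : (κ : ℝ) * (1 / N) ≤ FF ν u v := by
        have := ENNReal.toReal_mono (measure_ne_top ν _) g1
        rwa [ENNReal.toReal_ofReal (by positivity)] at this
      have g4 : FF ν u v ≤ (κ + 2) * (1 / N) := by
        have := ENNReal.toReal_mono ENNReal.ofReal_ne_top g2
        rw [ENNReal.toReal_ofReal (by positivity)] at this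
        push_cast at this
        exact this
      refine le_trans ?_ hκ
      have e1 : (κ : ℝ) * (1 / N) = κ / N := by ring
      have e2 : ((κ : ℝ) + 2) * (1 / N) = κ / N + 2 / N := by ring
      rw [e1] at g3
      rw [e2] at g4
      have e3 : (0 : ℝ) ≤ 2 / N := by positivity
      rw [abs_le]
      have e4 := neg_abs_le ((κ : ℝ) / N - m / (n - 2 : ℕ))
      have e5 := le_abs_self ((κ : ℝ) / N - m / (n - 2 : ℕ))
      constructor <;> linarith)
  rw [hcR] at h
  exact h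

end Pool.Agent.K9h77.RL
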