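import Pool.Agent.K9h77.RL.Comp

/-! A mixture of laws of random lines of all scales. -/

set_option autoImplicit false

namespace Pool.Agent.K9h77.RL

open Finset MeasureTheory Filter Pool.Agent.H189R2.Lev Pool.Agent.H189R2.Iid
open Pool.Agent.Results.MP_a08d0a_co.IidLevel KLev
open Pool.Agent.W863.AllK (HasEv)
open scoped ENNReal Topology

/-- the weights -/
noncomputable def wt (i : ℕ) : ℝ := 1 / ((i + 1) * (i + 2))

theorem wt_pos (i : ℕ) : 0 < wt i := by unfold wt; positivity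

theorem wt_le (i : ℕ) : wt i ≤ 1 := by
  unfold wt
  have : (0 : ℝ) ≤ i := Nat.cast_nonneg i
  rw [div_le_one (by positivity)]
  nlinarith

theorem wt_sum : HasSum wt 1 := by
  rw [hasSum_iff_tendsto_nat_of_nonneg (fun i => (wt_pos i).le)]
  have h : ∀ n : ℕ, ∑ i ∈ range n, wt i = 1 - 1 / ((n : ℝ) + 1) := by
    intro n
    induction n with
    | zero => simp
    | succ n ih =>
      rw [sum_range_succ, ih]
      unfold wt
      push_cast
      field_simp
      ring
  simp only [h]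
  have h2 : Tendsto (fun n : ℕ => 1 / ((n : ℝ) + 1)) atTop (𝓝 0) :=
    tendsto_one_div_add_atTop_nhds_zero_nat
  simpa using (tendsto_const_nhds (x := (1 : ℝ))).sub h2

theorem ofReal_wt_tsum : ∑' i, ENNReal.ofReal (wt i) = 1 := by
  rw [← ENNReal.ofReal_tsum_of_nonneg (fun i => (wt_pos i).le) wt_sum.summable, wt_sum.tsum_eq,
    ENNReal.ofReal_one]

/-- the mixture -/
noncomputable def mix (q : ℝ) (lam : Measure (ℝ × ℝ)) (ν : ℕ → Measure (ℝ × ℝ)) :
    Measure (ℝ × ℝ) :=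
  ENNReal.ofReal q • lam +
    ENNReal.ofReal (1 - q) • Measure.sum (fun i => ENNReal.ofReal (wt i) • ν i)

variable {q : ℝ} {lam : Measure (ℝ × ℝ)} {ν : ℕ → Measure (ℝ × ℝ)}

theorem mix_apply {s : Set (ℝ × ℝ)} (hs : MeasurableSet s) : mix q lam ν s =
    ENNReal.ofReal q * lam s + ENNReal.ofReal (1 - q) * ∑' i, ENNReal.ofReal (wt i) * ν i s := by
  unfold mix
  rw [Measure.add_apply, Measure.smul_apply, Measure.smul_apply, Measure.sum_apply _ hs]
  simp only [Measure.smul_apply, smul_eq_mul]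

theorem mix_prob (hq0 : 0 ≤ q) (hq1 : q ≤ 1) (hl : IsProbabilityMeasure lam)
    (hν : ∀ i, IsProbabilityMeasure (ν i)) : IsProbabilityMeasure (mix q lam ν) := by
  constructor
  rw [mix_apply MeasurableSet.univ, measure_univ]
  have : ∀ i, ν i Set.univ = 1 := fun i => (hν i).measure_univ
  simp only [this, mul_one]
  rw [ofReal_wt_tsum, mul_one, ← ENNReal.ofReal_add hq0 (by linarith)]
  simp

theorem mix_LN (hl : LN lam) (hν : ∀ i, LN (ν i)) : LN (mix q lam ν) := by
  intro a b c hab'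
  have hm : MeasurableSet {y : ℝ × ℝ | a * y.1 + b * y.2 = c} :=
    measurableSet_eq_fun ((measurable_fst.const_mul a).add (measurable_snd.const_mul b))
      measurable_const
  rw [mix_apply hm, hl a b c hab']
  have : ∀ i, ν i {y : ℝ × ℝ | a * y.1 + b * y.2 = c} = 0 := fun i => hν i a b c hab'
  simp only [this, mul_zero]
  simp

theorem mix_ge (hq1 : q ≤ 1) (j : ℕ) {s : Set (ℝ × ℝ)} (hs : MeasurableSet s) {x : ℝ}
    (hx : ENNReal.ofReal x ≤ ν j s) :
    ENNReal.ofReal ((1 - q) * (wt j * x)) ≤ mix q lam ν s := by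
  rw [mix_apply hs, ENNReal.ofReal_mul (by linarith), ENNReal.ofReal_mul (wt_pos j).le]
  calc ENNReal.ofReal (1 - q) * (ENNReal.ofReal (wt j) * ENNReal.ofReal x) ≤
        ENNReal.ofReal (1 - q) * ∑' i, ENNReal.ofReal (wt i) * ν i s := by
        apply mul_le_mul' le_rfl
        exact (mul_le_mul' le_rfl hx).trans
          (ENNReal.le_tsum (f := fun i => ENNReal.ofReal (wt i) * ν i s) j)
    _ ≤ _ := le_add_self

theorem mix_real (hq0 : 0 ≤ q) (hq1 : q ≤ 1) (hl : IsProbabilityMeasure lam)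
    (hν : ∀ i, IsProbabilityMeasure (ν i)) {s : Set (ℝ × ℝ)} (hs : MeasurableSet s) {j : ℕ}
    (hj : ∀ i, i ≠ j → ν i s = 2⁻¹) : (mix q lam ν s).toReal =
      q * (lam s).toReal + (1 - q) * (1 / 2 + wt j * ((ν j s).toReal - 1 / 2)) := by
  have hfin : ∀ i, ENNReal.ofReal (wt i) * ν i s ≠ ⊤ := fun i =>
    ENNReal.mul_ne_top ENNReal.ofReal_ne_top (measure_ne_top _ _)
  have htot : ∑' i, ENNReal.ofReal (wt i) * ν i s ≠ ⊤ := by
    apply ne_top_of_le_ne_top ENNReal.one_ne_top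
    rw [← ofReal_wt_tsum]
    apply ENNReal.tsum_le_tsum
    intro i
    calc ENNReal.ofReal (wt i) * ν i s ≤ ENNReal.ofReal (wt i) * 1 :=
          mul_le_mul' le_rfl prob_le_one
      _ = _ := mul_one _
  rw [mix_apply hs, ENNReal.toReal_add (ENNReal.mul_ne_top ENNReal.ofReal_ne_top
    (measure_ne_top _ _)) (ENNReal.mul_ne_top ENNReal.ofReal_ne_top htot), ENNReal.toReal_mul,
    ENNReal.toReal_mul, ENNReal.toReal_ofReal hq0, ENNReal.toReal_ofReal (by linarith),
    ENNReal.tsum_toReal_eq hfin]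
  congr 2
  have e1 : ∀ i, (ENNReal.ofReal (wt i) * ν i s).toReal =
      wt i * (1 / 2) + (if i = j then wt j * ((ν j s).toReal - 1 / 2) else 0) := by
    intro i
    rw [ENNReal.toReal_mul, ENNReal.toReal_ofReal (wt_pos i).le]
    split_ifs with h
    · rw [h]; ring
    · rw [hj i h, ENNReal.toReal_inv]
      norm_num
  simp only [e1]
  have h1 : HasSum (fun i => wt i * (1 / 2)) (1 * (1 / 2)) := wt_sum.mul_right _
  have h2 : HasSum (fun i => if i = j then wt j * ((ν j s).toReal - 1 / 2) else 0)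
      (wt j * ((ν j s).toReal - 1 / 2)) := hasSum_ite_eq j _
  rw [(h1.add h2).tsum_eq, one_mul]

/-- lines near a given line -/
theorem far_law (p : ℝ × ℝ) : ∃ lam : Measure (ℝ × ℝ), IsProbabilityMeasure lam ∧ LN lam ∧
    ∀ᵐ w ∂lam, |w.1 - p.1| ≤ 1 ∧ |w.2 - p.2| ≤ 1 := by
  let S : Ev (Fin 1) Empty 0 0 :=
    { s := fun _ => p.1, t := fun _ => p.2, X := fun e => e.elim, a := fun e => e.elim,
      b := fun e => e.elim, tie := fun e => e.elim, hs := fun e => e.elim,
      hne := fun e => e.elim, hcard := fun e => e.elim, hX := fun e => e.elim,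
      slot := fun e => e.elim, hslot := fun e => e.elim }
  obtain ⟨ν, U, h1, h2, -, -, -, h6, h7, -⟩ := bundle S (fun i j _ => Subsingleton.elim i j)
    (by simp) one_pos
  refine ⟨ν, h1, h2, ?_⟩
  have hae : ∀ᵐ w ∂ν, w ∈ ⋃ c, U c := by
    rw [ae_iff]
    exact h7
  filter_upwards [hae] with w hw
  obtain ⟨c, hc⟩ := Set.mem_iUnion.mp hw
  exact h6 c w hc

/-- lines above (`σ = 1`) or below (`σ = -1`) all the relevant points -/
theorem far_above : ∃ lam : Measure (ℝ × ℝ), IsProbabilityMeasure lam ∧ LN lam ∧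
    ∀ u v : ℝ × ℝ, -1 / 5 ≤ X2 u v → |Y2 u v| ≤ 1 / 5 → (lam (low u v)).toReal = 0 := by
  obtain ⟨lam, h1, h2, h3⟩ := far_law (2, 2)
  refine ⟨lam, h1, h2, fun u v hx hy => ?_⟩
  have : lam (low u v) = 0 := by
    rw [measure_eq_zero_iff_ae_notMem]
    filter_upwards [h3] with w hw hlow
    have hl : w.1 * X2 u v + w.2 < Y2 u v := hlow
    obtain ⟨e1, e2⟩ := abs_le.mp hw.1
    obtain ⟨e3, e4⟩ := abs_le.mp hw.2
    obtain ⟨e5, e6⟩ := abs_le.mp hy
    have f1 : w.1 * X2 u v + w.2 < Y2 u v := hl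
    nlinarith [e1, e2, e3, e4, e5, e6, hx]
  rw [this]
  rfl

theorem far_below : ∃ lam : Measure (ℝ × ℝ), IsProbabilityMeasure lam ∧ LN lam ∧
    ∀ u v : ℝ × ℝ, -1 / 5 ≤ X2 u v → |Y2 u v| ≤ 1 / 5 → (lam (low u v)).toReal = 1 := by
  obtain ⟨lam, h1, h2, h3⟩ := far_law (-2, -2)
  refine ⟨lam, h1, h2, fun u v hx hy => ?_⟩
  have : lam (low u v) = lam Set.univ := by
    apply measure_congr
    filter_upwards [h3] with w hw
    apply propext
    show w.1 * X2 u v + w.2 < Y2 u v ↔ True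
    rw [iff_true]
    obtain ⟨e1, e2⟩ := abs_le.mp hw.1
    obtain ⟨e3, e4⟩ := abs_le.mp hw.2
    obtain ⟨e5, e6⟩ := abs_le.mp hy
    nlinarith [e1, e2, e3, e4, e5, e6, hx]
  rw [this, measure_univ]
  rfl

/-- binomial weights, both halves -/
theorem weight_ge2 {N k k' : ℕ} (hk' : k' = min k (N - k)) (h1 : 1 ≤ k') {A : ℝ}
    (hAk : 4 * A ^ 2 ≤ k') {f : ℝ} (hf : |f - k / N| ≤ A * Real.sqrt k' / N) :
    Real.exp (-(4 * A ^ 2)) / (4 * Real.sqrt k') ≤
      (N.choose k : ℝ) * (f ^ k * (1 - f) ^ (N - k)) := by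
  by_cases h : 2 * k ≤ N
  · have : k' = k := by omega
    subst this
    exact weight_ge h1 h hAk hf
  · have e : k' = N - k := by omega
    subst e
    have hN0 : (0 : ℝ) < N := by exact_mod_cast (by omega : 0 < N)
    have h2 := weight_ge (N := N) (k := N - k) h1 (by omega) hAk (f := 1 - f) (by
      have e1 : 1 - f - ((N - k : ℕ) : ℝ) / N = -(f - k / N) := by
        rw [Nat.cast_sub (by omega)]
        field_simp
        ring
      rw [e1, abs_neg]
      exact hf)
    rw [Nat.choose_symm (by omega)] at h2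
    have e2 : N - (N - k) = k := by omega
    rw [e2] at h2
    refine h2.trans (le_of_eq ?_)
    ring

variable {N E κ : ℕ → ℕ}

/-- **The bound for the mixture.** -/
theorem mix_bound (hν : ∀ i, Comp i (N i) (E i) (κ i) (ν i)) (hl : IsProbabilityMeasure lam)
    (hlN : LN lam) (hq0 : 0 ≤ q) (hq1 : q ≤ 1) {b : ℝ}
    (hb : ∀ u v : ℝ × ℝ, -1 / 5 ≤ X2 u v → |Y2 u v| ≤ 1 / 5 → (lam (low u v)).toReal = b)
    {α : ℝ} (hα : q * b + (1 - q) / 2 = α) {j n m m' : ℕ} {t : ℝ}
    (hm' : m' = min m (n - 2 - m)) (hm1 : 1 ≤ m') (ht : 4 * t ^ 2 ≤ m') (hN : 1 ≤ N j)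
    (hκ : |(κ j : ℝ) / N j - 1 / 2| ≤ 1 / N j)
    (hF : 3 / (N j : ℝ) + |α - m / (n - 2 : ℕ)| ≤ t * Real.sqrt m' / (n - 2 : ℕ)) :
    ENNReal.ofReal (((n : ℝ) * n - n) * (Real.exp (-(4 * t ^ 2)) / (4 * Real.sqrt m') *
      (E j * ((1 - q) * (wt j * (1 / N j))) ^ 2))) ≤ expPsi (mix q lam ν) n (m + 1) := by
  have hprob : IsProbabilityMeasure (mix q lam ν) := mix_prob hq0 hq1 hl (fun i => (hν i).1)
  have hLN : LN (mix q lam ν) := mix_LN hlN (fun i => (hν i).2.1)
  obtain ⟨-, -, -, -, -, A, R, _, _, P, S, U, hcR, hU, hνU, hd, hev⟩ := hν j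
  have hN0 : (0 : ℝ) < N j := by exact_mod_cast hN
  have hlowm : ∀ u v, MeasurableSet (low u v) := fun u v =>
    meas_low measurable_const measurable_const measurable_id
  have hw0 : 0 ≤ (1 - q) * (wt j * (1 / (N j : ℝ))) := by
    have := (wt_pos j).le
    have h1q : 0 ≤ 1 - q := by linarith
    positivity
  have hw : ∀ c, ENNReal.ofReal ((1 - q) * (wt j * (1 / (N j : ℝ)))) ≤ mix q lam ν (U c) := by
    intro c
    apply mix_ge hq1 j (hU c)
    rw [hνU, one_div, ENNReal.ofReal_inv_of_pos hN0, ENNReal.ofReal_natCast]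
  have h := expPsi_ge hLN (n := n) (k := m + 1) (m := m) rfl (fun r => U (S.a r))
    (fun r => U (S.b r)) (fun r => hU _) (fun r => hU _) (by
      intro r r' hr u v h1 h2 h3 h4
      apply hr
      apply ev_inj S
      · by_contra hne
        exact Set.disjoint_left.mp (hd _ _ hne) h1 h3
      · by_contra hne
        exact Set.disjoint_left.mp (hd _ _ hne) h2 h4)
    (fun r u hu v hv => (hev r u hu v hv).1)
    (c := Real.exp (-(4 * t ^ 2)) / (4 * Real.sqrt m')) (fun r u hu v hv => by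
      obtain ⟨g1, g2, g3, g4⟩ := hev r u hu v hv
      apply weight_ge2 hm' hm1 ht
      refine le_trans ?_ hF
      have e1 : FF (mix q lam ν) u v =
          q * (lam (low u v)).toReal + (1 - q) * (1 / 2 + wt j * ((ν j (low u v)).toReal - 1 / 2)) :=
        mix_real hq0 hq1 hl (fun i => (hν i).1) (hlowm u v)
          (fun i hi => comp_low (hν i) hi g2 g3)
      have hx : -1 / 5 ≤ X2 u v := by
        have hj0 : (0 : ℝ) ≤ j := Nat.cast_nonneg j
        linarith [(abs_le.mp g2).1]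
      rw [hb u v hx g3] at e1
      have e2 : FF (mix q lam ν) u v - m / (n - 2 : ℕ) =
          (1 - q) * wt j * ((ν j (low u v)).toReal - 1 / 2) + (α - m / (n - 2 : ℕ)) := by
        rw [e1, ← hα]; ring
      rw [e2]
      refine (abs_add_le _ _).trans (add_le_add ?_ le_rfl)
      have e3 : |(ν j (low u v)).toReal - 1 / 2| ≤ 3 / N j := by
        have f1 : FF (ν j) u v = (ν j (low u v)).toReal := rfl
        rw [f1] at g4
        have f2 := abs_sub_le ((ν j (low u v)).toReal) ((κ j : ℝ) / N j) (1 / 2)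
        have f3 : (3 : ℝ) / N j = 2 / N j + 1 / N j := by ring
        linarith
      have e4 : |(1 - q) * wt j| ≤ 1 := by
        have f1 : 0 ≤ 1 - q := by linarith
        rw [abs_of_nonneg (mul_nonneg f1 (wt_pos j).le)]
        calc (1 - q) * wt j ≤ 1 * 1 := mul_le_mul (by linarith) (wt_le j) (wt_pos j).le zero_le_one
          _ = 1 := one_mul 1
      rw [abs_mul]
      calc |(1 - q) * wt j| * |(ν j (low u v)).toReal - 1 / 2| ≤ 1 * (3 / N j) :=
            mul_le_mul e4 e3 (abs_nonneg _) zero_le_one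
        _ = _ := one_mul _)
  refine le_trans ?_ h
  have e1 : ENNReal.ofReal (E j * ((1 - q) * (wt j * (1 / (N j : ℝ)))) ^ 2) ≤
      ∑ r, mix q lam ν (U (S.a r)) * mix q lam ν (U (S.b r)) := by
    calc ENNReal.ofReal (E j * ((1 - q) * (wt j * (1 / (N j : ℝ)))) ^ 2) =
          ∑ _r : R, ENNReal.ofReal ((1 - q) * (wt j * (1 / (N j : ℝ)))) *
            ENNReal.ofReal ((1 - q) * (wt j * (1 / (N j : ℝ)))) := by
          rw [sum_const, card_univ, nsmul_eq_mul, ← ENNReal.ofReal_mul hw0, hcR,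
            ← ENNReal.ofReal_natCast, ← ENNReal.ofReal_mul (Nat.cast_nonneg _), sq]
      _ ≤ _ := sum_le_sum (fun r _ => mul_le_mul' (hw _) (hw _))
  have hnn : (n : ℝ) ≤ n * n := by exact_mod_cast Nat.le_mul_self n
  have hc : 0 ≤ Real.exp (-(4 * t ^ 2)) / (4 * Real.sqrt m') := by positivity
  rw [ENNReal.ofReal_mul (by linarith), ENNReal.ofReal_mul hc]
  apply mul_le_mul'
  · rw [← ENNReal.ofReal_natCast, Nat.cast_sub (Nat.le_mul_self n)]
    push_cast
    exact le_rfl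
  · exact mul_le_mul' le_rfl e1

end Pool.Agent.K9h77.RL
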