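import Pool.Agent.K9h77.RL.Pert2
import Pool.Agent.K9h77.RL.Law

/-! Affine normal form of an arrangement: half of the slopes are at least `2`, half are at most
`-2`, and everything of interest happens near the point `(i, 0)`. -/

set_option autoImplicit false

namespace Pool.Agent.K9h77.RL

open Finset MeasureTheory Filter Pool.Agent.H189R2.Lev Pool.Agent.H189R2.Iid
open Pool.Agent.Results.MP_a08d0a_co.IidLevel KLev
open scoped ENNReal Topology

theorem exists_cut (T : Finset ℝ) (j : ℕ) (hj : j ≤ T.card) :
    ∃ c, c ∉ T ∧ (T.filter (fun x => c < x)).card = j := by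
  induction j with
  | zero =>
    obtain ⟨M, hM⟩ := T.bddAbove
    refine ⟨M + 1, fun h => ?_, ?_⟩
    · have := hM h; linarith
    · rw [card_eq_zero, filter_eq_empty_iff]
      intro x hx h
      have := hM hx; linarith
  | succ j ih =>
    obtain ⟨c, hc, hcard⟩ := ih (by omega)
    have hne : (T.filter (fun x => x < c)).Nonempty := by
      rw [Finset.nonempty_iff_ne_empty]
      intro h0
      have h1 : T.filter (fun x => c < x) = T := by
        apply Finset.filter_true_of_mem
        intro x hx
        rcases lt_trichotomy x c with h | h | h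
        · exfalso
          have h2 : x ∈ T.filter (fun x => x < c) := mem_filter.mpr ⟨hx, h⟩
          rw [h0] at h2
          simp at h2
        · exact absurd (h ▸ hx) hc
        · exact h
      rw [h1] at hcard
      omega
    obtain ⟨m, hm⟩ : ∃ m, m = (T.filter (fun x => x < c)).max' hne := ⟨_, rfl⟩
    have hmm : m ∈ T.filter (fun x => x < c) := by rw [hm]; exact max'_mem _ _
    obtain ⟨hmT, hmc⟩ := mem_filter.mp hmm
    have h1 : ∀ᶠ d in 𝓝[<] m, ∀ x ∈ T, x < m → x < d := by
      rw [eventually_all_finset]
      intro x _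
      by_cases h : x < m
      · filter_upwards [Ioo_mem_nhdsLT h] with d hd _ using hd.1
      · exact Eventually.of_forall (fun _ h' => absurd h' h)
    obtain ⟨d, hd1, hd2⟩ := (h1.and self_mem_nhdsWithin).exists
    have hdm : d < m := hd2
    refine ⟨d, fun hdT => lt_irrefl _ (hd1 d hdT hdm), ?_⟩
    have h2 : T.filter (fun x => d < x) = insert m (T.filter (fun x => c < x)) := by
      ext x
      rw [mem_filter, mem_insert, mem_filter]
      constructor
      · rintro ⟨hx, hdx⟩
        rcases lt_trichotomy x c with h | h | h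
        · left
          have h3 : x ≤ m := by rw [hm]; exact le_max' _ _ (mem_filter.mpr ⟨hx, h⟩)
          rcases h3.lt_or_eq with h4 | h4
          · exact absurd (hd1 x hx h4) (lt_asymm hdx)
          · exact h4
        · exact absurd (h ▸ hx) hc
        · exact Or.inr ⟨hx, h⟩
      · rintro (h | ⟨hx, h⟩)
        · rw [h]; exact ⟨hmT, hdm⟩
        · exact ⟨hx, hdm.trans (hmc.trans h)⟩
    rw [h2, card_insert_of_notMem, hcard]
    intro h
    exact lt_asymm hmc (mem_filter.mp h).2

variable {A R : Type} [Fintype A] [Fintype R] {k P : ℕ}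

/-- normal form at the point `(i, 0)` -/
def Nrm (S : Ev A R k P) (h i : ℕ) : Prop :=
  Function.Injective S.s ∧ (∀ c, 2 ≤ |S.s c|) ∧ (∀ c, |S.t c + S.s c * i| ≤ 1 / 10) ∧
    (∀ r, |S.X r - i| ≤ 1 / 10) ∧ (∀ r, |S.s (S.a r) * S.X r + S.t (S.a r)| ≤ 1 / 10) ∧
    (univ.filter (fun c => 0 < S.s c)).card = h

theorem normalise (S : Ev A R k P) (hinj : Function.Injective S.s) {h : ℕ}
    (hA : Fintype.card A = 2 * h) (i : ℕ) : ∃ S' : Ev A R k P, Nrm S' h i := by
  classical
  obtain ⟨c, hc, hcard⟩ := exists_cut (univ.image S.s) h (by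
    rw [card_image_of_injective _ hinj, card_univ, hA]; omega)
  have hc' : ∀ a, S.s a - c ≠ 0 := by
    intro a h0
    apply hc
    rw [mem_image]
    exact ⟨a, mem_univ _, by linarith⟩
  have hcnt : (univ.filter (fun a => c < S.s a)).card = h := by
    rw [← hcard, filter_image, card_image_of_injective _ hinj]
  have h1 : ∀ᶠ l : ℝ in 𝓝[>] 0, (∀ a, |l * S.t a| < 1 / 10) ∧
      (∀ r, |l * (S.s (S.a r) * S.X r + S.t (S.a r) - c * S.X r)| < 1 / 10) := by
    apply Eventually.and
    · rw [eventually_all]
      exact fun a => ev_lin (by norm_num)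
    · rw [eventually_all]
      exact fun r => ev_lin (by norm_num)
  obtain ⟨l, ⟨hl1, hl2⟩, hl0⟩ := (h1.and self_mem_nhdsWithin).exists
  have hl : 0 < l := hl0
  have h2 : ∀ᶠ d : ℝ in 𝓝[>] 0, (∀ r, |d * S.X r| < 1 / 10) ∧
      (∀ a, |d * 2| < l * |S.s a - c|) := by
    apply Eventually.and
    · rw [eventually_all]
      exact fun r => ev_lin (by norm_num)
    · rw [eventually_all]
      exact fun a => ev_lin (mul_pos hl (abs_pos.mpr (hc' a)))
  obtain ⟨d, ⟨hd1, hd2⟩, hd0⟩ := (h2.and self_mem_nhdsWithin).exists
  have hd : 0 < d := hd0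
  have key : ∀ a r, l / d * (S.s a - c) * (d * S.X r + i) + (l * S.t a - l / d * (S.s a - c) * i) =
      l * (S.s a * S.X r + S.t a - c * S.X r) := by
    intro a r
    field_simp
    ring
  refine ⟨{
    s := fun a => l / d * (S.s a - c)
    t := fun a => l * S.t a - l / d * (S.s a - c) * i
    X := fun r => d * S.X r + i
    a := S.a
    b := S.b
    tie := ?_
    hs := ?_
    hne := ?_
    hcard := ?_
    hX := ?_
    slot := S.slot
    hslot := S.hslot }, ?_, ?_, ?_, ?_, ?_, ?_⟩
  · intro r
    rw [key, key, S.tie r]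
  · intro r
    have := S.hs r
    apply mul_lt_mul_of_pos_left _ (div_pos hl hd)
    linarith
  · intro r a h3 h4 h5
    rw [key, key] at h5
    apply S.hne r a h3 h4
    have := mul_left_cancel₀ hl.ne' h5
    linarith
  · intro r
    refine Eq.trans (sum_congr rfl ?_) (S.hcard r)
    intro a _
    rw [key, key]
    by_cases h3 : S.s a * S.X r + S.t a < S.s (S.a r) * S.X r + S.t (S.a r)
    · rw [if_pos h3, if_pos]
      apply mul_lt_mul_of_pos_left _ hl
      linarith
    · rw [if_neg h3, if_neg]
      intro h4
      apply h3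
      have := lt_of_mul_lt_mul_left h4 hl.le
      linarith
  · intro r r' h3
    apply S.hX
    have h4 : d * S.X r + i = d * S.X r' + i := h3
    exact mul_left_cancel₀ hd.ne' (by linarith)
  · intro a a' h3
    apply hinj
    have h4 : l / d * (S.s a - c) = l / d * (S.s a' - c) := h3
    have := mul_left_cancel₀ (div_pos hl hd).ne' h4
    linarith
  · intro a
    show 2 ≤ |l / d * (S.s a - c)|
    rw [abs_mul, abs_of_pos (div_pos hl hd), div_mul_eq_mul_div, le_div_iff₀ hd]
    have := hd2 a
    rw [abs_of_pos (by linarith)] at this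
    linarith
  · intro a
    show |l * S.t a - l / d * (S.s a - c) * i + l / d * (S.s a - c) * i| ≤ 1 / 10
    rw [sub_add_cancel]
    exact (hl1 a).le
  · intro r
    show |d * S.X r + i - i| ≤ 1 / 10
    rw [add_sub_cancel_right]
    exact (hd1 r).le
  · intro r
    show |l / d * (S.s (S.a r) - c) * (d * S.X r + i) +
      (l * S.t (S.a r) - l / d * (S.s (S.a r) - c) * i)| ≤ 1 / 10
    rw [key]
    exact (hl2 r).le
  · rw [← hcnt]
    congr 1
    ext a
    simp only [mem_filter, mem_univ, true_and]
    constructor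
    · intro h3
      have := (mul_pos_iff_of_pos_left (div_pos hl hd)).mp h3
      linarith
    · intro h3
      exact mul_pos (div_pos hl hd) (by linarith)

end Pool.Agent.K9h77.RL
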