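import Pool.Agent.K9h77.RL.Pert

/-! From the complexity of a level of an arbitrary finite set of lines to crossings. -/

set_option autoImplicit false

namespace Pool.Agent.K9h77.RL

open Finset Filter Pool.Agent.H189R2.Lev
open KLev.Levels (height kLevel IsVertex complexity vertices_finite)
open Pool.Agent.Results.MP_a08d0a_co.IidLevel
open Pool.Agent.W863.AllK (HasEv)
open scoped Topology

theorem hasEv_zero (n k : ℕ) : HasEv n 0 k :=
  ⟨Fin n, Empty, inferInstance, inferInstance, 0,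
    { s := fun i => (i : ℝ), t := fun _ => 0, X := fun e => e.elim, a := fun e => e.elim,
      b := fun e => e.elim, tie := fun e => e.elim, hs := fun e => e.elim,
      hne := fun e => e.elim, hcard := fun e => e.elim, hX := fun e => e.elim,
      slot := fun e => e.elim, hslot := fun e => e.elim },
    fun i j h => by
      have h' : (i : ℝ) = (j : ℝ) := h
      exact Fin.ext (by exact_mod_cast h'), Fintype.card_fin n, Fintype.card_empty⟩

theorem ev_lin {c : ℝ} {d : ℝ} (hd : 0 < d) : ∀ᶠ ε : ℝ in 𝓝[>] 0, |ε * c| < d := by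
  have : Tendsto (fun ε : ℝ => |ε * c|) (𝓝 0) (𝓝 |0 * c|) := by
    apply Continuous.tendsto; fun_prop
  rw [zero_mul, abs_zero] at this
  exact (this.mono_left nhdsWithin_le_nhds).eventually (gt_mem_nhds hd)

theorem ev_simple {n : ℕ} (a B : Fin n → ℝ) : ∀ᶠ ε : ℝ in 𝓝[>] 0,
    Function.Injective (fun i : Fin n => a i + ε * (i : ℕ)) ∧
    Simple (fun i : Fin n => a i + ε * (i : ℕ)) (fun i : Fin n => B i + ε * ((i : ℕ) : ℝ) ^ 2) := by
  have hτ : Function.Injective (fun i : Fin n => ((i : ℕ) : ℝ)) := by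
    intro i j h
    have h' : ((i : ℕ) : ℝ) = ((j : ℕ) : ℝ) := h
    exact Fin.ext (by exact_mod_cast h')
  have h1 := KLev.ev_genpos (d := 2) (fun i : Fin n => ![a i, B i]) (fun i => ((i : ℕ) : ℝ)) hτ
  have h2 : ∀ᶠ ε : ℝ in 𝓝[>] 0, ∀ i j : Fin n, i ≠ j →
      a i + ε * (i : ℕ) ≠ a j + ε * (j : ℕ) := by
    rw [eventually_all]; intro i
    rw [eventually_all]; intro j
    by_cases hij : i = j
    · exact Eventually.of_forall (fun _ h => absurd hij h)
    have hij' : ((i : ℕ) : ℝ) - ((j : ℕ) : ℝ) ≠ 0 := sub_ne_zero.mpr (fun h => hij (hτ h))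
    by_cases h0 : a i - a j = 0
    · filter_upwards [self_mem_nhdsWithin] with ε hε _ h
      have hε' : (0 : ℝ) < ε := hε
      have h3 : ε * (((i : ℕ) : ℝ) - ((j : ℕ) : ℝ)) = 0 := by linarith
      rcases mul_eq_zero.mp h3 with h4 | h4
      · exact hε'.ne' h4
      · exact hij' h4
    · filter_upwards [KLev.ev_sign (((i : ℕ) : ℝ) - ((j : ℕ) : ℝ)) h0] with ε hε _ h
      apply hε.1
      linarith
  filter_upwards [h1, h2] with ε g1 g2
  refine ⟨fun i j h => ?_, ?_, ?_⟩
  · by_contra hij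
    exact g2 i j hij h
  · intro i j hij h
    exact absurd h (g2 i j hij)
  · rintro i j l hij hil hjl ⟨x, e1, e2⟩
    refine g1 ![i, j, l] ?_ ![x, 1] ((a i + ε * (i : ℕ)) * x + (B i + ε * ((i : ℕ) : ℝ) ^ 2)) ?_ ?_
    · intro u v h
      fin_cases u <;> fin_cases v <;> simp at h ⊢ <;>
        first
          | exact hij h | exact hil h | exact hjl h | exact hij h.symm | exact hil h.symm
          | exact hjl h.symm
    · intro h
      have := congrFun h 1
      simp at this
    · unfold ht at e1 e2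
      intro u
      fin_cases u
      · simp [Fin.sum_univ_two]
        ring
      · simp [Fin.sum_univ_two]
        linarith
      · simp [Fin.sum_univ_two]
        linarith

/-- **From complexity to crossings.** -/
theorem exists_hasEv (Γ : Finset (ℝ × ℝ)) (k : ℕ) :
    ∃ k' E, (k' = k ∨ k' + 1 = k) ∧ complexity Γ k ≤ 2 * E ∧ HasEv Γ.card E k' := by
  classical
  set n := Γ.card with hn
  set V : Set (ℝ × ℝ) := {p | IsVertex Γ k p} with hV
  have hVf : V.Finite := vertices_finite Γ k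
  have hcV : complexity Γ k = V.ncard := rfl
  by_cases hVe : V = ∅
  · refine ⟨k, 0, Or.inl rfl, ?_, hasEv_zero _ _⟩
    rw [hcV, hVe]; simp
  obtain ⟨v0, hv0⟩ := Set.nonempty_iff_ne_empty.mpr hVe
  -- index the lines
  set f : Fin n → ℝ × ℝ := fun i => (Γ.equivFin.symm i : ℝ × ℝ) with hf
  have hfi : Function.Injective f := fun i j h =>
    Γ.equivFin.symm.injective (Subtype.ext h)
  have hfr : ∀ l, l ∈ Γ ↔ ∃ i, f i = l := by
    intro l
    constructor
    · intro h
      exact ⟨Γ.equivFin ⟨l, h⟩, by simp [hf]⟩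
    · rintro ⟨i, rfl⟩
      exact (Γ.equivFin.symm i).2
  set a : Fin n → ℝ := fun i => (f i).1 with ha
  set B : Fin n → ℝ := fun i => (f i).2 with hB
  have hcount : ∀ s : ℝ → Prop, ∀ x : ℝ, {l | l ∈ Γ ∧ s (height l x)}.ncard =
      {i : Fin n | s (ht a B i x)}.ncard := by
    intro s x
    rw [← Set.ncard_image_of_injective _ hfi]
    congr 1
    ext l
    constructor
    · rintro ⟨h1, h2⟩
      obtain ⟨i, rfl⟩ := (hfr l).mp h1
      exact ⟨i, h2, rfl⟩
    · rintro ⟨i, h2, rfl⟩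
      exact ⟨(hfr _).mpr ⟨i, rfl⟩, h2⟩
  have hK : ∀ x y : ℝ, (x, y) ∈ kLevel Γ k →
      {i : Fin n | ht a B i x < y}.ncard ≤ k ∧ k < {i : Fin n | ht a B i x ≤ y}.ncard := by
    intro x y hxy
    obtain ⟨h1, h2⟩ := kLevel_counts hxy
    rw [hcount (fun z => z < y) x] at h1
    rw [hcount (fun z => z ≤ y) x] at h2
    exact ⟨h1, h2⟩
  have hv : ∀ v : V, ∃ l ∈ Γ, ∃ m ∈ Γ, l ≠ m ∧ height l v.1.1 = v.1.2 ∧ height m v.1.1 = v.1.2 ∧
    ∃ δ > 0, (∀ x, v.1.1 - δ < x → x < v.1.1 → (x, height l x) ∈ kLevel Γ k) ∧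
      (∀ x, v.1.1 < x → x < v.1.1 + δ → (x, height m x) ∈ kLevel Γ k) := fun v => v.2
  choose L hLΓ M hMΓ hLM hLp hMp δ hδ0 hδL hδR using hv
  have hkn : k < n := by
    have h1 := (hK _ _ (hδL ⟨v0, hv0⟩ (v0.1 - δ ⟨v0, hv0⟩ / 2)
      (by simp only; linarith [hδ0 ⟨v0, hv0⟩]) (by simp only; linarith [hδ0 ⟨v0, hv0⟩]))).2
    refine lt_of_lt_of_le h1 ?_
    have := Set.ncard_le_ncard (Set.subset_univ {i : Fin n | ht a B i
      (v0.1 - δ ⟨v0, hv0⟩ / 2) ≤ height (L ⟨v0, hv0⟩) (v0.1 - δ ⟨v0, hv0⟩ / 2)}) (Set.toFinite _)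
    rwa [Set.ncard_univ, Nat.card_eq_fintype_card, Fintype.card_fin] at this
  have hd : ∀ v : V, 0 < |(L v).1 - (M v).1| := by
    intro v
    rw [abs_pos]
    intro h
    apply hLM v
    have h1 := hLp v
    have h2 := hMp v
    unfold height at h1 h2
    have h3 : (L v).1 = (M v).1 := by linarith
    refine Prod.ext h3 ?_
    rw [h3] at h1
    linarith
  -- different vertices have different abscissae
  have hdist : ∀ v v' : V, v ≠ v' → 0 < |v.1.1 - v'.1.1| := by
    intro v v' hne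
    rw [abs_pos]
    intro h
    apply hne
    have hx : v.1.1 = v'.1.1 := by linarith
    have hd1 := hδ0 v
    have hd2 := hδ0 v'
    set μ := min (δ v) (δ v') with hμ
    have hμ0 : 0 < μ := lt_min hd1 hd2
    have hμ1 : μ ≤ δ v := min_le_left _ _
    have hμ2 : μ ≤ δ v' := min_le_right _ _
    have hsame : ∀ x, v.1.1 - μ < x → x < v.1.1 → height (L v) x = height (L v') x := by
      intro x h1 h2
      obtain ⟨g1, g2⟩ := hK _ _ (hδL v x (by linarith) h2)
      obtain ⟨g3, g4⟩ := hK _ _ (hδL v' x (by linarith) (by linarith))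
      rw [← level_eq g1 g2, ← level_eq g3 g4]
    have s1 := hsame (v.1.1 - μ / 2) (by linarith) (by linarith)
    have s2 := hsame (v.1.1 - μ / 4) (by linarith) (by linarith)
    have e1 := hLp v
    have e2 := hLp v'
    unfold height at s1 s2 e1 e2
    have h3 : ((L v).1 - (L v').1) * μ = 0 := by linarith
    have h4 : (L v).1 = (L v').1 := by
      rcases mul_eq_zero.mp h3 with h5 | h5
      · linarith
      · exact absurd h5 hμ0.ne'
    rw [h4] at s1 e1
    apply Subtype.ext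
    apply Prod.ext hx
    rw [hx] at s1 e1
    linarith
  have : Finite V := hVf
  -- the size of the windows
  obtain ⟨η, hη0, hη1, hη2⟩ : ∃ η : ℝ, 0 < η ∧ (∀ v : V, 3 * η < δ v) ∧
      ∀ v v' : V, v ≠ v' → 6 * η < |v.1.1 - v'.1.1| := by
    have h1 : ∀ᶠ η : ℝ in 𝓝[>] 0, ∀ v : V, |η * 3| < δ v := by
      rw [eventually_all]; intro v
      exact ev_lin (hδ0 v)
    have h2 : ∀ᶠ η : ℝ in 𝓝[>] 0, ∀ v v' : V, v ≠ v' → |η * 6| < |v.1.1 - v'.1.1| := by
      rw [eventually_all]; intro v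
      rw [eventually_all]; intro v'
      by_cases hvv : v = v'
      · exact Eventually.of_forall (fun _ h => absurd hvv h)
      filter_upwards [ev_lin (c := 6) (hdist v v' hvv)] with η hη _
      exact hη
    obtain ⟨η, g1, g2, g3⟩ := (h1.and (h2.and
      (self_mem_nhdsWithin : ∀ᶠ ε : ℝ in 𝓝[>] 0, ε ∈ Set.Ioi (0 : ℝ)))).exists
    have g3' : (0 : ℝ) < η := g3
    refine ⟨η, g3', fun v => ?_, fun v v' hvv => ?_⟩
    · have := g1 v
      rw [abs_of_pos (by positivity)] at this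
      linarith
    · have := g2 v v' hvv
      rw [abs_of_pos (by positivity)] at this
      linarith
  -- the perturbation
  have hclose : ∀ᶠ ε : ℝ in 𝓝[>] 0, ∀ (v : V) (i : Fin n) (s : Fin 5),
      |ε * ((i : ℕ) * (v.1.1 + ((s : ℕ) - 2) * η) + ((i : ℕ) : ℝ) ^ 2)| <
        |(L v).1 - (M v).1| * η / 8 := by
    rw [eventually_all]; intro v
    rw [eventually_all]; intro i
    rw [eventually_all]; intro s
    exact ev_lin (by have := hd v; positivity)
  obtain ⟨ε, ⟨hinj, hS⟩, hε⟩ := ((ev_simple a B).and hclose).exists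
  set a' : Fin n → ℝ := fun i => a i + ε * (i : ℕ) with ha'
  set B' : Fin n → ℝ := fun i => B i + ε * ((i : ℕ) : ℝ) ^ 2 with hB'
  have hbreak : ∀ v : V, ∃ x ∈ Set.Ioo (v.1.1 - 3 * η) (v.1.1 + 3 * η),
      ¬ ∃ l, level a' B' k =ᶠ[𝓝 x] ht a' B' l := by
    intro v
    by_contra hcon
    push Not at hcon
    have hcon' : ∀ x ∈ Set.Ioo (v.1.1 - 3 * η) (v.1.1 + 3 * η),
        ∃ l, level a' B' k =ᶠ[𝓝 x] ht a' B' l := by
      intro x hx
      obtain ⟨l, hl⟩ := hcon x hx
      exact ⟨l, hl⟩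
    obtain ⟨l, hl⟩ := single_line hinj (by linarith) hcon'
    have hcl : ∀ (s : Fin 5) (y : ℝ), (v.1.1 + ((s : ℕ) - 2) * η, y) ∈ kLevel Γ k →
        |level a' B' k (v.1.1 + ((s : ℕ) - 2) * η) - y| ≤ |(L v).1 - (M v).1| * η / 8 := by
      intro s y hy
      obtain ⟨g1, g2⟩ := hK _ _ hy
      apply level_close g1 g2 hkn
      intro i
      have := (hε v i s).le
      refine le_trans (le_of_eq ?_) this
      congr 1
      simp only [ht, ha', hB']
      ring
    have hδv := hη1 v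
    have k0 := hcl 0 _ (hδL v (v.1.1 + (((0 : Fin 5) : ℕ) - 2) * η)
      (by norm_num; linarith) (by norm_num; linarith))
    have k1 := hcl 1 _ (hδL v (v.1.1 + (((1 : Fin 5) : ℕ) - 2) * η)
      (by norm_num; linarith) (by norm_num; linarith))
    have k3 := hcl 3 _ (hδR v (v.1.1 + (((3 : Fin 5) : ℕ) - 2) * η)
      (by norm_num; linarith) (by norm_num; linarith))
    have k4 := hcl 4 _ (hδR v (v.1.1 + (((4 : Fin 5) : ℕ) - 2) * η)
      (by norm_num; linarith) (by norm_num; linarith))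
    rw [hl _ (by constructor <;> norm_num <;> linarith)] at k0 k1 k3 k4
    have w0 : (((0 : Fin 5) : ℕ) : ℝ) = 0 := by norm_num
    have w1 : (((1 : Fin 5) : ℕ) : ℝ) = 1 := by norm_num
    have w3 : (((3 : Fin 5) : ℕ) : ℝ) = 3 := by norm_num
    have w4 : (((4 : Fin 5) : ℕ) : ℝ) = 4 := by norm_num
    rw [w0] at k0
    rw [w1] at k1
    rw [w3] at k3
    rw [w4] at k4
    unfold ht height at k0 k1 k3 k4
    rw [abs_le] at k0 k1 k3 k4
    have hdv := hd v
    have hη' : 0 < |(L v).1 - (M v).1| * η := mul_pos hdv hη0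
    rcases abs_cases ((L v).1 - (M v).1) with ⟨c1, _⟩ | ⟨c1, _⟩
    · rw [c1] at k0 k1 k3 k4 hη'
      nlinarith [k0.1, k0.2, k1.1, k1.2, k3.1, k3.2, k4.1, k4.2]
    · rw [c1] at k0 k1 k3 k4 hη'
      nlinarith [k0.1, k0.2, k1.1, k1.2, k3.1, k3.2, k4.1, k4.2]
  choose x hx1 hx2 using hbreak
  have hxinj : Function.Injective x := by
    intro v v' h
    by_contra hne
    have h1 := hη2 v v' hne
    have h2 := hx1 v
    have h3 := hx1 v'
    rw [← h] at h3
    have h4 : |v.1.1 - v'.1.1| < 6 * η := by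
      rw [abs_lt]
      constructor <;> linarith [h2.1, h2.2, h3.1, h3.2]
    linarith
  have hpsi : (V.encard : ℕ∞) ≤ psi a' B' k := by
    unfold psi
    have : V.encard = (Set.range x).encard := by
      rw [← Set.image_univ, hxinj.encard_image, Set.encard_univ]
      rfl
    rw [this]
    apply Set.encard_le_encard
    rintro _ ⟨v, rfl⟩
    exact hx2 v
  have h5 := hpsi.trans (psi_le hS hkn)
  rw [← hVf.cast_ncard_eq] at h5
  have h6 : V.ncard ≤ (crossings a' B' k).ncard +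
      (if k = 0 then 0 else (crossings a' B' (k - 1)).ncard) := by exact_mod_cast h5
  by_cases hk0 : k = 0
  · refine ⟨k, _, Or.inl rfl, ?_, hasEv_of_crossings hS hinj k⟩
    rw [if_pos hk0] at h6
    rw [hcV]
    omega
  · rw [if_neg hk0] at h6
    by_cases h7 : V.ncard ≤ 2 * (crossings a' B' k).ncard
    · exact ⟨k, _, Or.inl rfl, h7, hasEv_of_crossings hS hinj k⟩
    · refine ⟨k - 1, _, Or.inr (by omega), ?_, hasEv_of_crossings hS hinj (k - 1)⟩
      rw [hcV]
      omega

end Pool.Agent.K9h77.RL
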