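import Pool.Agent.K9h77.RL.Law
import Pool.Agent.K9h77.RL.Pert2
import Pool.Agent.Y375.FD.Upper

/-! Worst case levels of `N` lines inside levels of random lines. -/

set_option autoImplicit false

namespace Pool.Agent.K9h77.RL

open Finset MeasureTheory Filter Pool.Agent.H189R2.Lev Pool.Agent.H189R2.Iid
open KLev.Levels (height kLevel IsVertex complexity vertices_finite complexity_le)
open Pool.Agent.Results.MP_a08d0a_co.IidLevel
open Pool.Agent.W863.AllK (HasEv)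
open scoped ENNReal Topology

/-- the maximum is attained -/
theorem e_attained (κ N : ℕ) : ∃ Γ : Finset (ℝ × ℝ), Γ.card = N ∧
    complexity Γ κ = KLev.Levels.e κ N := by
  have hne : {c : ℕ | ∃ Γ : Finset (ℝ × ℝ), Γ.card = N ∧ complexity Γ κ = c}.Nonempty := by
    obtain ⟨Γ, hΓ⟩ := Infinite.exists_subset_card_eq (ℝ × ℝ) N
    exact ⟨_, Γ, hΓ, rfl⟩
  have hbd : BddAbove {c : ℕ | ∃ Γ : Finset (ℝ × ℝ), Γ.card = N ∧ complexity Γ κ = c} := by
    refine ⟨N * N, ?_⟩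
    rintro c ⟨Γ, hΓ, rfl⟩
    rw [← hΓ]
    exact complexity_le Γ κ
  exact Nat.sSup_mem hne hbd

/-- a simple arrangement with many crossings near the level -/
theorem hasEv_e {κ N m : ℕ} (hm1 : 1 ≤ m) (hm : m = min κ (N - 1 - κ)) :
    ∃ κ' E, (κ' = m ∨ κ' + 1 = m) ∧ KLev.Levels.e κ N ≤ 2 * E ∧ HasEv N E κ' := by
  obtain ⟨Γ, h1, h2⟩ := e_attained κ N
  obtain ⟨κ', E, h3, h4, h5⟩ := exists_hasEv Γ κ
  rw [h1] at h5
  rw [h2] at h4
  by_cases h6 : 2 * κ + 1 ≤ N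
  · exact ⟨κ', E, by omega, h4, h5⟩
  · refine ⟨N - 2 - κ', E, by omega, h4, ?_⟩
    exact Pool.Agent.W863.AllK.flip h5 (by omega)

/-- **Transfer.** -/
theorem transfer {κ N m : ℕ} (hm : m = min κ (N - 1 - κ)) (hm17 : 17 ≤ m) :
    ∃ μ : Measure (ℝ × ℝ), IsProbabilityMeasure μ ∧ LN μ ∧
      ENNReal.ofReal (Real.exp (-256) / 16 * (m * KLev.Levels.e κ N)) ≤
        expPsi μ (m * N) (m ^ 2) := by
  obtain ⟨κ', E, h1, h2, h3⟩ := hasEv_e (by omega) hm
  have hN : 2 * m + 1 ≤ N := by omega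
  have hmm : 1 ≤ m ^ 2 := Nat.one_le_pow _ _ (by omega)
  have hmR : (17 : ℝ) ≤ m := by exact_mod_cast hm17
  have hNR : 2 * (m : ℝ) + 1 ≤ N := by exact_mod_cast hN
  have hN0 : (0 : ℝ) < N := by linarith
  have hcast : ((m ^ 2 - 1 : ℕ) : ℝ) = (m : ℝ) ^ 2 - 1 := by
    rw [Nat.cast_sub hmm]; push_cast; rfl
  have hmN2 : 2 ≤ m * N := by nlinarith
  have hcast2 : ((m * N - 2 : ℕ) : ℝ) = (m : ℝ) * N - 2 := by
    rw [Nat.cast_sub hmN2]; push_cast; rfl
  have hden : (0 : ℝ) < (m : ℝ) * N - 2 := by nlinarith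
  have hsq : (m : ℝ) / 2 ≤ Real.sqrt ((m : ℝ) ^ 2 - 1) := by
    apply Real.le_sqrt_of_sq_le
    nlinarith
  have hsq2 : Real.sqrt ((m : ℝ) ^ 2 - 1) ≤ m := by
    rw [Real.sqrt_le_left (by positivity)]
    linarith
  have hκR : (m : ℝ) - 1 ≤ κ' ∧ (κ' : ℝ) ≤ m := by
    rcases h1 with h | h
    · rw [h]; constructor <;> linarith
    · have : (κ' : ℝ) + 1 = m := by exact_mod_cast h
      constructor <;> linarith
  obtain ⟨μ, g1, g2, g3⟩ := law_exists (κ := κ') h3 (by omega : 1 ≤ N) (n := m * N)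
    (m := m ^ 2 - 1) (by nlinarith [Nat.sub_add_cancel hmm])
    (by
      have : 2 * m ^ 2 ≤ m * N := by nlinarith
      omega) (t := 8) (by rw [hcast]; nlinarith) (by
      rw [hcast, hcast2]
      have e1 : (m : ℝ) / N - ((m : ℝ) ^ 2 - 1) / (m * N - 2) =
          (N - 2 * m) / (N * (m * N - 2)) := by
        field_simp
        ring
      have e2 : (0 : ℝ) ≤ (N - 2 * m) / (N * (m * N - 2)) :=
        div_nonneg (by linarith) (by positivity)
      have e3 : ((N : ℝ) - 2 * m) / (N * (m * N - 2)) ≤ 1 / N := by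
        rw [div_le_div_iff₀ (by positivity) hN0]
        nlinarith [mul_pos hN0 hN0, mul_pos hN0 hden]
      have e4 : |(κ' : ℝ) / N - ((m : ℝ) ^ 2 - 1) / (m * N - 2)| ≤ (2 : ℝ) / N := by
        have e5 : (κ' : ℝ) / N - ((m : ℝ) ^ 2 - 1) / (m * N - 2) =
            ((κ' : ℝ) - m) / N + (N - 2 * m) / (N * (m * N - 2)) := by
          rw [← e1]; ring
        rw [e5, abs_le]
        have e6 : -(1 / (N : ℝ)) ≤ ((κ' : ℝ) - m) / N := by
          rw [neg_le_iff_add_nonneg, ← add_div]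
          exact div_nonneg (by linarith [hκR.1]) hN0.le
        have e7 : ((κ' : ℝ) - m) / N ≤ 0 := div_nonpos_of_nonpos_of_nonneg (by linarith [hκR.2]) hN0.le
        have e8 : (2 : ℝ) / N = 1 / N + 1 / N := by ring
        have e9 : (0 : ℝ) < 1 / N := by positivity
        constructor <;> linarith
      have e10 : (4 : ℝ) / N ≤ 8 * Real.sqrt ((m : ℝ) ^ 2 - 1) / (m * N - 2) := by
        rw [div_le_div_iff₀ hN0 hden]
        nlinarith [mul_le_mul_of_nonneg_right hsq hN0.le]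
      have e11 : (4 : ℝ) / N = 2 / N + 2 / N := by ring
      linarith)
  refine ⟨μ, g1, g2, ?_⟩
  have hms : m ^ 2 - 1 + 1 = m ^ 2 := Nat.sub_add_cancel hmm
  rw [hms] at g3
  refine le_trans (ENNReal.ofReal_le_ofReal ?_) g3
  rw [hcast]
  push_cast
  have hE : (KLev.Levels.e κ N : ℝ) ≤ 2 * E := by exact_mod_cast h2
  have hexp := Real.exp_pos (-256 : ℝ)
  have hx : (-(4 * (8 : ℝ) ^ 2)) = -256 := by norm_num
  rw [hx]
  have hmN : (1 : ℝ) ≤ (m : ℝ) * N / 2 := by nlinarith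
  have hE0 : (0 : ℝ) ≤ E := Nat.cast_nonneg _
  have hm0 : (0 : ℝ) < m := by linarith
  calc Real.exp (-256) / 16 * (m * (KLev.Levels.e κ N : ℝ)) ≤
        Real.exp (-256) / 16 * (m * (2 * E)) := by gcongr
    _ = ((m : ℝ) * N * (m * N) / 2) * (Real.exp (-256) / (4 * m) * (E * (1 / N) ^ 2)) := by
        field_simp
        ring
    _ ≤ ((m : ℝ) * N * (m * N) - m * N) * (Real.exp (-256) / (4 * m) * (E * (1 / N) ^ 2)) := by
        gcongr
        nlinarith
    _ ≤ _ := by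
        have h0 : (0 : ℝ) ≤ (m : ℝ) * N * (m * N) - m * N := by nlinarith
        have hs0 : 0 < Real.sqrt ((m : ℝ) ^ 2 - 1) := by linarith
        have hs1 : (0 : ℝ) < 4 * Real.sqrt ((m : ℝ) ^ 2 - 1) := by linarith
        gcongr

end Pool.Agent.K9h77.RL
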