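import Pool.Agent.K9h77.RL.Mix
import Pool.Agent.K9h77.RL.Transfer

/-! One law of random lines with superlinear levels for all `n`. -/

set_option autoImplicit false

namespace Pool.Agent.K9h77.RL

open Finset MeasureTheory Filter Pool.Agent.H189R2.Lev Pool.Agent.H189R2.Iid
open Pool.Agent.Results.MP_a08d0a_co.IidLevel KLev
open Pool.Agent.W863.AllK (HasEv)
open scoped ENNReal Topology

theorem key_gen {C : ℝ} (hC : 0 < C) {L u : ℝ} (hu : 8 ≤ u) (hu2 : |Real.log C| ≤ u)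
    (hL : L = Real.exp (u ^ 2)) :
    C * L ^ 4 * Real.exp (L * Real.exp (-4 * u)) ≤ Real.exp (L / 3 * Real.exp (-3 * u)) := by
  obtain ⟨W, hW⟩ : ∃ W, W = Real.exp (u ^ 2 - 4 * u) := ⟨_, rfl⟩
  have e1 : L * Real.exp (-4 * u) = W := by
    rw [hL, hW, ← Real.exp_add]; congr 1; ring
  have e2 : L / 3 * Real.exp (-3 * u) = W * Real.exp u / 3 := by
    have : Real.exp (-3 * u) = Real.exp (-4 * u) * Real.exp u := by
      rw [← Real.exp_add]; congr 1; ring
    rw [this, ← e1]; ring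
  have e3 : L ^ 4 = Real.exp (4 * u ^ 2) := by
    rw [hL, ← Real.exp_nat_mul]; norm_num
  have e4 : C = Real.exp (Real.log C) := (Real.exp_log hC).symm
  have h1 : Real.exp (4 * u) ≤ W := by
    rw [hW]; apply Real.exp_le_exp.mpr; nlinarith
  have h2 : 4 * u ^ 2 ≤ W := by
    have h3 : 2 * u ≤ Real.exp (2 * u) := by
      have := Real.add_one_le_exp (2 * u)
      linarith
    have h4 : Real.exp (4 * u) = Real.exp (2 * u) * Real.exp (2 * u) := by
      rw [← Real.exp_add]; congr 1; ring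
    have h5 : 2 * u * (2 * u) ≤ Real.exp (2 * u) * Real.exp (2 * u) :=
      mul_self_le_mul_self (by linarith) h3
    nlinarith
  have h3 : Real.log C ≤ W := by
    have h4 := Real.add_one_le_exp (4 * u)
    have h5 := le_abs_self (Real.log C)
    linarith
  have h7 : (9 : ℝ) ≤ Real.exp u := by
    have := Real.add_one_le_exp u
    linarith
  have hW0 : 0 < W := by rw [hW]; exact Real.exp_pos _
  rw [e1, e2, e3]
  calc C * Real.exp (4 * u ^ 2) * Real.exp W =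
        Real.exp (Real.log C + 4 * u ^ 2 + W) := by
        rw [Real.exp_add, Real.exp_add, Real.exp_log hC]
    _ ≤ _ := by
        apply Real.exp_le_exp.mpr
        nlinarith

theorem key_pow {n M : ℕ} (h3 : 3 ≤ M) (h1 : M ≤ n) (h2 : n ≤ M ^ 3) {C : ℝ} (hC : 0 < C)
    (hu : 8 ≤ √(Real.log (Real.log n))) (hu2 : |Real.log C| ≤ √(Real.log (Real.log n))) :
    C * Real.log n ^ 4 * (n : ℝ) ^ Real.exp (-4 * √(Real.log (Real.log n))) ≤
      (M : ℝ) ^ Real.exp (-3 * √(Real.log (Real.log M))) := by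
  obtain ⟨u, hu'⟩ : ∃ u, u = √(Real.log (Real.log n)) := ⟨_, rfl⟩
  rw [← hu'] at hu hu2 ⊢
  have hMR : (3 : ℝ) ≤ M := by exact_mod_cast h3
  have hnR : (M : ℝ) ≤ n := by exact_mod_cast h1
  have hn0 : (0 : ℝ) < n := by linarith
  have hM0 : (0 : ℝ) < M := by linarith
  have hlogM : 0 < Real.log M := Real.log_pos (by linarith)
  have hlogn : 0 < Real.log n := Real.log_pos (by linarith)
  have hlk : Real.log M ≤ Real.log n := Real.log_le_log hM0 hnR
  have hpos : 0 ≤ Real.log (Real.log n) := by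
    by_contra hneg
    push Not at hneg
    rw [Real.sqrt_eq_zero_of_nonpos hneg.le] at hu'
    linarith
  have hL : Real.log n = Real.exp (u ^ 2) := by
    rw [hu', Real.sq_sqrt hpos, Real.exp_log hlogn]
  have hMu : √(Real.log (Real.log M)) ≤ u := by
    rw [hu']
    exact Real.sqrt_le_sqrt (Real.log_le_log hlogM hlk)
  have h13 : Real.log n / 3 ≤ Real.log M := by
    have h4 : (n : ℝ) ≤ (M : ℝ) ^ 3 := by exact_mod_cast h2
    have h5 := Real.log_le_log hn0 h4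
    rw [Real.log_pow] at h5
    push_cast at h5
    linarith
  have hA : (n : ℝ) ^ Real.exp (-4 * u) = Real.exp (Real.log n * Real.exp (-4 * u)) := by
    rw [Real.rpow_def_of_pos hn0]
  have hB : Real.exp (Real.log n / 3 * Real.exp (-3 * u)) ≤
      (M : ℝ) ^ Real.exp (-3 * √(Real.log (Real.log M))) := by
    rw [Real.rpow_def_of_pos hM0]
    apply Real.exp_le_exp.mpr
    have : Real.exp (-3 * u) ≤ Real.exp (-3 * √(Real.log (Real.log M))) :=
      Real.exp_le_exp.mpr (by linarith)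
    exact mul_le_mul h13 this (Real.exp_pos _).le hlogM.le
  rw [hA]
  exact (key_gen hC hu hu2 hL).trans hB

/-- components of all scales -/
theorem components : ∃ (E κ : ℕ → ℕ) (ν : ℕ → Measure (ℝ × ℝ)),
    (∀ i, Comp i (2 ^ (i + 1)) (E i) (κ i) (ν i)) ∧
    (∀ i, KLev.Levels.e (2 ^ i) (2 ^ (i + 1)) ≤ 2 * E i) ∧
    ∀ i, |(κ i : ℝ) / (2 ^ (i + 1) : ℕ) - 1 / 2| ≤ 1 / (2 ^ (i + 1) : ℕ) := by
  have h : ∀ i : ℕ, ∃ (E κ : ℕ) (ν : Measure (ℝ × ℝ)), Comp i (2 ^ (i + 1)) E κ ν ∧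
      KLev.Levels.e (2 ^ i) (2 ^ (i + 1)) ≤ 2 * E ∧
      |(κ : ℝ) / (2 ^ (i + 1) : ℕ) - 1 / 2| ≤ 1 / (2 ^ (i + 1) : ℕ) := by
    intro i
    obtain ⟨Γ, g1, g2⟩ := e_attained (2 ^ i) (2 ^ (i + 1))
    obtain ⟨κ, E, h3, h4, h5⟩ := exists_hasEv Γ (2 ^ i)
    rw [g1] at h5
    rw [g2] at h4
    obtain ⟨ν, hν⟩ := comp_exists (h := 2 ^ i) i h5 (by ring) Nat.one_le_two_pow
    refine ⟨E, κ, ν, hν, h4, ?_⟩
    have hN0 : (0 : ℝ) < (2 ^ (i + 1) : ℕ) := by positivity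
    have hN : ((2 ^ (i + 1) : ℕ) : ℝ) = 2 * ((2 ^ i : ℕ) : ℝ) := by push_cast; ring
    have hκ : |(κ : ℝ) - ((2 ^ i : ℕ) : ℝ)| ≤ 1 := by
      rcases h3 with h | h
      · rw [h]; simp
      · rw [← h]; push_cast; rw [abs_le]; constructor <;> linarith
    have e : (κ : ℝ) / (2 ^ (i + 1) : ℕ) - 1 / 2 =
        ((κ : ℝ) - ((2 ^ i : ℕ) : ℝ)) / (2 ^ (i + 1) : ℕ) := by
      rw [sub_div]
      congr 1
      rw [hN]
      have : (0 : ℝ) < ((2 ^ i : ℕ) : ℝ) := by positivity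
      field_simp
    rw [e, abs_div, abs_of_pos hN0]
    exact div_le_div_of_nonneg_right hκ hN0.le
  choose E κ ν h1 h2 h3 using h
  exact ⟨E, κ, ν, h1, h2, h3⟩

end Pool.Agent.K9h77.RL
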