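import Pool.Agent.K9h77.RL.One

/-! One law of random lines with superlinear levels for all `n`: the count. -/

set_option autoImplicit false

namespace Pool.Agent.K9h77.RL

open Finset MeasureTheory Filter Pool.Agent.H189R2.Lev Pool.Agent.H189R2.Iid
open Pool.Agent.Results.MP_a08d0a_co.IidLevel KLev
open Pool.Agent.W863.AllK (HasEv)
open scoped ENNReal Topology

theorem num1 {α n N m m' t : ℝ} (hn : 3 ≤ n) (hN : 0 < N) (hN2 : √n ≤ 2 * N)
    (hm1 : α * n - 2 ≤ m) (hm2 : m ≤ α * n - 1) (hα0 : 0 ≤ α) (hα1 : α ≤ 1)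
    (h4 : 8 * √n ≤ t * √m') : 3 / N + |α - m / (n - 2)| ≤ t * √m' / (n - 2) := by
  have hden : 0 < n - 2 := by linarith
  have hn0 : 0 < n := by linarith
  have hsn : 0 < √n := Real.sqrt_pos.mpr hn0
  have hsn2 : √n * √n = n := Real.mul_self_sqrt hn0.le
  have hsn1 : 1 ≤ √n := by
    rw [Real.one_le_sqrt]
    linarith
  have A1 : 3 / N ≤ 6 / √n := by
    rw [div_le_div_iff₀ hN hsn]
    linarith
  have A2 : 6 / √n ≤ 6 * √n / (n - 2) := by
    rw [div_le_div_iff₀ hsn hden]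
    nlinarith
  have A3 : |α - m / (n - 2)| ≤ 2 / (n - 2) := by
    have e : α - m / (n - 2) = (α * (n - 2) - m) / (n - 2) := by
      field_simp
    rw [e, abs_div, abs_of_pos hden]
    apply div_le_div_of_nonneg_right _ hden.le
    rw [abs_le]
    constructor <;> linarith
  have A4 : 6 * √n / (n - 2) + 2 / (n - 2) ≤ t * √m' / (n - 2) := by
    rw [← add_div]
    apply div_le_div_of_nonneg_right _ hden.le
    linarith
  linarith

theorem num2 {n m' N Y E K β w L Z : ℝ} (hn : 2 ≤ n) (hm0 : 0 < m') (hmn : m' ≤ n) (hN0 : 0 < N)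
    (hN : N ≤ √n) (hY : 0 ≤ Y) (hE : N * Y / 2 ≤ E) (hK : 0 < K) (hβ : 0 < β) (hL : 0 < L)
    (hw : 1 / (2 * L ^ 2) ≤ w) (hZ : 16 / (K * β ^ 2) * L ^ 4 * Z ≤ Y) :
    n * Z ≤ (n * n - n) * (K / (4 * √m') * (E * ((2 * β) * (w * (1 / N))) ^ 2)) := by
  have hn0 : 0 < n := by linarith
  have hsn : 0 < √n := Real.sqrt_pos.mpr hn0
  have hsm : 0 < √m' := Real.sqrt_pos.mpr hm0
  have hsn2 : √n * √n = n := Real.mul_self_sqrt hn0.le
  have hw0 : 0 < w := lt_of_lt_of_le (by positivity) hw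
  have h1 : Z ≤ K * β ^ 2 * Y / (16 * L ^ 4) := by
    rw [le_div_iff₀ (by positivity)]
    have e : 16 / (K * β ^ 2) * L ^ 4 * Z = Z * (16 * L ^ 4) / (K * β ^ 2) := by
      field_simp
    rw [e, div_le_iff₀ (by positivity)] at hZ
    linarith
  have h2 : 1 / (4 * L ^ 4) ≤ w ^ 2 := by
    have e : 1 / (4 * L ^ 4) = (1 / (2 * L ^ 2)) ^ 2 := by
      field_simp
      ring
    rw [e]
    exact pow_le_pow_left₀ (by positivity) hw 2
  have h3 : √n * N ≤ n := by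
    calc √n * N ≤ √n * √n := mul_le_mul_of_nonneg_left hN hsn.le
      _ = n := hsn2
  have h4 : √m' ≤ √n := Real.sqrt_le_sqrt hmn
  have h5 : n * n / 2 ≤ n * n - n := by nlinarith
  have h6 : 0 ≤ n * n - n := by nlinarith
  calc n * Z ≤ n * (K * β ^ 2 * Y / (16 * L ^ 4)) := mul_le_mul_of_nonneg_left h1 hn0.le
    _ = n * (K * β ^ 2 * Y / 4 * (1 / (4 * L ^ 4))) := by
        congr 1
        field_simp
        ring
    _ ≤ n * (K * β ^ 2 * Y / 4 * w ^ 2) := by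
        apply mul_le_mul_of_nonneg_left _ hn0.le
        apply mul_le_mul_of_nonneg_left h2
        positivity
    _ = (n * n) * (K / (4 * n) * (Y * β ^ 2 * w ^ 2)) := by
        field_simp
    _ ≤ (n * n) * (K / (4 * (√n * N)) * (Y * β ^ 2 * w ^ 2)) := by
        apply mul_le_mul_of_nonneg_left _ (by positivity)
        apply mul_le_mul_of_nonneg_right _ (by positivity)
        apply div_le_div_of_nonneg_left hK.le (by positivity)
        linarith
    _ = (n * n / 2) * (K / (4 * √n) * ((N * Y / 2) * ((2 * β) * (w * (1 / N))) ^ 2)) := by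
        field_simp
    _ ≤ (n * n - n) * (K / (4 * √n) * ((N * Y / 2) * ((2 * β) * (w * (1 / N))) ^ 2)) := by
        apply mul_le_mul_of_nonneg_right h5
        positivity
    _ ≤ _ := by
        apply mul_le_mul_of_nonneg_left _ h6
        gcongr

/-- the far law -/
theorem far_exists (α : ℝ) : ∃ (lam : Measure (ℝ × ℝ)) (b : ℝ),
    IsProbabilityMeasure lam ∧ LN lam ∧
    (∀ u v : ℝ × ℝ, -1 / 5 ≤ X2 u v → |Y2 u v| ≤ 1 / 5 → (lam (low u v)).toReal = b) ∧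
    (1 - 2 * min α (1 - α)) * b + (1 - (1 - 2 * min α (1 - α))) / 2 = α := by
  by_cases h : α ≤ 1 / 2
  · obtain ⟨lam, h1, h2, h3⟩ := far_above
    refine ⟨lam, 0, h1, h2, h3, ?_⟩
    rw [min_eq_left (by linarith)]
    ring
  · obtain ⟨lam, h1, h2, h3⟩ := far_below
    refine ⟨lam, 1, h1, h2, h3, ?_⟩
    rw [min_eq_right (by linarith)]
    ring

/-- **One law.** -/
theorem one_law {α : ℝ} (hα0 : 0 < α) (hα1 : α < 1) : ∃ μ : Measure (ℝ × ℝ),
    IsProbabilityMeasure μ ∧ LN μ ∧ ∃ n₀ : ℕ, ∀ n ≥ n₀,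
      ENNReal.ofReal ((n : ℝ) ^ (1 + Real.exp (-4 * √(Real.log (Real.log n))))) ≤
        expPsi μ n ⌊α * n⌋₊ := by
  obtain ⟨E, κ, ν, h1, h2, h3⟩ := components
  obtain ⟨a, ha⟩ := Pool.Agent.W863.AllK.main
  obtain ⟨lam, b, hl1, hl2, hl3, hq⟩ := far_exists α
  obtain ⟨β, hβ⟩ : ∃ β, β = min α (1 - α) := ⟨_, rfl⟩
  rw [← hβ] at hq
  have hβ0 : 0 < β := by rw [hβ]; exact lt_min hα0 (by linarith)
  have hβα : β ≤ α := by rw [hβ]; exact min_le_left _ _
  have hβα' : β ≤ 1 - α := by rw [hβ]; exact min_le_right _ _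
  have hβ2 : β ≤ 1 / 2 := by linarith
  have hq0 : 0 ≤ 1 - 2 * β := by linarith
  have hq1 : 1 - 2 * β ≤ 1 := by linarith
  have hsb : 0 < √(β / 2) := Real.sqrt_pos.mpr (by positivity)
  obtain ⟨t, ht⟩ : ∃ t, t = 8 / √(β / 2) := ⟨_, rfl⟩
  obtain ⟨K, hK⟩ : ∃ K, K = Real.exp (-(4 * t ^ 2)) := ⟨_, rfl⟩
  have hK0 : 0 < K := by rw [hK]; exact Real.exp_pos _
  have hC : 0 < 16 / (K * β ^ 2) := by positivity
  have hprob : IsProbabilityMeasure (mix (1 - 2 * β) lam ν) :=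
    mix_prob hq0 hq1 hl1 (fun i => (h1 i).1)
  have hLN : LN (mix (1 - 2 * β) lam ν) := mix_LN hl2 (fun i => (h1 i).2.1)
  refine ⟨mix (1 - 2 * β) lam ν, hprob, hLN, ?_⟩
  have hlim : Tendsto (fun k : ℕ => √(Real.log (Real.log (k : ℝ)))) atTop atTop :=
    Real.tendsto_sqrt_atTop.comp (Real.tendsto_log_atTop.comp
      (Real.tendsto_log_atTop.comp tendsto_natCast_atTop_atTop))
  have hnat : Tendsto (fun k : ℕ => (k : ℝ)) atTop atTop := tendsto_natCast_atTop_atTop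
  have hev := (((hlim.eventually_ge_atTop 8).and
    (hlim.eventually_ge_atTop |Real.log (16 / (K * β ^ 2))|)).and
    ((hnat.eventually_ge_atTop 4096).and (hnat.eventually_ge_atTop (16 * ((a : ℝ) + 3) ^ 2)))).and
    (hnat.eventually_ge_atTop ((4 + 8 * t ^ 2) / β))
  obtain ⟨n₀, hn₀⟩ := hev.exists_forall_of_atTop
  refine ⟨n₀, fun n hn => ?_⟩
  obtain ⟨⟨⟨hu1, hu2⟩, hn1, hn2⟩, hn3⟩ := hn₀ n hn
  rw [div_le_iff₀ hβ0] at hn3
  have hn0 : (0 : ℝ) < n := by linarith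
  -- the floor
  obtain ⟨f, hf⟩ : ∃ f, f = ⌊α * n⌋₊ := ⟨_, rfl⟩
  have hαn : 0 ≤ α * n := by positivity
  have hf1 : (f : ℝ) ≤ α * n := by rw [hf]; exact Nat.floor_le hαn
  have hf2 : α * n < f + 1 := by rw [hf]; exact Nat.lt_floor_add_one _
  have ht2 : 0 ≤ t ^ 2 := sq_nonneg t
  have hβα2 : β * n ≤ α * n := mul_le_mul_of_nonneg_right hβα hn0.le
  have hβn' : 4 + 8 * t ^ 2 ≤ β * n := by linarith
  have hβn : 4 + 8 * t ^ 2 ≤ α * n := by linarith
  have hf3 : 2 ≤ f := by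
    have : (2 : ℝ) < f := by linarith
    exact_mod_cast this.le
  have hf4 : f < n := by
    have h1n : α * n < 1 * n := mul_lt_mul_of_pos_right hα1 hn0
    have : (f : ℝ) < n := by linarith
    exact_mod_cast this
  obtain ⟨m, hm⟩ : ∃ m, m = f - 1 := ⟨_, rfl⟩
  have hm1 : m + 1 = f := by omega
  have hmR : (m : ℝ) = f - 1 := by
    have : (m : ℝ) + 1 = f := by exact_mod_cast hm1
    linarith
  have hmn : m + 2 ≤ n := by omega
  obtain ⟨m', hm'⟩ : ∃ m', m' = min m (n - 2 - m) := ⟨_, rfl⟩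
  have hn2R : ((n - 2 : ℕ) : ℝ) = (n : ℝ) - 2 := by
    rw [Nat.cast_sub (by omega)]; push_cast; rfl
  have hnmR : ((n - 2 - m : ℕ) : ℝ) = (n : ℝ) - 2 - m := by
    rw [Nat.cast_sub (by omega), hn2R]
  have hm'R : β * n - 2 ≤ (m' : ℝ) := by
    rw [hm', Nat.cast_min, hnmR]
    apply le_min
    · have : β * n ≤ α * n := mul_le_mul_of_nonneg_right hβα hn0.le
      linarith
    · have : β * n ≤ (1 - α) * n := mul_le_mul_of_nonneg_right hβα' hn0.le
      linarith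
  have hm'n : (m' : ℝ) ≤ n := by
    have : m' ≤ n := by omega
    exact_mod_cast this
  have hm'2 : β * n / 2 + 4 * t ^ 2 ≤ m' := by linarith
  have hm'3 : 2 ≤ m' := by
    have : (2 : ℝ) ≤ m' := by linarith
    exact_mod_cast this
  -- the scale
  obtain ⟨s, hs⟩ : ∃ s, s = Nat.sqrt n := ⟨_, rfl⟩
  have hs1 : (s : ℝ) ≤ √n := by rw [hs]; exact Real.nat_sqrt_le_real_sqrt
  have hs2 : √(n : ℝ) < s + 1 := by rw [hs]; exact Real.real_sqrt_lt_nat_sqrt_succ
  have h64 : (64 : ℝ) ≤ √n := Real.le_sqrt_of_sq_le (by linarith)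
  have ha4 : 4 * ((a : ℝ) + 3) ≤ √n := Real.le_sqrt_of_sq_le (by linarith)
  have hs64 : 64 ≤ s := by
    have : (63 : ℝ) < s := by linarith
    have : 63 < s := by exact_mod_cast this
    omega
  obtain ⟨p, hp⟩ : ∃ p, p = Nat.log 2 s := ⟨_, rfl⟩
  have hp1 : 2 ^ p ≤ s := by rw [hp]; exact Nat.pow_log_le_self 2 (by omega)
  have hp2 : s < 2 ^ (p + 1) := by rw [hp]; exact Nat.lt_pow_succ_log_self (by norm_num) s
  have hp3 : 1 ≤ p := by
    by_contra hcon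
    have : p = 0 := by omega
    rw [this] at hp2
    norm_num at hp2
    omega
  obtain ⟨j, hj⟩ : ∃ j, j = p - 1 := ⟨_, rfl⟩
  have hjp : j + 1 = p := by omega
  obtain ⟨M, hM⟩ : ∃ M, M = 2 ^ j := ⟨_, rfl⟩
  have hNM : 2 ^ (j + 1) = 2 * M := by rw [hM]; ring
  have hN1 : 2 * M ≤ s := by rw [← hNM, hjp]; exact hp1
  have hN2 : s + 1 ≤ 4 * M := by
    have : 2 ^ (p + 1) = 4 * M := by rw [← hjp, hM]; ring
    omega
  have hN1R : 2 * (M : ℝ) ≤ √n := by
    have : 2 * (M : ℝ) ≤ s := by exact_mod_cast hN1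
    linarith
  have hN2R : √(n : ℝ) ≤ 2 * (2 * M) := by
    have : (s : ℝ) + 1 ≤ 4 * M := by exact_mod_cast hN2
    linarith
  have hM0 : (0 : ℝ) < M := by linarith
  have hMa : a + 3 ≤ M := by
    have : (a : ℝ) + 3 ≤ M := by linarith
    exact_mod_cast this
  have hsn2 : √(n : ℝ) * √n = n := Real.mul_self_sqrt hn0.le
  have hMn : M ≤ n := by
    have h5 : √(n : ℝ) * 1 ≤ √n * √n := mul_le_mul_of_nonneg_left (by linarith) (by linarith)
    have : (M : ℝ) ≤ n := by linarith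
    exact_mod_cast this
  have hM3 : n ≤ M ^ 3 := by
    have g1 : √(n : ℝ) / 4 ≤ M := by linarith
    have g2 : (√(n : ℝ) / 4) ^ 3 ≤ (M : ℝ) ^ 3 := pow_le_pow_left₀ (by positivity) g1 3
    have g3 : (n : ℝ) ≤ (√(n : ℝ) / 4) ^ 3 := by
      have e : (√(n : ℝ) / 4) ^ 3 = (√(n : ℝ) * √n) * √n / 64 := by ring
      rw [e, hsn2]
      have h5 : (n : ℝ) * 64 ≤ n * √n := mul_le_mul_of_nonneg_left h64 hn0.le
      linarith
    have : (n : ℝ) ≤ (M : ℝ) ^ 3 := g3.trans g2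
    exact_mod_cast this
  -- weights
  obtain ⟨L, hL⟩ : ∃ L, L = Real.log n := ⟨_, rfl⟩
  have hLp : (p : ℝ) ≤ L := by
    have g1 : ((2 : ℝ) ^ p) ^ 2 ≤ n := by
      have g2 : (2 : ℝ) ^ p ≤ s := by exact_mod_cast hp1
      have g3 : (2 : ℝ) ^ p ≤ √n := g2.trans hs1
      calc ((2 : ℝ) ^ p) ^ 2 ≤ √(n : ℝ) ^ 2 := pow_le_pow_left₀ (by positivity) g3 2
        _ = n := Real.sq_sqrt hn0.le
    have g4 := Real.log_le_log (by positivity) g1
    rw [Real.log_pow, Real.log_pow, ← hL] at g4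
    have g5 := Real.log_two_gt_d9
    have g6 : (0 : ℝ) ≤ p := Nat.cast_nonneg p
    push_cast at g4
    have g7 : 0 ≤ (p : ℝ) * (2 * Real.log 2 - 1) := mul_nonneg g6 (by linarith)
    linarith
  have hp1R : (1 : ℝ) ≤ p := by exact_mod_cast hp3
  have hL0 : 0 < L := by linarith
  have hwt : 1 / (2 * L ^ 2) ≤ wt j := by
    unfold wt
    have e : (j : ℝ) + 1 = p := by exact_mod_cast hjp
    apply one_div_le_one_div_of_le
    · positivity
    · have e2 : (j : ℝ) + 2 = p + 1 := by linarith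
      rw [e, e2]
      calc (p : ℝ) * (p + 1) ≤ L * (2 * L) :=
            mul_le_mul hLp (by linarith) (by linarith) hL0.le
        _ = 2 * L ^ 2 := by ring
  -- the starting lower bound
  have g1 := ha (2 * M) M (by omega) (by omega)
  have hmin : min M (2 * M - M) = M := by omega
  rw [hmin] at g1
  have g2 := h2 j
  rw [← hM, hNM] at g2
  have g3 : (KLev.Levels.e M (2 * M) : ℝ) ≤ 2 * E j := by exact_mod_cast g2
  have g4 := key_pow (n := n) (M := M) (by omega) hMn hM3 hC hu1 hu2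
  -- apply
  have h4n : 8 * √(n : ℝ) ≤ t * √(m' : ℝ) := by
    have e1 : √(β / 2 * n) ≤ √(m' : ℝ) := Real.sqrt_le_sqrt (by linarith)
    rw [Real.sqrt_mul (by positivity)] at e1
    have e2 : t * √(β / 2) = 8 := by rw [ht]; field_simp
    have ht0 : 0 ≤ t := by rw [ht]; positivity
    calc 8 * √(n : ℝ) = t * (√(β / 2) * √n) := by rw [← e2]; ring
      _ ≤ t * √(m' : ℝ) := mul_le_mul_of_nonneg_left e1 ht0
  have hNj : ((2 ^ (j + 1) : ℕ) : ℝ) = 2 * M := by rw [hNM]; push_cast; ring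
  have hmain := mix_bound (N := fun i => 2 ^ (i + 1)) (E := E) (κ := κ) (ν := ν) (lam := lam)
    (q := 1 - 2 * β) h1 hl1 hl2 hq0 hq1 hl3 hq (j := j) (n := n) (m := m) (m' := m') (t := t)
    hm' (by omega) (by linarith) Nat.one_le_two_pow (h3 j) (by
      rw [hn2R]
      show 3 / ((2 ^ (j + 1) : ℕ) : ℝ) + _ ≤ _
      rw [hNj]
      exact num1 (by linarith) (by positivity) hN2R (by linarith) (by linarith) hα0.le hα1.le h4n)
  rw [← hf, ← hm1]
  refine le_trans (ENNReal.ofReal_le_ofReal ?_) hmain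
  rw [Real.rpow_add hn0, Real.rpow_one]
  show _ ≤ ((n : ℝ) * n - n) * (Real.exp (-(4 * t ^ 2)) / (4 * √(m' : ℝ)) *
      (E j * ((1 - (1 - 2 * β)) * (wt j * (1 / ((2 ^ (j + 1) : ℕ) : ℝ)))) ^ 2))
  rw [hNj, ← hK]
  have e : 1 - (1 - 2 * β) = 2 * β := by ring
  rw [e]
  exact num2 (Y := (M : ℝ) ^ Real.exp (-3 * √(Real.log (Real.log M)))) (L := L) (by linarith)
    (by
      have : (2 : ℝ) ≤ m' := by exact_mod_cast hm'3
      linarith) hm'n (by positivity) hN1R (by positivity) (by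
      push_cast at g1
      linarith) hK0 hβ0 hL0 hwt (by rw [hL]; exact g4)

end Pool.Agent.K9h77.RL
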