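import Pool.Agent.K9h77.RL.Psi
import Pool.Agent.KLev.GenPos
import Pool.Agent.W863.AllK

/-! The vertices of a level of an arbitrary finite set of lines survive, up to a factor two, as
crossings of one level in a simple arrangement with distinct slopes. -/

set_option autoImplicit false

namespace Pool.Agent.K9h77.RL

open Finset Filter Pool.Agent.H189R2.Lev
open Pool.Agent.Results.MP_a08d0a_co.IidLevel
open scoped Topology

/-- crossings of one level in a simple arrangement -/
theorem hasEv_of_crossings {n : ℕ} {a B : Fin n → ℝ} (hS : Simple a B)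
    (ha : Function.Injective a) (k : ℕ) :
    Pool.Agent.W863.AllK.HasEv n (crossings a B k).ncard k := by
  classical
  have : Fintype (crossings a B k) := (Set.toFinite _).fintype
  set C := crossings a B k with hC
  set up : C → Fin n := fun q => if a q.1.2 < a q.1.1 then q.1.1 else q.1.2 with hup
  set dn : C → Fin n := fun q => if a q.1.2 < a q.1.1 then q.1.2 else q.1.1 with hdn
  set X : C → ℝ := fun q => cr a B q.1.1 q.1.2 with hX
  have hq : ∀ q : C, q.1.1 < q.1.2 ∧ a q.1.1 ≠ a q.1.2 ∧
      {l | ht a B l (cr a B q.1.1 q.1.2) < ht a B q.1.1 (cr a B q.1.1 q.1.2)}.ncard = k :=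
    fun q => q.2
  have h1 : ∀ q : C, ht a B q.1.2 (X q) = ht a B q.1.1 (X q) := fun q => ht_cr (hq q).2.1
  have hupv : ∀ q : C, ht a B (up q) (X q) = ht a B q.1.1 (X q) := by
    intro q; simp only [hup]; split_ifs
    · rfl
    · exact h1 q
  have hdnv : ∀ q : C, ht a B (dn q) (X q) = ht a B q.1.1 (X q) := by
    intro q; simp only [hdn]; split_ifs
    · exact h1 q
    · rfl
  have hsl : ∀ q : C, a (dn q) < a (up q) := by
    intro q; simp only [hdn, hup]; split_ifs with h
    · exact h
    · exact lt_of_le_of_ne (not_lt.mp h) (hq q).2.1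
  have hne : ∀ (q : C) (c : Fin n), c ≠ up q → c ≠ dn q → c ≠ q.1.1 ∧ c ≠ q.1.2 := by
    intro q c h2 h3
    simp only [hup] at h2
    simp only [hdn] at h3
    split_ifs at h2 h3 with h
    · exact ⟨h2, h3⟩
    · exact ⟨h3, h2⟩
  have hoff : ∀ (q : C) (c : Fin n), c ≠ q.1.1 → c ≠ q.1.2 →
      ht a B c (X q) ≠ ht a B q.1.1 (X q) := by
    intro q c h2 h3 h4
    exact hS.2 q.1.1 q.1.2 c (hq q).1.ne (Ne.symm h2) (Ne.symm h3) ⟨X q, (h1 q).symm, h4.symm⟩
  have hcnt : ∀ q : C, ({c : Fin n | ht a B c (X q) < ht a B q.1.1 (X q)}).ncard = k :=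
    fun q => (hq q).2.2
  refine ⟨Fin n, C, inferInstance, inferInstance, Fintype.card C,
    { s := a, t := B, X := X, a := up, b := dn, tie := ?_, hs := hsl, hne := ?_, hcard := ?_,
      hX := ?_, slot := Fintype.equivFin C, hslot := ?_ }, ha, Fintype.card_fin n, ?_⟩
  · intro q
    exact (hupv q).trans (hdnv q).symm
  · intro q c h2 h3 h4
    obtain ⟨h5, h6⟩ := hne q c h2 h3
    have h7 : ht a B c (X q) = ht a B (up q) (X q) := h4
    rw [hupv] at h7
    exact hoff q c h5 h6 h7
  · intro q
    have h2 := hcnt q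
    have e : {c : Fin n | ht a B c (X q) < ht a B q.1.1 (X q)} =
        ((univ.filter (fun c => ht a B c (X q) < ht a B (up q) (X q)) : Finset _) : Set _) := by
      ext c
      rw [hupv]
      simp
    rw [e, Set.ncard_coe_finset, card_filter] at h2
    exact h2
  · intro q q' h
    have hx : X q = X q' := h
    -- same height
    have hy : ht a B q.1.1 (X q) = ht a B q'.1.1 (X q') := by
      have aux : ∀ q q' : C, X q = X q' → ¬ ht a B q.1.1 (X q) < ht a B q'.1.1 (X q') := by
        intro q q' hx hlt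
        have h2 : insert q.1.1 {c : Fin n | ht a B c (X q) < ht a B q.1.1 (X q)} ⊆
            {c : Fin n | ht a B c (X q') < ht a B q'.1.1 (X q')} := by
          rintro c (rfl | hc)
          · show ht a B q.1.1 (X q') < _
            rw [← hx] at hlt ⊢
            exact hlt
          · have hc' : ht a B c (X q) < ht a B q.1.1 (X q) := hc
            show ht a B c (X q') < _
            rw [← hx] at hlt ⊢
            exact hc'.trans hlt
        have h3 := Set.ncard_le_ncard h2 (Set.toFinite _)
        rw [Set.ncard_insert_of_notMem (by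
          intro h4
          have h5 : ht a B q.1.1 (X q) < ht a B q.1.1 (X q) := h4
          exact lt_irrefl _ h5) (Set.toFinite _), hcnt q, hcnt q'] at h3
        omega
      rcases lt_trichotomy (ht a B q.1.1 (X q)) (ht a B q'.1.1 (X q')) with h2 | h2 | h2
      · exact absurd h2 (aux q q' hx)
      · exact h2
      · exact absurd h2 (aux q' q hx.symm)
    -- the lines of q' are the lines of q
    have hmem : ∀ c, ht a B c (X q) = ht a B q.1.1 (X q) → c = q.1.1 ∨ c = q.1.2 := by
      intro c h2
      by_contra hcon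
      push Not at hcon
      exact hoff q c hcon.1 hcon.2 h2
    have m1 := hmem q'.1.1 (by rw [hy, hx])
    have m2 := hmem q'.1.2 (by rw [hy, hx]; exact h1 q')
    have l1 := (hq q).1
    have l2 := (hq q').1
    have : q.1 = q'.1 := by
      rcases m1 with m1 | m1 <;> rcases m2 with m2 | m2
      · rw [m1, m2] at l2; exact absurd l2 (lt_irrefl _)
      · exact Prod.ext m1.symm m2.symm
      · rw [m1, m2] at l2; exact absurd l1 (lt_asymm l2)
      · rw [m1, m2] at l2; exact absurd l2 (lt_irrefl _)
    exact Subtype.ext this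
  · intro q q' _ h
    exact (Fintype.equivFin C).injective h
  · rw [← Nat.card_coe_set_eq, Nat.card_eq_fintype_card]

/-- a function which is locally one of finitely many lines with distinct slopes is one line -/
theorem single_line {n : ℕ} {a B : Fin n → ℝ} (ha : Function.Injective a) {g : ℝ → ℝ} {u v : ℝ}
    (huv : u < v) (h : ∀ x ∈ Set.Ioo u v, ∃ l, g =ᶠ[𝓝 x] ht a B l) :
    ∃ l, ∀ x ∈ Set.Ioo u v, g x = ht a B l x := by
  choose c hc using fun x : Set.Ioo u v => h x.1 x.2
  have hslope : ∀ (y : ℝ) (l l' : Fin n), ht a B l =ᶠ[𝓝 y] ht a B l' → l = l' := by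
    intro y l l' hll
    apply ha
    have t2 : Tendsto (fun ε : ℝ => y + ε) (𝓝[>] 0) (𝓝 y) := by
      have : Tendsto (fun ε : ℝ => y + ε) (𝓝 0) (𝓝 (y + 0)) := by
        apply Continuous.tendsto; fun_prop
      rw [add_zero] at this
      exact this.mono_left nhdsWithin_le_nhds
    obtain ⟨ε, h1, h2⟩ := ((t2.eventually hll).and
      (self_mem_nhdsWithin : ∀ᶠ ε : ℝ in 𝓝[>] 0, ε ∈ Set.Ioi (0 : ℝ))).exists
    have h3 := hll.eq_of_nhds
    have hε : (0 : ℝ) < ε := h2
    unfold ht at h1 h3
    have h4 : (a l - a l') * ε = 0 := by linarith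
    rcases mul_eq_zero.mp h4 with h5 | h5
    · linarith
    · linarith
  have hloc : IsLocallyConstant c := by
    rw [IsLocallyConstant.iff_eventually_eq]
    intro x
    have h1 : ∀ᶠ y in 𝓝 (x : ℝ), g =ᶠ[𝓝 y] ht a B (c x) :=
      eventually_eventually_nhds.mpr (hc x)
    have h2 : ∀ᶠ y : Set.Ioo u v in 𝓝 x, g =ᶠ[𝓝 (y : ℝ)] ht a B (c x) :=
      (continuous_subtype_val.tendsto x).eventually h1
    filter_upwards [h2] with y hy
    exact hslope y _ _ ((hc y).symm.trans hy)
  have : PreconnectedSpace (Set.Ioo u v) :=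
    Subtype.preconnectedSpace isPreconnected_Ioo
  have hmid : (u + v) / 2 ∈ Set.Ioo u v := ⟨by linarith, by linarith⟩
  refine ⟨c ⟨_, hmid⟩, fun x hx => ?_⟩
  have h1 := hloc.apply_eq_of_preconnectedSpace ⟨x, hx⟩ ⟨_, hmid⟩
  rw [← h1]
  exact (hc ⟨x, hx⟩).eq_of_nhds

/-- the level moves no more than the lines -/
theorem level_close {n : ℕ} {a B a' B' : Fin n → ℝ} {k : ℕ} {x y err : ℝ}
    (h1 : {l | ht a B l x < y}.ncard ≤ k) (h2 : k < {l | ht a B l x ≤ y}.ncard)
    (hk : k < n) (he : ∀ l, |ht a' B' l x - ht a B l x| ≤ err) :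
    |level a' B' k x - y| ≤ err := by
  obtain ⟨i, hi1, hi2⟩ := exists_level a' B' hk x
  rw [level_eq hi1 hi2]
  have he' : ∀ l, -err ≤ ht a' B' l x - ht a B l x ∧ ht a' B' l x - ht a B l x ≤ err :=
    fun l => abs_le.mp (he l)
  rw [abs_le]
  constructor
  · by_contra hcon
    push Not at hcon
    have hsub : {l | ht a' B' l x ≤ ht a' B' i x} ⊆ {l | ht a B l x < y} := by
      intro l hl
      have hl' : ht a' B' l x ≤ ht a' B' i x := hl
      show ht a B l x < y
      linarith [(he' l).1]
    have := Set.ncard_le_ncard hsub (Set.toFinite _)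
    omega
  · by_contra hcon
    push Not at hcon
    have hsub : {l | ht a B l x ≤ y} ⊆ {l | ht a' B' l x < ht a' B' i x} := by
      intro l hl
      have hl' : ht a B l x ≤ y := hl
      show ht a' B' l x < ht a' B' i x
      linarith [(he' l).2]
    have := Set.ncard_le_ncard hsub (Set.toFinite _)
    omega

open KLev KLev.Levels

/-- points of the `k`-level in the sense of `KLev.Levels` -/
theorem kLevel_counts {Γ : Finset (ℝ × ℝ)} {k : ℕ} {p : ℝ × ℝ} (hp : p ∈ kLevel Γ k) :
    {l | l ∈ Γ ∧ height l p.1 < p.2}.ncard ≤ k ∧ k < {l | l ∈ Γ ∧ height l p.1 ≤ p.2}.ncard := by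
  classical
  have hfin : ∀ s : ℝ × ℝ → Prop, {l | l ∈ Γ ∧ s l}.Finite :=
    fun s => Γ.finite_toSet.subset (fun l hl => hl.1)
  unfold kLevel at hp
  rw [mem_closure_iff_frequently] at hp
  have hc : ∀ l : ℝ × ℝ, Continuous (fun q : ℝ × ℝ => height l q.1) := by
    intro l; unfold height; fun_prop
  have hev : ∀ᶠ q : ℝ × ℝ in 𝓝 p, ∀ l ∈ Γ, (height l p.1 < p.2 → height l q.1 < q.2) ∧
      (p.2 < height l p.1 → q.2 < height l q.1) := by
    rw [Filter.eventually_all_finset]
    intro l _
    rw [Filter.eventually_and]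
    constructor
    · by_cases h : height l p.1 < p.2
      · filter_upwards [((hc l).tendsto p).eventually_lt (continuous_snd.tendsto p) h]
          with q hq _
        exact hq
      · exact Eventually.of_forall (fun _ h' => absurd h' h)
    · by_cases h : p.2 < height l p.1
      · filter_upwards [(continuous_snd.tendsto p).eventually_lt ((hc l).tendsto p) h]
          with q hq _
        exact hq
      · exact Eventually.of_forall (fun _ h' => absurd h' h)
  obtain ⟨q, ⟨⟨l0, hl0, hl0q⟩, hq2⟩, hq3⟩ := (hp.and_eventually hev).exists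
  have hq2' : {l | l ∈ Γ ∧ height l q.1 < q.2}.ncard = k := by
    rw [← hq2]
    unfold KLev.Levels.level
    rw [← Set.ncard_coe_finset]
    congr 1
    ext l
    simp
  constructor
  · rw [← hq2']
    apply Set.ncard_le_ncard _ (hfin _)
    rintro l ⟨h1, h2⟩
    exact ⟨h1, (hq3 l h1).1 h2⟩
  · have h1 : insert l0 {l | l ∈ Γ ∧ height l q.1 < q.2} ⊆ {l | l ∈ Γ ∧ height l p.1 ≤ p.2} := by
      rintro l (rfl | ⟨h2, h3⟩)
      · refine ⟨hl0, ?_⟩
        by_contra h
        push Not at h
        have := (hq3 l hl0).2 h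
        linarith
      · refine ⟨h2, ?_⟩
        by_contra h
        push Not at h
        have := (hq3 l h2).2 h
        linarith
    have h2 := Set.ncard_le_ncard h1 (hfin _)
    rw [Set.ncard_insert_of_notMem (by
      rintro ⟨_, h3⟩
      rw [hl0q] at h3
      exact lt_irrefl _ h3) (hfin _), hq2'] at h2
    omega

end Pool.Agent.K9h77.RL
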