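import Pool.Agent.Results.MP_a08d0a_co.IidLevel

/-! Crossings with exactly `k - 1` or exactly `k` lines below are vertices of the `k`-level. -/

set_option autoImplicit false

namespace Pool.Agent.K9h77.RL

open Finset MeasureTheory Filter Pool.Agent.H189R2.Lev Pool.Agent.H189R2.Iid
open Pool.Agent.Results.MP_a08d0a_co.IidLevel
open scoped ENNReal Topology

variable {n : ℕ}

theorem break_of_crossing {a B : Fin n → ℝ} (hS : Simple a B) {i j : Fin n} (hij : a j < a i)
    {x : ℝ} (hx : ht a B i x = ht a B j x) {k c : ℕ}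
    (hc : {l | ht a B l x < ht a B i x}.ncard = c) (hck : c = k ∨ c + 1 = k) :
    ¬ ∃ l, level a B k =ᶠ[𝓝 x] ht a B l := by
  classical
  have hne : i ≠ j := fun h => by rw [h] at hij; exact lt_irrefl _ hij
  have hcont : ∀ l, Continuous (ht a B l) := by
    intro l; unfold ht; fun_prop
  have hoff : ∀ l, l ≠ i → l ≠ j → ht a B l x ≠ ht a B i x := by
    intro l h1 h2 h3
    exact hS.2 i j l hne (Ne.symm h1) (Ne.symm h2) ⟨x, hx, h3.symm⟩
  have hev : ∀ᶠ x' in 𝓝 x, ∀ l ∈ (univ : Finset (Fin n)), l ≠ i → l ≠ j →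
      ((ht a B l x' < ht a B i x' ↔ ht a B l x < ht a B i x) ∧
      (ht a B l x' ≤ ht a B i x' ↔ ht a B l x < ht a B i x) ∧
      (ht a B l x' < ht a B j x' ↔ ht a B l x < ht a B i x) ∧
      (ht a B l x' ≤ ht a B j x' ↔ ht a B l x < ht a B i x)) := by
    rw [Filter.eventually_all_finset]
    intro l _
    by_cases h1 : l = i
    · exact Eventually.of_forall (fun _ h => absurd h1 h)
    by_cases h2 : l = j
    · exact Eventually.of_forall (fun _ _ h => absurd h2 h)
    rcases lt_or_gt_of_ne (hoff l h1 h2) with h | h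
    · have h' : ht a B l x < ht a B j x := by rw [← hx]; exact h
      filter_upwards [((hcont l).tendsto x).eventually_lt ((hcont i).tendsto x) h,
        ((hcont l).tendsto x).eventually_lt ((hcont j).tendsto x) h'] with x' e1 e2 _ _
      exact ⟨iff_of_true e1 h, iff_of_true e1.le h, iff_of_true e2 h, iff_of_true e2.le h⟩
    · have h' : ht a B j x < ht a B l x := by rw [← hx]; exact h
      filter_upwards [((hcont i).tendsto x).eventually_lt ((hcont l).tendsto x) h,
        ((hcont j).tendsto x).eventually_lt ((hcont l).tendsto x) h'] with x' e1 e2 _ _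
      exact ⟨iff_of_false (not_lt.mpr e1.le) (not_lt.mpr h.le),
        iff_of_false (not_le.mpr e1) (not_lt.mpr h.le),
        iff_of_false (not_lt.mpr e2.le) (not_lt.mpr h.le),
        iff_of_false (not_le.mpr e2) (not_lt.mpr h.le)⟩
  set C : Set (Fin n) := {l | ht a B l x < ht a B i x} with hC
  have hiC : i ∉ C := by simp [hC]
  have hjC : j ∉ C := by simp [hC, hx]
  -- the level at `x`
  have hlx : level a B k x = ht a B i x := by
    apply level_eq
    · show C.ncard ≤ k
      omega
    · have hsub : insert i (insert j C) ⊆ {l | ht a B l x ≤ ht a B i x} := by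
        rintro l (rfl | rfl | hl)
        · show ht a B l x ≤ ht a B l x
          exact le_rfl
        · exact hx.ge
        · have hl' : ht a B l x < ht a B i x := hl
          exact hl'.le
      have h1 := Set.ncard_le_ncard hsub (Set.toFinite _)
      rw [Set.ncard_insert_of_notMem (by
        intro h
        rcases h with h | h
        · exact hne h
        · exact hiC h) (Set.toFinite _), Set.ncard_insert_of_notMem hjC (Set.toFinite _)] at h1
      omega
  -- the level near `x`, for a lower line `u` and an upper line `v`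
  have key : ∀ (u v : Fin n) (x' : ℝ), ((u = i ∧ v = j) ∨ (u = j ∧ v = i)) →
      (∀ l, l ≠ i → l ≠ j →
      ((ht a B l x' < ht a B i x' ↔ ht a B l x < ht a B i x) ∧
      (ht a B l x' ≤ ht a B i x' ↔ ht a B l x < ht a B i x) ∧
      (ht a B l x' < ht a B j x' ↔ ht a B l x < ht a B i x) ∧
      (ht a B l x' ≤ ht a B j x' ↔ ht a B l x < ht a B i x))) →
      ht a B u x' < ht a B v x' →
      level a B k x' = if c = k then ht a B u x' else ht a B v x' := by
    intro u v x' huv hl hlt
    have hCu : ∀ l, l ∈ C → l ≠ u ∧ l ≠ v := by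
      intro l hm
      rcases huv with ⟨rfl, rfl⟩ | ⟨rfl, rfl⟩
      · exact ⟨fun h => hiC (h ▸ hm), fun h => hjC (h ▸ hm)⟩
      · exact ⟨fun h => hjC (h ▸ hm), fun h => hiC (h ▸ hm)⟩
    have huv' : ∀ l, l ≠ u → l ≠ v → l ≠ i ∧ l ≠ j := by
      intro l h1 h2
      rcases huv with ⟨rfl, rfl⟩ | ⟨rfl, rfl⟩
      · exact ⟨h1, h2⟩
      · exact ⟨h2, h1⟩
    have e1 : {l | ht a B l x' < ht a B u x'} = C := by
      ext l
      constructor
      · intro h0
        have h : ht a B l x' < ht a B u x' := h0
        have h1 : l ≠ u := fun h' => by rw [h'] at h; exact lt_irrefl _ h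
        have h2 : l ≠ v := fun h' => by rw [h'] at h; exact lt_asymm h hlt
        obtain ⟨h3, h4⟩ := huv' l h1 h2
        obtain ⟨g1, g2, g3, g4⟩ := hl l h3 h4
        rcases huv with ⟨rfl, rfl⟩ | ⟨rfl, rfl⟩
        · exact g1.mp h
        · exact g3.mp h
      · intro h
        obtain ⟨h1, h2⟩ := hCu l h
        obtain ⟨h3, h4⟩ := huv' l h1 h2
        obtain ⟨g1, g2, g3, g4⟩ := hl l h3 h4
        rcases huv with ⟨rfl, rfl⟩ | ⟨rfl, rfl⟩
        · exact g1.mpr h
        · exact g3.mpr h
    have e2 : {l | ht a B l x' ≤ ht a B u x'} = insert u C := by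
      ext l
      rw [Set.mem_insert_iff]
      by_cases h1 : l = u
      · simp [h1]
      by_cases h2 : l = v
      · rw [h2]
        constructor
        · intro h; exact absurd hlt (not_lt.mpr h)
        · rintro (h | h)
          · rw [h] at hlt; exact absurd hlt (lt_irrefl _)
          · exact absurd rfl (hCu v h).2
      obtain ⟨h3, h4⟩ := huv' l h1 h2
      obtain ⟨g1, g2, g3, g4⟩ := hl l h3 h4
      simp only [h1, false_or]
      rcases huv with ⟨rfl, rfl⟩ | ⟨rfl, rfl⟩
      · exact g2
      · exact g4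
    have e3 : {l | ht a B l x' < ht a B v x'} = insert u C := by
      ext l
      rw [Set.mem_insert_iff]
      by_cases h1 : l = u
      · rw [h1]; exact iff_of_true hlt (Or.inl rfl)
      by_cases h2 : l = v
      · rw [h2]
        constructor
        · intro h; exact absurd h (lt_irrefl (ht a B v x'))
        · rintro (h | h)
          · rw [h] at hlt; exact absurd hlt (lt_irrefl _)
          · exact absurd rfl (hCu v h).2
      obtain ⟨h3, h4⟩ := huv' l h1 h2
      obtain ⟨g1, g2, g3, g4⟩ := hl l h3 h4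
      simp only [h1, false_or]
      rcases huv with ⟨rfl, rfl⟩ | ⟨rfl, rfl⟩
      · exact g3
      · exact g1
    have huC : u ∉ C := by
      intro h; exact (hCu u h).1 rfl
    have e4 : insert v (insert u C) ⊆ {l | ht a B l x' ≤ ht a B v x'} := by
      rw [← e3]
      rintro l (rfl | hm)
      · show ht a B l x' ≤ ht a B l x'
        exact le_rfl
      · have hm' : ht a B l x' < ht a B v x' := hm
        exact hm'.le
    have hvC : v ∉ insert u C := by
      rintro (h | h)
      · rw [h] at hlt; exact lt_irrefl _ hlt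
      · exact (hCu v h).2 rfl
    have n1 : (insert u C).ncard = c + 1 := by
      rw [Set.ncard_insert_of_notMem huC (Set.toFinite _), hc]
    have n2 : (insert v (insert u C)).ncard = c + 2 := by
      rw [Set.ncard_insert_of_notMem hvC (Set.toFinite _), n1]
    split_ifs with h
    · apply level_eq
      · rw [e1]; omega
      · rw [e2, n1]; omega
    · apply level_eq
      · rw [e3, n1]; omega
      · have := Set.ncard_le_ncard e4 (Set.toFinite _)
        rw [n2] at this
        omega
  rintro ⟨l, hl⟩
  have hl0 : ht a B i x = ht a B l x := by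
    rw [← hlx]; exact hl.eq_of_nhds
  -- go to both sides by the same small amount
  have t1 : Tendsto (fun ε : ℝ => x - ε) (𝓝[>] 0) (𝓝 x) := by
    have : Tendsto (fun ε : ℝ => x - ε) (𝓝 0) (𝓝 (x - 0)) := by
      apply Continuous.tendsto; fun_prop
    rw [sub_zero] at this
    exact this.mono_left nhdsWithin_le_nhds
  have t2 : Tendsto (fun ε : ℝ => x + ε) (𝓝[>] 0) (𝓝 x) := by
    have : Tendsto (fun ε : ℝ => x + ε) (𝓝 0) (𝓝 (x + 0)) := by
      apply Continuous.tendsto; fun_prop
    rw [add_zero] at this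
    exact this.mono_left nhdsWithin_le_nhds
  have hall := (t1.eventually hev).and ((t2.eventually hev).and
    ((t1.eventually hl).and ((t2.eventually hl).and
      (self_mem_nhdsWithin : ∀ᶠ ε : ℝ in 𝓝[>] 0, ε ∈ Set.Ioi (0 : ℝ)))))
  obtain ⟨ε, h1, h2, h3, h4, h5⟩ := hall.exists
  have hε : (0 : ℝ) < ε := h5
  have hL := key i j (x - ε) (Or.inl ⟨rfl, rfl⟩) (fun l h6 h7 => h1 l (mem_univ l) h6 h7) (by
    unfold ht at hx ⊢
    nlinarith)
  have hR := key j i (x + ε) (Or.inr ⟨rfl, rfl⟩) (fun l h6 h7 => h2 l (mem_univ l) h6 h7) (by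
    unfold ht at hx ⊢
    nlinarith)
  rw [h3] at hL
  rw [h4] at hR
  unfold ht at hL hR hl0 hx
  split_ifs at hL hR with h
  · nlinarith
  · nlinarith

/-- crossings with `k - 1` or `k` lines below are vertices of the `k`-level -/
theorem count_le_psi {P : Fin n → ℝ × ℝ} (hP : GP P) {k c : ℕ} (hck : c = k ∨ c + 1 = k) :
    ((((T P).filter (fun q => lev P q = c)).card : ℕ) : ℕ∞) ≤ psi (sl P) (ic P) k := by
  classical
  rw [← Set.encard_coe_eq_coe_finsetCard]
  apply Set.encard_le_encard_of_injOn (f := fun q => X2 (P q.1) (P q.2))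
  · rintro ⟨i, j⟩ hq
    rw [mem_coe, mem_filter, mem_T] at hq
    obtain ⟨h1, h2⟩ := hq
    simp only at h1
    have hx : ht (sl P) (ic P) i (X2 (P i) (P j)) = ht (sl P) (ic P) j (X2 (P i) (P j)) := by
      have := ht_cr (B := ic P) (show sl P i ≠ sl P j from h1.ne')
      exact this.symm
    apply break_of_crossing (simple_of_GP hP) h1 hx (c := c) _ hck
    rw [← h2]
    unfold lev
    rw [← Set.ncard_coe_finset]
    congr 1
    ext l
    simp only [coe_filter, mem_univ, true_and]
    exact Iff.rfl
  · rintro ⟨i, j⟩ hq ⟨i', j'⟩ hq' h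
    rw [mem_coe, mem_filter, mem_T] at hq hq'
    obtain ⟨e1, e2⟩ := hP.2 i j i' j' hq.1 hq'.1 h
    rw [e1, e2]

end Pool.Agent.K9h77.RL
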