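import Pool.Agent.K9h77.RL.Transfer

/-! Consequences of the transfer. -/

set_option autoImplicit false

namespace Pool.Agent.K9h77.RL

open Finset MeasureTheory Filter Pool.Agent.H189R2.Lev Pool.Agent.H189R2.Iid
open KLev.Levels (height kLevel IsVertex complexity vertices_finite complexity_le)
open Pool.Agent.Results.MP_a08d0a_co.IidLevel
open Pool.Agent.W863.AllK (HasEv)
open scoped ENNReal Topology

/-- **Exponent.** -/
theorem exponent {β : ℝ} (hβ : 0 ≤ β)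
    (h : ∃ C : ℝ, ∀ (μ : Measure (ℝ × ℝ)), IsProbabilityMeasure μ → LN μ → ∀ n k : ℕ, k < n →
      expPsi μ n k ≤ ENNReal.ofReal (C * (n * ((min k (n - 1 - k) : ℕ) + 1 : ℝ) ^ β))) :
    ∃ C : ℝ, ∀ n k : ℕ, k < n →
      (KLev.Levels.e k n : ℝ) ≤ C * (n * ((min k (n - 1 - k) : ℕ) + 1 : ℝ) ^ (2 * β)) := by
  obtain ⟨C, hC⟩ := h
  have hexp := Real.exp_pos (-256 : ℝ)
  obtain ⟨c, hc⟩ : ∃ c : ℝ, c = Real.exp (-256 : ℝ) / 16 := ⟨_, rfl⟩
  have hc0 : 0 < c := by rw [hc]; positivity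
  refine ⟨|C| / c + 33, fun n k hkn => ?_⟩
  obtain ⟨m, hm⟩ : ∃ m, m = min k (n - 1 - k) := ⟨_, rfl⟩
  rw [← hm]
  have hn0 : (0 : ℝ) < n := by exact_mod_cast (by omega : 0 < n)
  have hm0 : (0 : ℝ) ≤ m := Nat.cast_nonneg m
  have hone : (1 : ℝ) ≤ ((m : ℝ) + 1) ^ (2 * β) := Real.one_le_rpow (by linarith) (by linarith)
  have hcc : (0 : ℝ) ≤ |C| / c := by positivity
  by_cases h17 : 17 ≤ m
  · obtain ⟨μ, h1, h2, h3⟩ := transfer hm h17
    rw [← hc] at h3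
    have hmn : 2 * m + 1 ≤ n := by omega
    have hm2 : m ^ 2 < m * n := by nlinarith
    have h4 := h3.trans (hC μ h1 h2 (m * n) (m ^ 2) hm2)
    have hmR : (17 : ℝ) ≤ m := by exact_mod_cast h17
    have h5 : (0 : ℝ) ≤ c * (m * (KLev.Levels.e k n : ℝ)) := by positivity
    have h6 : c * (m * (KLev.Levels.e k n : ℝ)) ≤
        |C| * (((m * n : ℕ) : ℝ) * (((min (m ^ 2) (m * n - 1 - m ^ 2) : ℕ) : ℝ) + 1) ^ β) := by
      have h7 : C * (((m * n : ℕ) : ℝ) *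
          (((min (m ^ 2) (m * n - 1 - m ^ 2) : ℕ) : ℝ) + 1) ^ β) ≤
          |C| * (((m * n : ℕ) : ℝ) *
          (((min (m ^ 2) (m * n - 1 - m ^ 2) : ℕ) : ℝ) + 1) ^ β) :=
        mul_le_mul_of_nonneg_right (le_abs_self C) (by positivity)
      have h8 := h4.trans (ENNReal.ofReal_le_ofReal h7)
      rwa [ENNReal.ofReal_le_ofReal_iff (by positivity)] at h8
    have h9 : (((min (m ^ 2) (m * n - 1 - m ^ 2) : ℕ) : ℝ) + 1) ^ β ≤ ((m : ℝ) + 1) ^ (2 * β) := by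
      rw [Real.rpow_mul (by linarith)]
      apply Real.rpow_le_rpow (by positivity) _ hβ
      have h10 : ((min (m ^ 2) (m * n - 1 - m ^ 2) : ℕ) : ℝ) ≤ ((m ^ 2 : ℕ) : ℝ) := by
        exact_mod_cast min_le_left _ _
      push_cast at h10 ⊢
      rw [Real.rpow_two]
      nlinarith
    have h11 : c * (m * (KLev.Levels.e k n : ℝ)) ≤ |C| * ((m * n) * ((m : ℝ) + 1) ^ (2 * β)) := by
      refine h6.trans ?_
      push_cast
      have : (0 : ℝ) ≤ |C| := abs_nonneg C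
      have h12 : ((m : ℝ) * n) * (((min (m ^ 2) (m * n - 1 - m ^ 2) : ℕ) : ℝ) + 1) ^ β ≤
          (m * n) * ((m : ℝ) + 1) ^ (2 * β) := mul_le_mul_of_nonneg_left h9 (by positivity)
      push_cast at h12
      exact mul_le_mul_of_nonneg_left h12 this
    have hm1 : (0 : ℝ) < m := by linarith
    have h13 : (KLev.Levels.e k n : ℝ) ≤ |C| / c * (n * ((m : ℝ) + 1) ^ (2 * β)) := by
      rw [div_mul_eq_mul_div, le_div_iff₀ hc0]
      have h14 : (m : ℝ) * ((KLev.Levels.e k n : ℝ) * c) ≤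
          m * (|C| * (n * ((m : ℝ) + 1) ^ (2 * β))) := by
        calc (m : ℝ) * ((KLev.Levels.e k n : ℝ) * c) = c * (m * (KLev.Levels.e k n : ℝ)) := by ring
          _ ≤ _ := h11
          _ = _ := by ring
      exact le_of_mul_le_mul_left h14 hm1
    have : (0 : ℝ) ≤ n * ((m : ℝ) + 1) ^ (2 * β) := by positivity
    nlinarith
  · obtain ⟨Γ, h1, h2⟩ := e_attained k n
    have h3 := Pool.Agent.Y375.FD.upper Γ k
    rw [h2, h1, ← hm] at h3
    have h4 : (Γ.image Prod.fst).card ≤ n := h1 ▸ card_image_le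
    have h5 : KLev.Levels.e k n ≤ n * 33 := by
      refine h3.trans (Nat.mul_le_mul (by omega) (by omega))
    have h6 : (KLev.Levels.e k n : ℝ) ≤ n * 33 := by exact_mod_cast h5
    have h7 : (n : ℝ) * 33 ≤ 33 * (n * ((m : ℝ) + 1) ^ (2 * β)) := by nlinarith
    have : (0 : ℝ) ≤ n * ((m : ℝ) + 1) ^ (2 * β) := by positivity
    nlinarith [mul_nonneg hcc this]

end Pool.Agent.K9h77.RL
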